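import Mathlib

open MeasureTheory Finset Filter
open scoped Topology

namespace PS4

private theorem ediam_cell (N i : ℕ) :
    Metric.ediam (Set.Icc ((i : ℝ) / N) (((i : ℝ) + 1) / N)) = ENNReal.ofReal (1 / N) := by
  rw [Real.ediam_Icc]
  congr 1
  ring

/-- P13: Hausdorff dimension of a limsup set of grid cells. -/
theorem dimH_limsup (s : ℝ) (hs : 0 < s) (N : ℕ → ℕ) (I : ℕ → Finset ℕ) (E : Set ℝ)
    (hN : Tendsto (fun j => (N j : ℝ)) atTop atTop)
    (hsum : Summable (fun j => ((I j).card : ℝ) * (N j : ℝ) ^ (-s)))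
    (hE : ∀ x ∈ E, ∃ᶠ j in atTop, ∃ i ∈ I j, (i : ℝ) / N j ≤ x ∧ x ≤ ((i : ℝ) + 1) / N j) :
    dimH E ≤ ENNReal.ofReal s := by
  classical
  have hJ : ∀ n : ℕ, ∃ J : ℕ, ∀ j, J ≤ j → ((n : ℝ) + 1) ≤ N j := fun n =>
    eventually_atTop.1 (hN.eventually_ge_atTop ((n : ℝ) + 1))
  choose J hJ using hJ
  set t : ℕ → ℕ × ℕ → Set ℝ := fun n p =>
    if J n ≤ p.1 ∧ p.2 ∈ I p.1 then Set.Icc ((p.2 : ℝ) / N p.1) (((p.2 : ℝ) + 1) / N p.1) else ∅
    with ht
  have hdiam : ∀ n p, Metric.ediam (t n p) ≤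
      if p.2 ∈ I p.1 then ENNReal.ofReal (1 / N p.1) else 0 := by
    intro n p
    rw [ht]
    dsimp only
    by_cases h : J n ≤ p.1 ∧ p.2 ∈ I p.1
    · rw [if_pos h, if_pos h.2, ediam_cell]
    · rw [if_neg h]
      simp
  have hle := MeasureTheory.Measure.hausdorffMeasure_le_liminf_tsum (X := ℝ) (ι := fun _ => ℕ × ℕ)
    s E (l := atTop) (fun n : ℕ => ENNReal.ofReal (1 / ((n : ℝ) + 1))) ?_ t ?_ ?_
  · -- the bound
    have hbound : ∀ n, ∑' p : ℕ × ℕ, Metric.ediam (t n p) ^ s ≤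
        ENNReal.ofReal (∑' j, ((I j).card : ℝ) * (N j : ℝ) ^ (-s)) := by
      intro n
      calc ∑' p : ℕ × ℕ, Metric.ediam (t n p) ^ s
          ≤ ∑' p : ℕ × ℕ, (if p.2 ∈ I p.1 then ENNReal.ofReal (1 / N p.1) else 0) ^ s :=
            ENNReal.tsum_le_tsum fun p => ENNReal.rpow_le_rpow (hdiam n p) hs.le
        _ = ∑' j : ℕ, ∑' i : ℕ, (if i ∈ I j then ENNReal.ofReal (1 / N j) else 0) ^ s :=
            ENNReal.tsum_prod (f := fun j i => (if i ∈ I j then ENNReal.ofReal (1 / N j) else 0) ^ s)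
        _ = ∑' j : ℕ, ENNReal.ofReal (((I j).card : ℝ) * (N j : ℝ) ^ (-s)) := by
            congr 1
            ext j
            rw [tsum_eq_sum (s := I j)]
            · rw [Finset.sum_congr rfl (g := fun _ => ENNReal.ofReal ((N j : ℝ) ^ (-s)))]
              · rw [Finset.sum_const, nsmul_eq_mul, ENNReal.ofReal_mul (Nat.cast_nonneg _),
                  ENNReal.ofReal_natCast]
              · intro i hi
                rw [if_pos hi, ENNReal.ofReal_rpow_of_nonneg (by positivity) hs.le]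
                congr 1
                rw [one_div, Real.inv_rpow (Nat.cast_nonneg _), Real.rpow_neg (Nat.cast_nonneg _)]
            · intro i hi
              rw [if_neg hi, ENNReal.zero_rpow_of_pos hs]
        _ = ENNReal.ofReal (∑' j, ((I j).card : ℝ) * (N j : ℝ) ^ (-s)) := by
            rw [ENNReal.ofReal_tsum_of_nonneg (fun j => by positivity) hsum]
    have h1 : μH[s] E ≤ ENNReal.ofReal (∑' j, ((I j).card : ℝ) * (N j : ℝ) ^ (-s)) := by
      refine hle.trans ?_
      refine (liminf_le_liminf (Eventually.of_forall hbound)).trans ?_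
      simp
    have h2 : μH[((s.toNNReal : NNReal) : ℝ)] E ≠ ⊤ := by
      rw [Real.coe_toNNReal s hs.le]
      exact (lt_of_le_of_lt h1 ENNReal.ofReal_lt_top).ne
    exact dimH_le_of_hausdorffMeasure_ne_top h2
  · have h1 : Tendsto (fun n : ℕ => 1 / ((n : ℝ) + 1)) atTop (𝓝 0) :=
      tendsto_one_div_add_atTop_nhds_zero_nat
    have h2 := ENNReal.tendsto_ofReal h1
    rwa [ENNReal.ofReal_zero] at h2
  · refine Eventually.of_forall fun n p => ?_
    rw [ht]
    dsimp only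
    by_cases h : J n ≤ p.1 ∧ p.2 ∈ I p.1
    · rw [if_pos h, ediam_cell]
      apply ENNReal.ofReal_le_ofReal
      have := hJ n p.1 h.1
      apply one_div_le_one_div_of_le (by positivity) this
    · rw [if_neg h]
      simp
  · refine Eventually.of_forall fun n x hx => ?_
    obtain ⟨j, hj, i, hi, h1, h2⟩ := (frequently_atTop.1 (hE x hx)) (J n)
    rw [Set.mem_iUnion]
    refine ⟨(j, i), ?_⟩
    rw [ht]
    dsimp only
    rw [if_pos ⟨hj, hi⟩]
    exact ⟨h1, h2⟩

end PS4
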