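import Pool.Agent.LibPS4.V04

/-!
# Piatetski-Shapiro primes for almost all exponents: definitions
-/

open MeasureTheory Finset

namespace PS4

/-- The sum of `f(⌊k^α⌋)` over `√K < k ≤ K`. -/
noncomputable def Sd (f : ℕ → ℝ) (K : ℕ) (α : ℝ) : ℝ :=
  ∑ k ∈ Ioc (Nat.sqrt K) K, f ⌊(k : ℝ) ^ α⌋₊

/-- The integral of `f(⌊x^α⌋)` over `√K < x ≤ K`. -/
noncomputable def Md (f : ℕ → ℝ) (K : ℕ) (α : ℝ) : ℝ :=
  ∫ x in (Nat.sqrt K : ℝ)..(K : ℝ), f ⌊x ^ α⌋₊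

/-- Lower end of the support of the step function. -/
noncomputable def s0 (K : ℕ) : ℝ := Real.log (Real.log (Nat.sqrt K))

/-- Upper end of the support of the step function. -/
noncomputable def s1 (B K : ℕ) : ℝ := Real.log B + Real.log (Real.log K)

/-- The step function `s ↦ f(⌊exp(exp s)⌋)`, cut off. -/
noncomputable def Ph (f : ℕ → ℝ) (B K : ℕ) : ℝ → ℝ :=
  (Set.Icc (s0 K) (s1 B K)).indicator (fun s => f ⌊Real.exp (Real.exp s)⌋₊)

/-- The difference of the sum and the integral in the variable `a = log α`: a convolution. -/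
noncomputable def FK (f : ℕ → ℝ) (B K : ℕ) (a : ℝ) : ℝ :=
  ∑ k ∈ Ioc (Nat.sqrt K) K, Ph f B K (a + Real.log (Real.log k)) -
    ∫ x in (Nat.sqrt K : ℝ)..(K : ℝ), Ph f B K (a + Real.log (Real.log x))

/-- The Fourier transform of the measure `∑ δ_{loglog k} - dx`. -/
noncomputable def nuh (K : ℕ) (u : ℝ) : ℂ :=
  ∑ k ∈ Ioc (Nat.sqrt K) K, e1 (u * Real.log (Real.log k)) -
    ∫ x in (Nat.sqrt K : ℝ)..(K : ℝ), e1 (u * Real.log (Real.log x))

/-- The number of primes `p ≤ x` of the form `⌊k^α⌋`, `k ≥ 1`. -/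
noncomputable def piA (α x : ℝ) : ℝ :=
  (({p : ℕ | (p : ℝ) ≤ x ∧ p.Prime ∧ ∃ k : ℕ, 1 ≤ k ∧ ⌊(k : ℝ) ^ α⌋₊ = p} : Set ℕ).ncard : ℝ)

/-- The expected number: the sum of `(p+1)^{1/α} - p^{1/α}` over the primes `p ≤ x`. -/
noncomputable def expA (α x : ℝ) : ℝ :=
  ∑ p ∈ (Finset.range (⌊x⌋₊ + 1)).filter Nat.Prime,
    (((p : ℝ) + 1) ^ (1 / α) - (p : ℝ) ^ (1 / α))

/-- The indicator function of the primes. -/
noncomputable def prI (n : ℕ) : ℝ := if n.Prime then 1 else 0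

end PS4
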