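import Pool.Agent.LibPS4.Defs

open MeasureTheory Finset

namespace PS4

private theorem p01_log {x : ℝ} (hx : 3 ≤ x) : 1 ≤ Real.log x := by
  rw [Real.le_log_iff_exp_le (by linarith)]
  have := Real.exp_one_lt_d9
  linarith

/-- The derivative of one term. -/
private theorem p01_term (j i : ℕ) {x : ℝ} (hx : 3 ≤ x) :
    HasDerivAt (fun y : ℝ => (y ^ (j + 1) * Real.log y ^ (i + 1))⁻¹)
      (-(((j : ℝ) + 1) * (x ^ (j + 2) * Real.log x ^ (i + 1))⁻¹ +
        ((i : ℝ) + 1) * (x ^ (j + 2) * Real.log x ^ (i + 2))⁻¹)) x := by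
  have hx0 : x ≠ 0 := by linarith
  have hL : Real.log x ≠ 0 := by
    have := p01_log hx
    linarith
  have h1 : HasDerivAt (fun y : ℝ => y ^ (j + 1)) (((j + 1 : ℕ) : ℝ) * x ^ j) x :=
    hasDerivAt_pow (j + 1) x
  have h2 : HasDerivAt (fun y : ℝ => Real.log y ^ (i + 1))
      (((i + 1 : ℕ) : ℝ) * Real.log x ^ i * x⁻¹) x :=
    (Real.hasDerivAt_log hx0).fun_pow (i + 1)
  have h3 := (h1.fun_mul h2).fun_inv (mul_ne_zero (pow_ne_zero _ hx0) (pow_ne_zero _ hL))
  refine h3.congr_deriv ?_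
  push_cast
  field_simp
  ring

private theorem p01_sum (k : ℕ) : ∀ (j m : ℕ) (w : ℕ → ℝ), (∀ i, 0 ≤ w i) → 1 ≤ w 0 →
    ∃ T : ℝ, 1 ≤ T ∧ ∀ (c lo hi : ℝ) (s : Set ℝ),
      (∀ x ∈ s, 3 ≤ x) → 0 ≤ (-1) ^ k * c →
      (∀ x ∈ s, lo ≤ (-1) ^ k * c * (x ^ (j + 1 + k) * Real.log x)⁻¹ ∧
        T * ((-1) ^ k * c * (x ^ (j + 1 + k) * Real.log x)⁻¹) ≤ hi) →
      Dk k lo hi (fun x => c * ∑ i ∈ range (m + 1),
        w i * (x ^ (j + 1) * Real.log x ^ (i + 1))⁻¹) s := by
  induction k with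
  | zero =>
    intro j m w hw hw0
    refine ⟨∑ i ∈ range (m + 1), w i, ?_, ?_⟩
    · exact hw0.trans (Finset.single_le_sum (f := w) (fun i _ => hw i)
        (Finset.mem_range.2 (Nat.succ_pos m)))
    · intro c lo hi s hs hc h x hx
      have hx3 := hs x hx
      have hL := p01_log hx3
      have hx0 : (0 : ℝ) < x := by linarith
      have hL0 : (0 : ℝ) < Real.log x := by linarith
      obtain ⟨h1, h2⟩ := h x hx
      simp only [pow_zero, one_mul, add_zero] at h1 h2 hc
      have hpos : ∀ i : ℕ, 0 ≤ w i * (x ^ (j + 1) * Real.log x ^ (i + 1))⁻¹ := fun i =>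
        mul_nonneg (hw i) (by positivity)
      have hq : (0 : ℝ) < (x ^ (j + 1) * Real.log x)⁻¹ := by positivity
      constructor
      · refine h1.trans (mul_le_mul_of_nonneg_left ?_ hc)
        have h3 := Finset.single_le_sum
          (f := fun i => w i * (x ^ (j + 1) * Real.log x ^ (i + 1))⁻¹)
          (fun i _ => hpos i) (Finset.mem_range.2 (Nat.succ_pos m))
        have h4 : (x ^ (j + 1) * Real.log x)⁻¹ ≤
            w 0 * (x ^ (j + 1) * Real.log x ^ (0 + 1))⁻¹ := by
          rw [zero_add, pow_one]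
          exact le_mul_of_one_le_left hq.le hw0
        exact h4.trans h3
      · refine le_trans ?_ h2
        have h5 : (∑ i ∈ range (m + 1), w i) * (c * (x ^ (j + 1) * Real.log x)⁻¹) =
            c * ∑ i ∈ range (m + 1), w i * (x ^ (j + 1) * Real.log x)⁻¹ := by
          rw [← Finset.sum_mul]
          ring
        rw [h5]
        refine mul_le_mul_of_nonneg_left (Finset.sum_le_sum fun i _ => ?_) hc
        refine mul_le_mul_of_nonneg_left ?_ (hw i)
        refine inv_anti₀ (by positivity) ?_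
        refine mul_le_mul_of_nonneg_left ?_ (by positivity)
        exact le_self_pow₀ hL (Nat.succ_ne_zero i)
  | succ k ih =>
    intro j m w hw hw0
    obtain ⟨T, hT, h⟩ := ih (j + 1) (m + 1)
      (fun i => ((j : ℝ) + 1) * (if i ≤ m then w i else 0) + (i : ℝ) * w (i - 1))
      (fun i => by
        have h1 : 0 ≤ (if i ≤ m then w i else 0) := by
          split_ifs
          · exact hw i
          · exact le_rfl
        have h2 := hw (i - 1)
        positivity)
      (by
        have hj : (0 : ℝ) ≤ j := Nat.cast_nonneg j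
        simp only [Nat.zero_le, if_true, Nat.cast_zero, zero_mul, add_zero]
        nlinarith)
    refine ⟨T, hT, ?_⟩
    intro c lo hi s hs hc hb
    refine ⟨fun x => (-c) * ∑ i ∈ range (m + 1 + 1),
      (((j : ℝ) + 1) * (if i ≤ m then w i else 0) + (i : ℝ) * w (i - 1)) *
        (x ^ (j + 1 + 1) * Real.log x ^ (i + 1))⁻¹, ?_, ?_⟩
    · intro x hx
      have hx3 := hs x hx
      have h1 : HasDerivAt (fun y : ℝ => ∑ i ∈ range (m + 1),
          w i * (y ^ (j + 1) * Real.log y ^ (i + 1))⁻¹)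
          (∑ i ∈ range (m + 1), w i *
            (-(((j : ℝ) + 1) * (x ^ (j + 2) * Real.log x ^ (i + 1))⁻¹ +
            ((i : ℝ) + 1) * (x ^ (j + 2) * Real.log x ^ (i + 2))⁻¹))) x :=
        HasDerivAt.fun_sum fun i _ => (p01_term j i hx3).const_mul (w i)
      have h2 := (h1.const_mul c).hasDerivWithinAt (s := s)
      refine h2.congr_deriv ?_
      have e1 : ∑ i ∈ range (m + 1 + 1),
          (((j : ℝ) + 1) * (if i ≤ m then w i else 0) + (i : ℝ) * w (i - 1)) *
          (x ^ (j + 1 + 1) * Real.log x ^ (i + 1))⁻¹ =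
          ∑ i ∈ range (m + 1), (((j : ℝ) + 1) * w i *
            (x ^ (j + 2) * Real.log x ^ (i + 1))⁻¹ +
            ((i : ℝ) + 1) * w i * (x ^ (j + 2) * Real.log x ^ (i + 2))⁻¹) := by
        simp only [add_mul _ _ (_ : ℝ)⁻¹]
        rw [Finset.sum_add_distrib, Finset.sum_add_distrib]
        congr 1
        · rw [Finset.sum_range_succ]
          rw [if_neg (by omega), mul_zero, zero_mul, add_zero]
          refine Finset.sum_congr rfl fun i hi => ?_
          rw [if_pos (Nat.lt_succ_iff.1 (Finset.mem_range.1 hi))]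
        · rw [Finset.sum_range_succ']
          simp only [Nat.cast_zero, zero_mul, add_zero, Nat.add_sub_cancel, Nat.cast_add,
            Nat.cast_one]
      beta_reduce
      rw [e1, neg_mul, ← mul_neg, ← Finset.sum_neg_distrib]
      congr 1
      refine Finset.sum_congr rfl fun i _ => ?_
      ring
    · refine h (-c) lo hi s hs ?_ ?_
      · have : (-1 : ℝ) ^ k * -c = (-1) ^ (k + 1) * c := by ring
        rw [this]
        exact hc
      · intro x hx
        have e1 : (-1 : ℝ) ^ k * -c = (-1) ^ (k + 1) * c := by ring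
        have e2 : j + 1 + 1 + k = j + 1 + (k + 1) := by ring
        rw [e1, e2]
        exact hb x hx

/-- P01: the derivatives of `c log log x`: the `(k+1)`-st derivative is
`(-1)^k c x^{-(k+1)} ∑_i c_i (log x)^{-1-i}` with `c_i ≥ 0`, `c_0 = k! ≥ 1`, so it is between
`(-1)^k c / (x^{k+1} log x)` and `T` times that, for `x ≥ 3`.
Hint: first prove by induction on `k`, for `g x = c * (x^(j+1) * (log x)^(i+1))⁻¹`, a statement
about `Dk k` of a finite sum of such functions with nonnegative weights, e.g.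
`g x = c * ∑ i ∈ range (m+1), w i * (x^(j+1) * log x^(i+1))⁻¹` with `0 ≤ w i`, `1 ≤ w 0`;
compare `v05b_pow` in team-store MR57_V05b.lean. -/
theorem dk_loglog (k : ℕ) : ∃ T : ℝ, 1 ≤ T ∧ ∀ (c lo hi : ℝ) (s : Set ℝ),
    (∀ x ∈ s, 3 ≤ x) → 0 ≤ (-1) ^ k * c →
    (∀ x ∈ s, lo ≤ (-1) ^ k * c * (x ^ (k + 1) * Real.log x)⁻¹ ∧
      T * ((-1) ^ k * c * (x ^ (k + 1) * Real.log x)⁻¹) ≤ hi) →
    Dk (k + 1) lo hi (fun x => c * Real.log (Real.log x)) s := by
  obtain ⟨T, hT, h⟩ := p01_sum k 0 0 (fun _ => 1) (fun _ => zero_le_one) le_rfl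
  refine ⟨T, hT, ?_⟩
  intro c lo hi s hs hc hb
  refine ⟨fun x => c * ∑ i ∈ range (0 + 1), (1 : ℝ) * (x ^ (0 + 1) * Real.log x ^ (i + 1))⁻¹,
    ?_, ?_⟩
  · intro x hx
    have hx3 := hs x hx
    have hL := p01_log hx3
    have hx0 : x ≠ 0 := by linarith
    have hL0 : Real.log x ≠ 0 := by linarith
    have h1 := (Real.hasDerivAt_log hx0).log hL0
    have h2 := (h1.const_mul c).hasDerivWithinAt (s := s)
    refine h2.congr_deriv ?_
    simp only [zero_add, Finset.sum_range_one, pow_one, one_mul]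
    field_simp
  · refine h c lo hi s hs hc ?_
    intro x hx
    have e : 0 + 1 + k = k + 1 := by ring
    rw [e]
    exact hb x hx

end PS4
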