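import Pool.Agent.LibPS4.P01

open MeasureTheory Finset

namespace PS4

private theorem p02_norm (a b : ℕ) (f : ℕ → ℝ) :
    ‖∑ n ∈ Ioc a b, e1 (-(f n))‖ = ‖∑ n ∈ Ioc a b, e1 (f n)‖ := by
  rw [← Complex.norm_conj]
  congr 1
  rw [map_sum]
  apply Finset.sum_congr rfl
  intro n _
  unfold e1
  rw [← Complex.exp_conj]
  congr 1
  rw [map_mul, Complex.conj_ofReal, Complex.conj_I]
  push_cast
  ring

/-- The trivial bound. -/
private theorem p02_trivial (N a b : ℕ) (f : ℕ → ℝ) (hb : b ≤ a + N) :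
    ‖∑ n ∈ Ioc a b, e1 (f n)‖ ≤ N := by
  calc _ ≤ ∑ n ∈ Ioc a b, ‖e1 (f n)‖ := norm_sum_le _ _
    _ = ∑ n ∈ Ioc a b, (1 : ℝ) := by
        apply Finset.sum_congr rfl
        intro n _
        exact v01_norm_e1 _
    _ = ((b - a : ℕ) : ℝ) := by simp
    _ ≤ N := by
        have : b - a ≤ N := by omega
        exact_mod_cast this

private theorem p02_event (k : ℕ) : ∃ N₀ : ℕ, ∀ N : ℕ, N₀ ≤ N →
    (2 : ℝ) ^ (k + 1) * Real.log (2 * N) ≤ (N : ℝ) ^ (3 / 8 : ℝ) := by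
  have h1 : (fun x : ℝ => Real.log x) =o[Filter.atTop] fun x : ℝ => x ^ (3 / 8 : ℝ) :=
    isLittleO_log_rpow_atTop (by norm_num)
  -- log (2 x) ≤ 2 log x ≤ 2^{-(k+1)} x^{3/8}
  have h2 := h1.def (c := ((2 : ℝ) ^ (k + 2))⁻¹) (by positivity)
  have h3 := tendsto_natCast_atTop_atTop (R := ℝ) |>.eventually h2
  obtain ⟨N₁, hN₁⟩ := Filter.eventually_atTop.1 h3
  refine ⟨max N₁ 2, fun N hN => ?_⟩
  have h4 := hN₁ N (le_trans (le_max_left _ _) hN)
  have hN2 : 2 ≤ N := le_trans (le_max_right _ _) hN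
  have hN2R : (2 : ℝ) ≤ N := by exact_mod_cast hN2
  have hlog : 0 < Real.log N := Real.log_pos (by linarith)
  rw [Real.norm_of_nonneg hlog.le, Real.norm_of_nonneg (by positivity)] at h4
  have h5 : Real.log (2 * N) ≤ 2 * Real.log N := by
    rw [Real.log_mul (by norm_num) (by linarith)]
    have : Real.log 2 ≤ Real.log N := Real.log_le_log (by norm_num) hN2R
    linarith
  calc (2 : ℝ) ^ (k + 1) * Real.log (2 * N) ≤ 2 ^ (k + 1) * (2 * Real.log N) := by gcongr
    _ = 2 ^ (k + 2) * Real.log N := by ring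
    _ ≤ 2 ^ (k + 2) * (((2 : ℝ) ^ (k + 2))⁻¹ * (N : ℝ) ^ (3 / 8 : ℝ)) := by gcongr
    _ = (N : ℝ) ^ (3 / 8 : ℝ) := by
        rw [← mul_assoc, mul_inv_cancel₀ (by positivity), one_mul]

/-- P02: one value of `k`. Hint: `vdc_k (k+1)` with `δ = 1/8`, `A = T * 2^(k+2)` and
`lam = |u| / ((2N)^{k+1} log (2N))` (`T` of `dk_loglog k`); the conditions on `lam` hold for `N ≥ N₀`,
the finitely many other `N` are trivial (sum `≤ N ≤ N₀`). Follow `v05b_one` in
team-store MR57_V05b.lean (the same proof for `log` instead of `log log`), also for the sign. -/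
theorem ll_one (k : ℕ) (hk : 1 ≤ k) : ∃ c C : ℝ, 0 < c ∧ c ≤ 1 ∧ 0 < C ∧
    ∀ (N a b : ℕ) (u : ℝ), 3 ≤ N →
    N ≤ a → a ≤ b → b ≤ 2 * N → (N : ℝ) ^ ((k : ℝ) + 1 - 3 / 2 : ℝ) ≤ |u| →
    |u| ≤ (N : ℝ) ^ ((k : ℝ) + 1 - 1 / 2 : ℝ) →
    ‖∑ n ∈ Ioc a b, e1 (u * Real.log (Real.log n))‖ ≤ C * (N : ℝ) ^ (1 - c) := by
  obtain ⟨T, hT, hDk⟩ := dk_loglog k
  have hA1 : (1 : ℝ) ≤ T * 2 ^ (k + 2) := by
    have : (1 : ℝ) ≤ 2 ^ (k + 2) := one_le_pow₀ (by norm_num)
    nlinarith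
  obtain ⟨c, C, hc, hC, h⟩ := vdc_k (k + 1) (by omega) (1 / 8) (T * 2 ^ (k + 2)) (by norm_num)
    (by norm_num) hA1
  obtain ⟨N₀, hN₀⟩ := p02_event k
  refine ⟨min c 1, C + N₀, lt_min hc one_pos, min_le_right _ _, by positivity, ?_⟩
  intro N a b u hN hNa hab hb hu1 hu2
  have hNR3 : (3 : ℝ) ≤ N := by exact_mod_cast hN
  have hNR : (1 : ℝ) ≤ N := by linarith
  have hN0 : (0 : ℝ) < N := by linarith
  have hmono : (N : ℝ) ^ (1 - c) ≤ (N : ℝ) ^ (1 - min c 1) :=
    Real.rpow_le_rpow_of_exponent_le hNR (by have := min_le_left c 1; linarith)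
  have hone : (1 : ℝ) ≤ (N : ℝ) ^ (1 - min c 1) :=
    Real.one_le_rpow hNR (by have := min_le_right c 1; linarith)
  by_cases hNN : N₀ ≤ N
  · have hev := hN₀ N hNN
    have hlogN : 1 ≤ Real.log N := by
      have h1 : Real.log (Real.exp 1) ≤ Real.log N := by
        apply Real.log_le_log (Real.exp_pos _)
        have := Real.exp_one_lt_d9
        linarith
      rwa [Real.log_exp] at h1
    have hlog2N : Real.log N ≤ Real.log (2 * N) :=
      Real.log_le_log hN0 (by linarith)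
    have hlog2N' : Real.log (2 * N) ≤ 2 * Real.log N := by
      rw [Real.log_mul (by norm_num) hN0.ne']
      have : Real.log 2 ≤ Real.log N := Real.log_le_log (by norm_num) (by linarith)
      linarith
    have hL : 1 ≤ Real.log (2 * N) := le_trans hlogN hlog2N
    have hL0 : 0 < Real.log (2 * N) := by linarith
    set D : ℝ := (2 : ℝ) ^ (k + 1) * Real.log (2 * N) with hD
    have hD1 : 1 ≤ D := by
      rw [hD]
      have : (1 : ℝ) ≤ 2 ^ (k + 1) := one_le_pow₀ (by norm_num)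
      nlinarith
    have hD0 : 0 < D := by linarith
    set lam : ℝ := |u| / (D * (N : ℝ) ^ (k + 1)) with hlam
    have hlam1 : (N : ℝ) ^ (-2 + 1 / 8 : ℝ) ≤ lam := by
      rw [hlam, le_div_iff₀ (by positivity)]
      have e1' : (N : ℝ) ^ (-2 + 1 / 8 : ℝ) * ((N : ℝ) ^ (3 / 8 : ℝ) * (N : ℝ) ^ (k + 1)) =
          (N : ℝ) ^ ((k : ℝ) + 1 - 3 / 2 : ℝ) := by
        rw [← Real.rpow_natCast, ← Real.rpow_add hN0, ← Real.rpow_add hN0]
        congr 1
        push_cast
        ring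
      calc (N : ℝ) ^ (-2 + 1 / 8 : ℝ) * (D * (N : ℝ) ^ (k + 1))
          ≤ (N : ℝ) ^ (-2 + 1 / 8 : ℝ) * ((N : ℝ) ^ (3 / 8 : ℝ) * (N : ℝ) ^ (k + 1)) := by
            gcongr
        _ = (N : ℝ) ^ ((k : ℝ) + 1 - 3 / 2 : ℝ) := e1'
        _ ≤ |u| := hu1
    have hlam2 : lam ≤ (N : ℝ) ^ (-(1 / 8) : ℝ) := by
      rw [hlam, div_le_iff₀ (by positivity)]
      have e1' : (N : ℝ) ^ (-(1 / 8) : ℝ) * (1 * (N : ℝ) ^ (k + 1)) =
          (N : ℝ) ^ ((k : ℝ) + 1 - 1 / 8 : ℝ) := by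
        rw [one_mul, ← Real.rpow_natCast, ← Real.rpow_add hN0]
        congr 1
        push_cast
        ring
      calc |u| ≤ (N : ℝ) ^ ((k : ℝ) + 1 - 1 / 2 : ℝ) := hu2
        _ ≤ (N : ℝ) ^ ((k : ℝ) + 1 - 1 / 8 : ℝ) :=
            Real.rpow_le_rpow_of_exponent_le hNR (by linarith)
        _ = (N : ℝ) ^ (-(1 / 8) : ℝ) * (1 * (N : ℝ) ^ (k + 1)) := e1'.symm
        _ ≤ (N : ℝ) ^ (-(1 / 8) : ℝ) * (D * (N : ℝ) ^ (k + 1)) := by gcongr
    have hNaR : (N : ℝ) ≤ a := by exact_mod_cast hNa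
    have hbR : (b : ℝ) ≤ 2 * N := by exact_mod_cast hb
    have hset : ∀ x ∈ Set.Icc (a : ℝ) b, 3 ≤ x := by
      intro x hx
      have := hx.1
      linarith
    have hbd : ∀ x ∈ Set.Icc (a : ℝ) b,
        lam ≤ |u| * (x ^ (k + 1) * Real.log x)⁻¹ ∧
        T * (|u| * (x ^ (k + 1) * Real.log x)⁻¹) ≤ T * 2 ^ (k + 2) * lam := by
      intro x hx
      have hx3 := hset x hx
      have hx1 : (N : ℝ) ≤ x := le_trans hNaR hx.1
      have hx2 : x ≤ 2 * N := le_trans hx.2 hbR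
      have hx0 : 0 < x := by linarith
      have hlx1 : Real.log N ≤ Real.log x := Real.log_le_log hN0 hx1
      have hlx2 : Real.log x ≤ Real.log (2 * N) := Real.log_le_log hx0 hx2
      have hlx0 : 0 < Real.log x := by linarith
      have hlN0 : 0 < Real.log N := by linarith
      constructor
      · have e2 : lam = |u| * ((2 * N : ℝ) ^ (k + 1) * Real.log (2 * N))⁻¹ := by
          rw [hlam, hD, mul_pow, div_eq_mul_inv]
          congr 2
          ring
        rw [e2]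
        apply mul_le_mul_of_nonneg_left _ (abs_nonneg _)
        apply inv_anti₀ (by positivity)
        apply mul_le_mul (pow_le_pow_left₀ hx0.le hx2 _) hlx2 hlx0.le (by positivity)
      · have e3 : T * 2 ^ (k + 2) * lam =
            T * (|u| * ((N : ℝ) ^ (k + 1) * (Real.log (2 * N) / 2))⁻¹) := by
          rw [hlam, hD]
          field_simp
          ring
        rw [e3]
        apply mul_le_mul_of_nonneg_left _ (by linarith)
        apply mul_le_mul_of_nonneg_left _ (abs_nonneg _)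
        apply inv_anti₀ (by positivity)
        apply mul_le_mul (pow_le_pow_left₀ hN0.le hx1 _) (by linarith) (by positivity)
          (by positivity)
    have hmain : ∀ ε : ℝ, (ε = 1 ∨ ε = -1) → (-1) ^ k * (ε * u) = |u| →
        ‖∑ n ∈ Ioc a b, e1 (u * Real.log (Real.log n))‖ ≤ C * (N : ℝ) ^ (1 - c) := by
      intro ε hε1 hε
      have hD := hDk (ε * u) lam (T * 2 ^ (k + 2) * lam) (Set.Icc (a : ℝ) b) hset
        (by rw [hε]; exact abs_nonneg _) (by rw [hε]; exact hbd)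
      have := h N a b (fun x => (ε * u) * Real.log (Real.log x)) lam (by omega) hab
        (by omega) hlam1 hlam2 hD
      rcases hε1 with rfl | rfl
      · simpa using this
      · rw [← p02_norm a b (fun n : ℕ => u * Real.log (Real.log n))]
        simpa using this
    have hES : ‖∑ n ∈ Ioc a b, e1 (u * Real.log (Real.log n))‖ ≤ C * (N : ℝ) ^ (1 - c) := by
      have hsg : (-1 : ℝ) ^ k = 1 ∨ (-1 : ℝ) ^ k = -1 := neg_one_pow_eq_or ℝ k
      rcases le_total 0 u with hu | hu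
      · rcases hsg with hs | hs
        · apply hmain 1 (Or.inl rfl); rw [hs, abs_of_nonneg hu]; ring
        · apply hmain (-1) (Or.inr rfl); rw [hs, abs_of_nonneg hu]; ring
      · rcases hsg with hs | hs
        · apply hmain (-1) (Or.inr rfl); rw [hs, abs_of_nonpos hu]; ring
        · apply hmain 1 (Or.inl rfl); rw [hs, abs_of_nonpos hu]; ring
    calc _ ≤ C * (N : ℝ) ^ (1 - c) := hES
      _ ≤ C * (N : ℝ) ^ (1 - min c 1) := mul_le_mul_of_nonneg_left hmono hC.le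
      _ ≤ (C + N₀) * (N : ℝ) ^ (1 - min c 1) := by
          apply mul_le_mul_of_nonneg_right _ (by positivity)
          have : (0 : ℝ) ≤ N₀ := by positivity
          linarith
  · have h1 := p02_trivial N a b (fun n : ℕ => u * Real.log (Real.log n)) (by omega)
    have h2 : (N : ℝ) ≤ N₀ := by
      have : N ≤ N₀ := by omega
      exact_mod_cast this
    calc _ ≤ (N : ℝ) := h1
      _ ≤ N₀ * 1 := by linarith
      _ ≤ (C + N₀) * (N : ℝ) ^ (1 - min c 1) := by
          apply mul_le_mul (by linarith) hone zero_le_one (by positivity)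

end PS4
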