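import Pool.Agent.LibPS4.P02

open MeasureTheory Finset

namespace PS4

/-- P03: power saving for all `u` between `N^{1/2}` and `N^A`. Hint: `ll_one` for finitely many `k`;
copy the proof of `weyl` in team-store MR57_V05b.lean. -/
theorem ll_weyl (A : ℝ) (hA : 1 ≤ A) : ∃ c C : ℝ, 0 < c ∧ c ≤ 1 ∧ 0 < C ∧
    ∀ (N a b : ℕ) (u : ℝ), 3 ≤ N →
    N ≤ a → a ≤ b → b ≤ 2 * N → (N : ℝ) ^ (1 / 2 : ℝ) ≤ |u| → |u| ≤ (N : ℝ) ^ A →
    ‖∑ n ∈ Ioc a b, e1 (u * Real.log (Real.log n))‖ ≤ C * (N : ℝ) ^ (1 - c) := by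
  choose c C hc hc1 hC h using ll_one
  -- a finite family of values of k
  have hfam : ∀ K : ℕ, ∃ c' C' : ℝ, 0 < c' ∧ c' ≤ 1 ∧ 0 < C' ∧ ∀ k (hk : 1 ≤ k), k ≤ K →
      c' ≤ c k hk ∧ C k hk ≤ C' := by
    intro K
    induction K with
    | zero => exact ⟨1, 1, one_pos, le_refl _, one_pos, fun k hk hk2 => absurd hk2 (by omega)⟩
    | succ K ih =>
      obtain ⟨c', C', h1, h1', h2, h3⟩ := ih
      refine ⟨min c' (c (K + 1) (by omega)), max C' (C (K + 1) (by omega)),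
        lt_min h1 (hc _ _), le_trans (min_le_left _ _) h1', lt_max_of_lt_left h2, ?_⟩
      intro k hk hk2
      rcases Nat.lt_or_ge K k with h4 | h4
      · obtain rfl : k = K + 1 := by omega
        exact ⟨min_le_right _ _, le_max_right _ _⟩
      · exact ⟨le_trans (min_le_left _ _) (h3 k hk h4).1,
          le_trans (h3 k hk h4).2 (le_max_left _ _)⟩
  obtain ⟨c', C', h1, h1', h2, h3⟩ := hfam (⌊A + 1 / 2⌋₊)
  refine ⟨c', C', h1, h1', h2, ?_⟩
  intro N a b u hN hNa hab hb hu1 hu2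
  have hN3R : (3 : ℝ) ≤ N := by exact_mod_cast hN
  have hNR : (1 : ℝ) ≤ N := by linarith
  have hN0 : (0 : ℝ) < N := by linarith
  have hN1R : (1 : ℝ) < N := by linarith
  have hlogN : 0 < Real.log N := Real.log_pos hN1R
  have hupos : 0 < |u| := lt_of_lt_of_le (by positivity) hu1
  -- the exponent
  set α : ℝ := Real.log |u| / Real.log N with hα
  have huα : |u| = (N : ℝ) ^ α := by
    rw [Real.rpow_def_of_pos hN0, hα]
    rw [mul_div_cancel₀ _ hlogN.ne', Real.exp_log hupos]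
  have hα1 : 1 / 2 ≤ α := by
    rw [huα] at hu1
    exact (Real.rpow_le_rpow_left_iff hN1R).1 hu1
  have hα2 : α ≤ A := by
    rw [huα] at hu2
    exact (Real.rpow_le_rpow_left_iff hN1R).1 hu2
  set k : ℕ := ⌊α + 1 / 2⌋₊ with hk
  have hk1 : 1 ≤ k := by
    rw [hk]; apply Nat.le_floor; push_cast; linarith
  have hk2 : k ≤ ⌊A + 1 / 2⌋₊ := Nat.floor_mono (by linarith)
  have hk3 : (k : ℝ) ≤ α + 1 / 2 := Nat.floor_le (by linarith)
  have hk4 : α + 1 / 2 < k + 1 := Nat.lt_floor_add_one _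
  obtain ⟨h5, h6⟩ := h3 k hk1 hk2
  have h7 := h k hk1 N a b u hN hNa hab hb
    (by rw [huα]; exact Real.rpow_le_rpow_of_exponent_le hNR (by linarith))
    (by rw [huα]; exact Real.rpow_le_rpow_of_exponent_le hNR (by linarith))
  calc _ ≤ C k hk1 * (N : ℝ) ^ (1 - c k hk1) := h7
    _ ≤ C' * (N : ℝ) ^ (1 - c') := by
        apply mul_le_mul (by linarith) _ (by positivity) (by linarith)
        exact Real.rpow_le_rpow_of_exponent_le hNR (by linarith)

end PS4
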