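import Pool.Agent.LibPS4.Defs

open MeasureTheory Finset

namespace PS4

theorem p04a_deriv (u : ℝ) {x : ℝ} (hx : 1 < x) :
    HasDerivAt (fun y : ℝ => e1 (u * Real.log (Real.log y)))
      (((2 * Real.pi * u / (x * Real.log x) : ℝ) : ℂ) * Complex.I *
        e1 (u * Real.log (Real.log x))) x := by
  have hx0 : x ≠ 0 := by linarith
  have hl : 0 < Real.log x := Real.log_pos hx
  have h1 : HasDerivAt (fun y : ℝ => 2 * Real.pi * (u * Real.log (Real.log y)))
      (2 * Real.pi * (u * (x⁻¹ / Real.log x))) x :=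
    (((Real.hasDerivAt_log hx0).log hl.ne').const_mul u).const_mul (2 * Real.pi)
  have h2 := (h1.ofReal_comp.mul_const Complex.I).cexp
  have h3 : (((2 * Real.pi * u / (x * Real.log x) : ℝ) : ℂ) * Complex.I *
        e1 (u * Real.log (Real.log x))) =
      Complex.exp ((2 * Real.pi * (u * Real.log (Real.log x)) : ℝ) * Complex.I) *
        (((2 * Real.pi * (u * (x⁻¹ / Real.log x)) : ℝ) : ℂ) * Complex.I) := by
    rw [e1]
    have h4 : 2 * Real.pi * u / (x * Real.log x) = 2 * Real.pi * (u * (x⁻¹ / Real.log x)) := by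
      field_simp
    rw [h4]
    ring
  rw [h3]
  exact h2

/-- P04a: the integral, for large `u`. Hint: integrate by parts,
`e1 (u loglog x) = (x log x / (2πiu)) * d/dx e1 (u loglog x)`. -/
theorem ll_int : ∃ C : ℝ, 0 < C ∧ ∀ (N a b : ℕ) (u : ℝ), 3 ≤ N →
    N ≤ a → a ≤ b → b ≤ 2 * N → u ≠ 0 →
    ‖∫ x in (a : ℝ)..(b : ℝ), e1 (u * Real.log (Real.log x))‖ ≤ C * N * Real.log N / |u| := by
  refine ⟨11, by norm_num, fun N a b u hN hNa hab hb hu => ?_⟩
  have hN' : (3 : ℝ) ≤ N := by exact_mod_cast hN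
  have hNa' : (N : ℝ) ≤ a := by exact_mod_cast hNa
  have hab' : (a : ℝ) ≤ b := by exact_mod_cast hab
  have hb' : (b : ℝ) ≤ 2 * N := by exact_mod_cast hb
  set f : ℝ → ℂ := fun x => e1 (u * Real.log (Real.log x)) with hf
  have hfn : ∀ x, ‖f x‖ = 1 := fun x => v01_norm_e1 _
  have hlogN : 1 ≤ Real.log N := by
    rw [Real.le_log_iff_exp_le (by linarith)]
    linarith [Real.exp_one_lt_d9]
  have hlog2 : Real.log (2 * N) ≤ 2 * Real.log N := by
    rw [Real.log_mul (by norm_num) (by linarith)]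
    linarith [Real.log_two_lt_d9]
  have hmem : ∀ x ∈ Set.uIcc (a : ℝ) b, (N : ℝ) ≤ x ∧ x ≤ 2 * N := by
    intro x hx
    rw [Set.uIcc_of_le hab'] at hx
    exact ⟨hNa'.trans hx.1, hx.2.trans hb'⟩
  have hlogx : ∀ x : ℝ, (N : ℝ) ≤ x → x ≤ 2 * N → 0 < Real.log x ∧ Real.log x ≤ 2 * Real.log N := by
    intro x h1 h2
    refine ⟨Real.log_pos (by linarith), (Real.log_le_log (by linarith) h2).trans hlog2⟩
  -- the primitive
  have hG : ∀ x ∈ Set.uIcc (a : ℝ) b, HasDerivAt (fun y : ℝ => ((y * Real.log y : ℝ) : ℂ) * f y)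
      (((Real.log x + 1 : ℝ) : ℂ) * f x + ((2 * Real.pi * u : ℝ) : ℂ) * Complex.I * f x) x := by
    intro x hx
    obtain ⟨h1, h2⟩ := hmem x hx
    obtain ⟨h3, h4⟩ := hlogx x h1 h2
    have hx0 : x ≠ 0 := by linarith
    have d1 : HasDerivAt (fun y : ℝ => y * Real.log y) (Real.log x + 1) x := by
      have := (hasDerivAt_id x).mul (Real.hasDerivAt_log hx0)
      simp only [id, one_mul] at this
      rwa [mul_inv_cancel₀ hx0] at this
    have d2 := d1.ofReal_comp.mul (p04a_deriv u (show 1 < x by linarith))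
    have h5 : ((x * Real.log x : ℝ) : ℂ) * (((2 * Real.pi * u / (x * Real.log x) : ℝ) : ℂ) *
        Complex.I * e1 (u * Real.log (Real.log x))) =
        ((2 * Real.pi * u : ℝ) : ℂ) * Complex.I * f x := by
      rw [← mul_assoc, ← mul_assoc, ← Complex.ofReal_mul]
      have h6 : x * Real.log x * (2 * Real.pi * u / (x * Real.log x)) = 2 * Real.pi * u := by
        field_simp
      rw [h6]
    rw [h5] at d2
    exact d2
  have hcf : ContinuousOn f (Set.uIcc (a : ℝ) b) := fun x hx =>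
    ((p04a_deriv u (show 1 < x by linarith [(hmem x hx).1])).continuousAt).continuousWithinAt
  have hcl : ContinuousOn (fun x : ℝ => ((Real.log x + 1 : ℝ) : ℂ)) (Set.uIcc (a : ℝ) b) := by
    refine Complex.continuous_ofReal.comp_continuousOn ?_
    refine ContinuousOn.add ?_ continuousOn_const
    exact Real.continuousOn_log.mono fun x hx => by
      have := (hmem x hx).1
      simp only [Set.mem_compl_iff, Set.mem_singleton_iff]
      linarith
  have hi1 : IntervalIntegrable (fun x : ℝ => ((Real.log x + 1 : ℝ) : ℂ) * f x) volume a b :=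
    (hcl.mul hcf).intervalIntegrable
  have hi2 : IntervalIntegrable (fun x : ℝ => ((2 * Real.pi * u : ℝ) : ℂ) * Complex.I * f x)
      volume a b := (continuousOn_const.mul hcf).intervalIntegrable
  have hFTC := intervalIntegral.integral_eq_sub_of_hasDerivAt hG (hi1.add hi2)
  rw [intervalIntegral.integral_add hi1 hi2, intervalIntegral.integral_const_mul] at hFTC
  have hkey : ((2 * Real.pi * u : ℝ) : ℂ) * Complex.I * ∫ x in (a : ℝ)..b, f x =
      ((b * Real.log b : ℝ) : ℂ) * f b - ((a * Real.log a : ℝ) : ℂ) * f a -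
        ∫ x in (a : ℝ)..b, ((Real.log x + 1 : ℝ) : ℂ) * f x := by
    rw [← hFTC]; ring
  have hb1 : ‖∫ x in (a : ℝ)..b, ((Real.log x + 1 : ℝ) : ℂ) * f x‖ ≤
      (3 * Real.log N) * |(b : ℝ) - a| := by
    refine intervalIntegral.norm_integral_le_of_norm_le_const fun x hx => ?_
    have hx' : x ∈ Set.uIcc (a : ℝ) b := Set.uIoc_subset_uIcc hx
    obtain ⟨h1, h2⟩ := hmem x hx'
    obtain ⟨h3, h4⟩ := hlogx x h1 h2
    rw [norm_mul, hfn, mul_one, Complex.norm_real, Real.norm_eq_abs,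
      abs_of_pos (by linarith : (0 : ℝ) < Real.log x + 1)]
    linarith
  have hab1 : |(b : ℝ) - a| ≤ N := by
    rw [abs_of_nonneg (by linarith)]; linarith
  have hb2 : ∀ t : ℝ, (N : ℝ) ≤ t → t ≤ 2 * N → ‖((t * Real.log t : ℝ) : ℂ) * f t‖ ≤
      4 * (N * Real.log N) := by
    intro t h1 h2
    obtain ⟨h3, h4⟩ := hlogx t h1 h2
    rw [norm_mul, hfn, mul_one, Complex.norm_real, Real.norm_eq_abs,
      abs_of_pos (mul_pos (by linarith) h3)]
    calc t * Real.log t ≤ (2 * N) * (2 * Real.log N) :=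
          mul_le_mul h2 h4 h3.le (by linarith)
      _ = 4 * (N * Real.log N) := by ring
  have hnorm : ‖((2 * Real.pi * u : ℝ) : ℂ) * Complex.I * ∫ x in (a : ℝ)..b, f x‖ =
      2 * Real.pi * |u| * ‖∫ x in (a : ℝ)..b, f x‖ := by
    rw [norm_mul, norm_mul, Complex.norm_I, mul_one, Complex.norm_real, Real.norm_eq_abs,
      abs_mul, abs_of_pos Real.two_pi_pos]
  have hupos : 0 < |u| := abs_pos.2 hu
  have hNl : 0 ≤ (N : ℝ) * Real.log N := by positivity
  have htot : 2 * Real.pi * |u| * ‖∫ x in (a : ℝ)..b, f x‖ ≤ 11 * (N * Real.log N) := by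
    rw [← hnorm, hkey]
    refine (norm_sub_le _ _).trans ?_
    refine (add_le_add (norm_sub_le _ _) le_rfl).trans ?_
    have e1 := hb2 b (hNa'.trans hab') hb'
    have e2 := hb2 a hNa' (hab'.trans hb')
    have e3 : (3 * Real.log N) * |(b : ℝ) - a| ≤ 3 * (N * Real.log N) := by
      calc (3 * Real.log N) * |(b : ℝ) - a| ≤ (3 * Real.log N) * N :=
            mul_le_mul_of_nonneg_left hab1 (by linarith)
        _ = 3 * (N * Real.log N) := by ring
    linarith
  rw [le_div_iff₀ hupos]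
  have hpi : 1 ≤ 2 * Real.pi := by linarith [Real.pi_gt_three]
  have hnn : 0 ≤ |u| * ‖∫ x in (a : ℝ)..b, f x‖ := by positivity
  calc ‖∫ x in (a : ℝ)..b, f x‖ * |u| = 1 * (|u| * ‖∫ x in (a : ℝ)..b, f x‖) := by ring
    _ ≤ (2 * Real.pi) * (|u| * ‖∫ x in (a : ℝ)..b, f x‖) := mul_le_mul_of_nonneg_right hpi hnn
    _ = 2 * Real.pi * |u| * ‖∫ x in (a : ℝ)..b, f x‖ := by ring
    _ ≤ 11 * (N * Real.log N) := htot
    _ = 11 * N * Real.log N := by ring

end PS4
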