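import Pool.Agent.LibPS4.Defs

open MeasureTheory Finset

namespace PS4

theorem p04b_deriv (u : ℝ) {x : ℝ} (hx : 1 < x) :
    HasDerivAt (fun y : ℝ => e1 (u * Real.log (Real.log y)))
      (((2 * Real.pi * u / (x * Real.log x) : ℝ) : ℂ) * Complex.I *
        e1 (u * Real.log (Real.log x))) x := by
  have hx0 : x ≠ 0 := by linarith
  have hl : 0 < Real.log x := Real.log_pos hx
  have h1 : HasDerivAt (fun y : ℝ => 2 * Real.pi * (u * Real.log (Real.log y)))
      (2 * Real.pi * (u * (x⁻¹ / Real.log x))) x :=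
    (((Real.hasDerivAt_log hx0).log hl.ne').const_mul u).const_mul (2 * Real.pi)
  have h2 := (h1.ofReal_comp.mul_const Complex.I).cexp
  have h3 : (((2 * Real.pi * u / (x * Real.log x) : ℝ) : ℂ) * Complex.I *
        e1 (u * Real.log (Real.log x))) =
      Complex.exp ((2 * Real.pi * (u * Real.log (Real.log x)) : ℝ) * Complex.I) *
        (((2 * Real.pi * (u * (x⁻¹ / Real.log x)) : ℝ) : ℂ) * Complex.I) := by
    rw [e1]
    have h4 : 2 * Real.pi * u / (x * Real.log x) = 2 * Real.pi * (u * (x⁻¹ / Real.log x)) := by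
      field_simp
    rw [h4]
    ring
  rw [h3]
  exact h2

/-- P04b: the sum against the integral, trivially. Hint: for `x ∈ [n-1, n]`, `n - 1 ≥ N ≥ 3`,
`‖e1 (u loglog x) - e1 (u loglog n)‖ ≤ 2π|u| / ((n-1) log (n-1)) ≤ 2π|u| / N`; at most `N` values
of `n`. -/
theorem ll_triv : ∃ C : ℝ, 0 < C ∧ ∀ (N a b : ℕ) (u : ℝ), 3 ≤ N →
    N ≤ a → a ≤ b → b ≤ 2 * N →
    ‖∑ n ∈ Ioc a b, e1 (u * Real.log (Real.log n)) -
      ∫ x in (a : ℝ)..(b : ℝ), e1 (u * Real.log (Real.log x))‖ ≤ C * |u| := by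
  refine ⟨7, by norm_num, fun N a b u hN hNa hab hb => ?_⟩
  have hN' : (3 : ℝ) ≤ N := by exact_mod_cast hN
  have hNa' : (N : ℝ) ≤ a := by exact_mod_cast hNa
  set f : ℝ → ℂ := fun x => e1 (u * Real.log (Real.log x)) with hf
  have hlogN : 1 ≤ Real.log N := by
    rw [Real.le_log_iff_exp_le (by linarith)]
    linarith [Real.exp_one_lt_d9]
  set M : ℝ := 7 * |u| / N with hM
  have hM0 : 0 ≤ M := by positivity
  have hcont : ∀ x : ℝ, (N : ℝ) ≤ x → ContinuousAt f x := fun x hx =>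
    (p04b_deriv u (show 1 < x by linarith)).continuousAt
  have hlip : ∀ x y : ℝ, (N : ℝ) ≤ x → (N : ℝ) ≤ y → ‖f y - f x‖ ≤ M * ‖y - x‖ := by
    intro x y hx hy
    refine Convex.norm_image_sub_le_of_norm_hasDerivWithin_le (s := Set.Ici (N : ℝ))
      (f' := fun x => ((2 * Real.pi * u / (x * Real.log x) : ℝ) : ℂ) * Complex.I *
        e1 (u * Real.log (Real.log x))) ?_ ?_ (convex_Ici _) hx hy
    · intro t ht
      have ht' : (N : ℝ) ≤ t := ht
      exact (p04b_deriv u (show 1 < t by linarith)).hasDerivWithinAt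
    · intro t ht
      have ht' : (N : ℝ) ≤ t := ht
      have h1 : 1 ≤ Real.log t := hlogN.trans (Real.log_le_log (by linarith) ht')
      have h2 : (N : ℝ) ≤ t * Real.log t := by nlinarith
      show ‖((2 * Real.pi * u / (t * Real.log t) : ℝ) : ℂ) * Complex.I *
        e1 (u * Real.log (Real.log t))‖ ≤ M
      rw [norm_mul, norm_mul, Complex.norm_I, mul_one, v01_norm_e1, mul_one, Complex.norm_real,
        Real.norm_eq_abs, abs_div, abs_of_pos (by linarith : 0 < t * Real.log t), abs_mul,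
        abs_of_pos Real.two_pi_pos, hM]
      refine div_le_div₀ (by positivity) ?_ (by linarith) h2
      exact mul_le_mul_of_nonneg_right (by linarith [Real.pi_lt_d2]) (abs_nonneg u)
  have hint : ∀ k ∈ Set.Ico a b, IntervalIntegrable f volume ((k : ℕ) : ℝ) ((k + 1 : ℕ) : ℝ) := by
    intro k hk
    refine ContinuousOn.intervalIntegrable fun x hx => (hcont x ?_).continuousWithinAt
    have h1 : ((k : ℕ) : ℝ) ≤ ((k + 1 : ℕ) : ℝ) := by push_cast; linarith
    rw [Set.uIcc_of_le h1] at hx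
    have h2 : (a : ℝ) ≤ k := by exact_mod_cast hk.1
    linarith [hx.1]
  have hI := intervalIntegral.sum_integral_adjacent_intervals_Ico (μ := volume) (f := f)
    (a := fun k : ℕ => (k : ℝ)) hab hint
  have hS : ∑ n ∈ Ioc a b, f n = ∑ k ∈ Ico a b, f ((k + 1 : ℕ) : ℝ) := by
    rw [Finset.sum_Ico_add' (fun n : ℕ => f (n : ℝ)) a b 1]
    have h1 : Ioc a b = Ico (a + 1) (b + 1) := by
      ext n
      rw [Finset.mem_Ioc, Finset.mem_Ico]
      omega
    rw [h1]
  show ‖∑ n ∈ Ioc a b, f n - ∫ x in (a : ℝ)..(b : ℝ), f x‖ ≤ 7 * |u|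
  rw [hS, ← hI, ← Finset.sum_sub_distrib]
  have hterm : ∀ k ∈ Ico a b, ‖f ((k + 1 : ℕ) : ℝ) -
      ∫ x in ((k : ℕ) : ℝ)..((k + 1 : ℕ) : ℝ), f x‖ ≤ M := by
    intro k hk
    rw [Finset.mem_Ico] at hk
    have hka : (a : ℝ) ≤ k := by exact_mod_cast hk.1
    have hc : f ((k + 1 : ℕ) : ℝ) = ∫ x in ((k : ℕ) : ℝ)..((k + 1 : ℕ) : ℝ),
        f ((k + 1 : ℕ) : ℝ) := by
      rw [intervalIntegral.integral_const]
      push_cast
      simp
    rw [hc, ← intervalIntegral.integral_sub intervalIntegrable_const (hint k hk)]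
    have hb1 : ‖∫ x in ((k : ℕ) : ℝ)..((k + 1 : ℕ) : ℝ), (f ((k + 1 : ℕ) : ℝ) - f x)‖ ≤
        M * |((k + 1 : ℕ) : ℝ) - (k : ℕ)| := by
      refine intervalIntegral.norm_integral_le_of_norm_le_const fun x hx => ?_
      have h1 : ((k : ℕ) : ℝ) ≤ ((k + 1 : ℕ) : ℝ) := by push_cast; linarith
      rw [Set.uIoc_of_le h1] at hx
      obtain ⟨hx1, hx2⟩ := hx
      refine (hlip x _ (by linarith) (by linarith)).trans ?_
      have h2 : ‖((k + 1 : ℕ) : ℝ) - x‖ ≤ 1 := by
        rw [Real.norm_eq_abs, abs_of_nonneg (by linarith)]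
        push_cast
        linarith
      calc M * ‖((k + 1 : ℕ) : ℝ) - x‖ ≤ M * 1 := mul_le_mul_of_nonneg_left h2 hM0
        _ = M := mul_one M
    refine hb1.trans ?_
    push_cast
    simp
  refine (norm_sum_le_of_le _ hterm).trans ?_
  rw [Finset.sum_const, Nat.card_Ico, nsmul_eq_mul, hM]
  have h1 : ((b - a : ℕ) : ℝ) ≤ N := by
    have : b - a ≤ N := by omega
    exact_mod_cast this
  calc ((b - a : ℕ) : ℝ) * (7 * |u| / N) ≤ N * (7 * |u| / N) :=
        mul_le_mul_of_nonneg_right h1 hM0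
    _ = 7 * |u| := by field_simp

end PS4
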