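import Pool.Agent.LibPS4.P03
import Pool.Agent.LibPS4.P04a
import Pool.Agent.LibPS4.P04b

open MeasureTheory Finset

namespace PS4

/-- P05a: one dyadic block. Hint: `|u| ≤ N^{1/2}`: `ll_triv`; otherwise `ll_weyl A` and `ll_int`
(`log N ≤ 4 N^{1/4}`). -/
theorem ll_dyad (A : ℝ) (hA : 1 ≤ A) : ∃ c C : ℝ, 0 < c ∧ c ≤ 1 / 4 ∧ 0 < C ∧
    ∀ (N a b : ℕ) (u : ℝ), 3 ≤ N →
    N ≤ a → a ≤ b → b ≤ 2 * N → |u| ≤ (N : ℝ) ^ A →
    ‖∑ n ∈ Ioc a b, e1 (u * Real.log (Real.log n)) -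
      ∫ x in (a : ℝ)..(b : ℝ), e1 (u * Real.log (Real.log x))‖ ≤ C * (N : ℝ) ^ (1 - c) := by
  obtain ⟨c1, C1, hc1, hc1', hC1, h1⟩ := ll_weyl A hA
  obtain ⟨C2, hC2, h2⟩ := ll_int
  obtain ⟨C3, hC3, h3⟩ := ll_triv
  refine ⟨min c1 (1 / 4), C1 + 4 * C2 + C3, lt_min hc1 (by norm_num), min_le_right _ _,
    by positivity, ?_⟩
  intro N a b u hN hNa hab hb hu
  have hN3R : (3 : ℝ) ≤ N := by exact_mod_cast hN
  have hNR : (1 : ℝ) ≤ N := by linarith
  have hN0 : (0 : ℝ) < N := by linarith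
  set c : ℝ := min c1 (1 / 4) with hc
  have hcl : c ≤ c1 := min_le_left _ _
  have hcr : c ≤ 1 / 4 := min_le_right _ _
  have hP : 0 < (N : ℝ) ^ (1 - c) := by positivity
  rcases le_or_gt |u| ((N : ℝ) ^ (1 / 2 : ℝ)) with hs | hs
  · calc _ ≤ C3 * |u| := h3 N a b u hN hNa hab hb
      _ ≤ C3 * (N : ℝ) ^ (1 - c) := by
          apply mul_le_mul_of_nonneg_left _ hC3.le
          exact hs.trans (Real.rpow_le_rpow_of_exponent_le hNR (by linarith))
      _ ≤ (C1 + 4 * C2 + C3) * (N : ℝ) ^ (1 - c) := by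
          apply mul_le_mul_of_nonneg_right _ hP.le
          linarith
  · have hu0 : 0 < |u| := lt_trans (by positivity) hs
    have hune : u ≠ 0 := abs_pos.1 hu0
    have e1 := h1 N a b u hN hNa hab hb hs.le hu
    have e2 := h2 N a b u hN hNa hab hb hune
    have e3 : C1 * (N : ℝ) ^ (1 - c1) ≤ C1 * (N : ℝ) ^ (1 - c) := by
      apply mul_le_mul_of_nonneg_left _ hC1.le
      exact Real.rpow_le_rpow_of_exponent_le hNR (by linarith)
    have hlog : Real.log N ≤ 4 * (N : ℝ) ^ (1 / 4 : ℝ) := by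
      have := Real.log_le_rpow_div hN0.le (show (0 : ℝ) < 1 / 4 by norm_num)
      linarith
    have e4 : C2 * N * Real.log N / |u| ≤ 4 * C2 * (N : ℝ) ^ (1 - c) := by
      have s1 : C2 * N * Real.log N / |u| ≤
          C2 * N * (4 * (N : ℝ) ^ (1 / 4 : ℝ)) / (N : ℝ) ^ (1 / 2 : ℝ) := by
        apply div_le_div₀ (by positivity) _ (by positivity) hs.le
        exact mul_le_mul_of_nonneg_left hlog (by positivity)
      have s2 : C2 * N * (4 * (N : ℝ) ^ (1 / 4 : ℝ)) / (N : ℝ) ^ (1 / 2 : ℝ) =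
          4 * C2 * (N : ℝ) ^ (3 / 4 : ℝ) := by
        have t1 : (N : ℝ) ^ (3 / 4 : ℝ) * (N : ℝ) ^ (1 / 2 : ℝ) =
            N * (N : ℝ) ^ (1 / 4 : ℝ) := by
          rw [← Real.rpow_add hN0]
          nth_rewrite 2 [← Real.rpow_one (N : ℝ)]
          rw [← Real.rpow_add hN0]
          norm_num
        rw [div_eq_iff (by positivity)]
        linear_combination (-4 * C2) * t1
      have s3 : 4 * C2 * (N : ℝ) ^ (3 / 4 : ℝ) ≤ 4 * C2 * (N : ℝ) ^ (1 - c) := by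
        apply mul_le_mul_of_nonneg_left _ (by positivity)
        exact Real.rpow_le_rpow_of_exponent_le hNR (by linarith)
      linarith
    calc _ ≤ ‖∑ n ∈ Ioc a b, PS4.e1 (u * Real.log (Real.log n))‖ +
          ‖∫ x in (a : ℝ)..(b : ℝ), PS4.e1 (u * Real.log (Real.log x))‖ := norm_sub_le _ _
      _ ≤ C1 * (N : ℝ) ^ (1 - c1) + C2 * N * Real.log N / |u| := add_le_add e1 e2
      _ ≤ C1 * (N : ℝ) ^ (1 - c) + 4 * C2 * (N : ℝ) ^ (1 - c) := add_le_add e3 e4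
      _ ≤ (C1 + 4 * C2 + C3) * (N : ℝ) ^ (1 - c) := by
          have : 0 ≤ C3 * (N : ℝ) ^ (1 - c) := by positivity
          linarith

end PS4
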