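import Pool.Agent.LibPS4.P05a

open MeasureTheory Finset

namespace PS4

private theorem p05b_int (u : ℝ) (a b : ℕ) (ha : 3 ≤ a) (hb : 3 ≤ b) :
    IntervalIntegrable (fun x : ℝ => e1 (u * Real.log (Real.log x))) volume (a : ℝ) (b : ℝ) := by
  apply ContinuousOn.intervalIntegrable
  have haR : (3 : ℝ) ≤ a := by exact_mod_cast ha
  have hbR : (3 : ℝ) ≤ b := by exact_mod_cast hb
  have hx3 : ∀ x ∈ Set.uIcc (a : ℝ) (b : ℝ), 3 ≤ x := by
    intro x hx
    rcases Set.mem_uIcc.1 hx with h | h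
    · linarith [h.1]
    · linarith [h.1]
  have h1 : ContinuousOn (fun x : ℝ => Real.log x) (Set.uIcc (a : ℝ) (b : ℝ)) :=
    Real.continuousOn_log.mono (fun x hx => by
      have := hx3 x hx
      simp only [Set.mem_compl_iff, Set.mem_singleton_iff]
      linarith)
  have h2 : ContinuousOn (fun x : ℝ => Real.log (Real.log x)) (Set.uIcc (a : ℝ) (b : ℝ)) :=
    h1.log (fun x hx => by
      have := hx3 x hx
      have h3 : 0 < Real.log x := Real.log_pos (by linarith)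
      exact h3.ne')
  unfold e1
  fun_prop

private theorem p05b_split (u : ℝ) (R N M : ℕ) (hR : 3 ≤ R) (hRN : R ≤ N) (hNM : N ≤ M) :
    (∑ n ∈ Ioc R M, e1 (u * Real.log (Real.log n)) -
      ∫ x in (R : ℝ)..(M : ℝ), e1 (u * Real.log (Real.log x))) =
    (∑ n ∈ Ioc R N, e1 (u * Real.log (Real.log n)) -
      ∫ x in (R : ℝ)..(N : ℝ), e1 (u * Real.log (Real.log x))) +
    (∑ n ∈ Ioc N M, e1 (u * Real.log (Real.log n)) -
      ∫ x in (N : ℝ)..(M : ℝ), e1 (u * Real.log (Real.log x))) := by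
  rw [← intervalIntegral.integral_add_adjacent_intervals
    (p05b_int u R N hR (by omega)) (p05b_int u N M (by omega) (by omega))]
  rw [← Finset.sum_Ioc_consecutive _ hRN hNM]
  ring

/-- P05b: the whole range `(√K, K]`. Hint: `ll_dyad (4 * A)` (for `N ≥ √K ≥ 3` one has
`K < (N+1)^2 ≤ N^4`, so `|u| ≤ K^A ≤ N^{4A}`); strong induction on `M` for
`‖∑_{√K < n ≤ M} - ∫_{√K}^M‖ ≤ C' M^{1-c}`, `√K ≤ M ≤ K`, splitting at `max (√K) (M/2)` rounded
(`C' = C / (1 - 2^{-(1-c)})` or larger). The integrand is continuous on `x ≥ 3`. -/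
theorem nuh_le (A : ℝ) (hA : 1 ≤ A) : ∃ c C : ℝ, 0 < c ∧ c ≤ 1 / 4 ∧ 0 < C ∧
    ∀ (K : ℕ) (u : ℝ), 9 ≤ K → |u| ≤ (K : ℝ) ^ A → ‖nuh K u‖ ≤ C * (K : ℝ) ^ (1 - c) := by
  obtain ⟨c, C, hc, hc4, hC, h⟩ := ll_dyad (4 * A) (by linarith)
  refine ⟨c, 5 * C, hc, hc4, by positivity, ?_⟩
  intro K u hK hu
  set R : ℕ := Nat.sqrt K with hR
  have hR3 : 3 ≤ R := by
    rw [hR]
    exact Nat.le_sqrt.2 (by omega)
  have hKR : K < (R + 1) * (R + 1) := Nat.lt_succ_sqrt K
  have hRK : R ≤ K := Nat.sqrt_le_self K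
  have hu' : ∀ N : ℕ, R ≤ N → |u| ≤ (N : ℝ) ^ (4 * A) := by
    intro N hN
    have h1 : K ≤ N ^ 4 := by
      have h2 : R + 1 ≤ R * R := by nlinarith
      have h3 : R * R ≤ N * N := Nat.mul_le_mul hN hN
      calc K ≤ (R + 1) * (R + 1) := hKR.le
        _ ≤ (N * N) * (N * N) := Nat.mul_le_mul (h2.trans h3) (h2.trans h3)
        _ = N ^ 4 := by ring
    have h1R : (K : ℝ) ≤ (N : ℝ) ^ (4 : ℕ) := by exact_mod_cast h1
    calc |u| ≤ (K : ℝ) ^ A := hu
      _ ≤ ((N : ℝ) ^ (4 : ℕ)) ^ A := Real.rpow_le_rpow (by positivity) h1R (by linarith)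
      _ = (N : ℝ) ^ (4 * A) := by
          rw [← Real.rpow_natCast, ← Real.rpow_mul (by positivity)]
          norm_num
  have hmain : ∀ M : ℕ, R ≤ M →
      ‖∑ n ∈ Ioc R M, e1 (u * Real.log (Real.log n)) -
        ∫ x in (R : ℝ)..(M : ℝ), e1 (u * Real.log (Real.log x))‖ ≤ 5 * C * (M : ℝ) ^ (1 - c) := by
    intro M
    induction M using Nat.strong_induction_on with
    | _ M ih =>
      intro hRM
      have hM0 : (0 : ℝ) < M := by
        have : 0 < M := by omega
        exact_mod_cast this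
      by_cases h2 : M ≤ 2 * R
      · have h3 := h R R M u hR3 le_rfl hRM h2 (hu' R le_rfl)
        have h4 : (R : ℝ) ^ (1 - c) ≤ (M : ℝ) ^ (1 - c) :=
          Real.rpow_le_rpow (by positivity) (by exact_mod_cast hRM) (by linarith)
        have h5 : 0 ≤ (M : ℝ) ^ (1 - c) := by positivity
        have h6 : C * (R : ℝ) ^ (1 - c) ≤ C * (M : ℝ) ^ (1 - c) :=
          mul_le_mul_of_nonneg_left h4 hC.le
        have h7 : 0 ≤ C * (M : ℝ) ^ (1 - c) := by positivity
        linarith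
      · push Not at h2
        set N : ℕ := (M + 1) / 2 with hN
        have hN1 : M ≤ 2 * N := by omega
        have hN2 : N < M := by omega
        have hN3 : R ≤ N := by omega
        have hN4 : 3 * N ≤ 2 * M := by omega
        have h3 := ih N hN2 hN3
        have h4 := h N N M u (by omega) le_rfl hN2.le hN1 (hu' N hN3)
        rw [p05b_split u R N M hR3 hN3 hN2.le]
        have h5 : (N : ℝ) ^ (1 - c) ≤ 5 / 6 * (M : ℝ) ^ (1 - c) := by
          have h6 : (N : ℝ) ≤ 2 / 3 * M := by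
            have : (3 * N : ℝ) ≤ 2 * M := by exact_mod_cast hN4
            linarith
          have h7 : (2 / 3 : ℝ) ^ (1 - c) ≤ 5 / 6 := by
            calc (2 / 3 : ℝ) ^ (1 - c) ≤ (2 / 3 : ℝ) ^ (1 / 2 : ℝ) :=
                  Real.rpow_le_rpow_of_exponent_ge (by norm_num) (by norm_num) (by linarith)
              _ = Real.sqrt (2 / 3) := by rw [Real.sqrt_eq_rpow]
              _ ≤ 5 / 6 := by
                  rw [Real.sqrt_le_left (by norm_num)]
                  norm_num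
          calc (N : ℝ) ^ (1 - c) ≤ (2 / 3 * M : ℝ) ^ (1 - c) :=
                Real.rpow_le_rpow (by positivity) h6 (by linarith)
            _ = (2 / 3 : ℝ) ^ (1 - c) * (M : ℝ) ^ (1 - c) :=
                Real.mul_rpow (by norm_num) hM0.le
            _ ≤ 5 / 6 * (M : ℝ) ^ (1 - c) := by gcongr
        calc _ ≤ 5 * C * (N : ℝ) ^ (1 - c) + C * (N : ℝ) ^ (1 - c) :=
              (norm_add_le _ _).trans (add_le_add h3 h4)
          _ = 6 * C * (N : ℝ) ^ (1 - c) := by ring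
          _ ≤ 6 * C * (5 / 6 * (M : ℝ) ^ (1 - c)) := by gcongr
          _ = 5 * C * (M : ℝ) ^ (1 - c) := by ring
  exact hmain K hRK

end PS4
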