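import Pool.Agent.LibPS4.Defs

open MeasureTheory Finset

namespace PS4

theorem measurable_Ph (f : ℕ → ℝ) (B K : ℕ) : Measurable (Ph f B K) := by
  unfold Ph
  refine Measurable.indicator ?_ measurableSet_Icc
  have h1 : Measurable fun s : ℝ => Real.exp (Real.exp s) := by fun_prop
  have h2 : Measurable fun s : ℝ => ⌊Real.exp (Real.exp s)⌋₊ := Nat.measurable_floor.comp h1
  exact (measurable_of_countable f).comp h2

theorem abs_Ph_le (f : ℕ → ℝ) (hf : ∀ n, |f n| ≤ 1) (B K : ℕ) (s : ℝ) : |Ph f B K s| ≤ 1 := by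
  unfold Ph
  rw [Set.indicator_apply]
  split_ifs
  · exact hf _
  · simp

theorem integrable_Ph (f : ℕ → ℝ) (hf : ∀ n, |f n| ≤ 1) (B K : ℕ) : Integrable (Ph f B K) := by
  have h1 : Integrable ((Set.Icc (s0 K) (s1 B K)).indicator (fun _ => (1 : ℝ))) := by
    rw [integrable_indicator_iff measurableSet_Icc]
    exact integrableOn_const (by simp) (by simp)
  refine h1.mono' (measurable_Ph f B K).aestronglyMeasurable (Filter.Eventually.of_forall fun s => ?_)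
  rw [Real.norm_eq_abs]
  unfold Ph
  rw [Set.indicator_apply, Set.indicator_apply]
  split_ifs
  · exact hf _
  · simp

private theorem p06_sqrt (K : ℕ) (hK : 9 ≤ K) : 3 ≤ Nat.sqrt K ∧ Nat.sqrt K ≤ K ∧ K ≤ Nat.sqrt K ^ 4 := by
  have h1 : 3 ≤ Nat.sqrt K := by
    rw [Nat.le_sqrt]
    omega
  refine ⟨h1, Nat.sqrt_le_self K, ?_⟩
  have h2 := Nat.lt_succ_sqrt K
  rw [Nat.succ_eq_add_one] at h2
  have h3 : Nat.sqrt K + 1 ≤ Nat.sqrt K ^ 2 := by nlinarith
  calc K ≤ (Nat.sqrt K + 1) * (Nat.sqrt K + 1) := h2.le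
    _ ≤ Nat.sqrt K ^ 2 * Nat.sqrt K ^ 2 := Nat.mul_le_mul h3 h3
    _ = Nat.sqrt K ^ 4 := by ring

/-- Hint: `K < (√K + 1)^2 ≤ (√K)^4`, so `log K ≤ 4 log √K` and `log 4 ≤ 2`. -/
theorem s1_sub_s0_le (B K : ℕ) (hB : 1 ≤ B) (hK : 9 ≤ K) :
    0 ≤ s1 B K - s0 K ∧ s1 B K - s0 K ≤ Real.log B + 2 := by
  obtain ⟨h1, h2, h3⟩ := p06_sqrt K hK
  have h1' : (3 : ℝ) ≤ (Nat.sqrt K : ℝ) := by exact_mod_cast h1
  have h2' : (Nat.sqrt K : ℝ) ≤ (K : ℝ) := by exact_mod_cast h2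
  have h3' : (K : ℝ) ≤ (Nat.sqrt K : ℝ) ^ 4 := by exact_mod_cast h3
  have hm : 0 < Real.log (Nat.sqrt K : ℝ) := Real.log_pos (by linarith)
  have hk : 0 < Real.log (K : ℝ) := Real.log_pos (by linarith)
  have h4 : Real.log (Nat.sqrt K : ℝ) ≤ Real.log (K : ℝ) := Real.log_le_log (by linarith) h2'
  have h5 : Real.log (K : ℝ) ≤ 4 * Real.log (Nat.sqrt K : ℝ) := by
    have := Real.log_le_log (by linarith) h3'
    rw [Real.log_pow] at this
    exact_mod_cast this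
  have h6 : Real.log (Real.log (Nat.sqrt K : ℝ)) ≤ Real.log (Real.log (K : ℝ)) := Real.log_le_log hm h4
  have h7 : Real.log (Real.log (K : ℝ)) ≤ Real.log 4 + Real.log (Real.log (Nat.sqrt K : ℝ)) := by
    rw [← Real.log_mul (by norm_num) hm.ne']
    exact Real.log_le_log hk h5
  have h8 : Real.log 4 ≤ 2 := by
    have : Real.log 4 = 2 * Real.log 2 := by
      rw [show (4 : ℝ) = 2 ^ 2 by norm_num, Real.log_pow]
      norm_num
    have h9 := Real.log_two_lt_d9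
    linarith
  have hBB : 0 ≤ Real.log (B : ℝ) := Real.log_nonneg (by exact_mod_cast hB)
  unfold s1 s0
  constructor <;> linarith

theorem lintegral_Ph (f : ℕ → ℝ) (hf : ∀ n, |f n| ≤ 1) (B K : ℕ) (hB : 1 ≤ B) (hK : 9 ≤ K) :
    ∫⁻ s, ‖((Ph f B K s : ℝ) : ℂ)‖ₑ ^ 2 ≤ ENNReal.ofReal (Real.log B + 2) := by
  have h1 : ∀ s, ‖((Ph f B K s : ℝ) : ℂ)‖ₑ ^ 2 ≤
      (Set.Icc (s0 K) (s1 B K)).indicator (fun _ => (1 : ENNReal)) s := by
    intro s
    rw [Set.indicator_apply]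
    split_ifs with hs
    · have h2 : ‖((Ph f B K s : ℝ) : ℂ)‖ₑ ≤ 1 := by
        rw [← ofReal_norm, Complex.norm_real, Real.norm_eq_abs, ENNReal.ofReal_le_one]
        exact abs_Ph_le f hf B K s
      exact pow_le_one₀ (by simp) h2
    · have : Ph f B K s = 0 := by
        unfold Ph
        rw [Set.indicator_of_notMem hs]
      rw [this]
      simp
  refine (lintegral_mono h1).trans ?_
  rw [lintegral_indicator measurableSet_Icc, lintegral_const, one_mul, Measure.restrict_apply_univ,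
    Real.volume_Icc]
  exact ENNReal.ofReal_le_ofReal (s1_sub_s0_le B K hB hK).2

/-- the trivial bound -/
theorem norm_nuh_le (K : ℕ) (u : ℝ) : ‖nuh K u‖ ≤ 2 * K := by
  have hs : Nat.sqrt K ≤ K := Nat.sqrt_le_self K
  have hs' : (Nat.sqrt K : ℝ) ≤ (K : ℝ) := by exact_mod_cast hs
  unfold nuh
  refine (norm_sub_le _ _).trans ?_
  have h1 : ‖∑ k ∈ Ioc (Nat.sqrt K) K, e1 (u * Real.log (Real.log k))‖ ≤ K := by
    refine (norm_sum_le _ _).trans ?_
    simp only [v01_norm_e1, Finset.sum_const, Nat.card_Ioc, nsmul_eq_mul, mul_one]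
    rw [Nat.cast_sub hs]
    have : (0 : ℝ) ≤ (Nat.sqrt K : ℝ) := Nat.cast_nonneg _
    linarith
  have h2 : ‖∫ x in (Nat.sqrt K : ℝ)..(K : ℝ), e1 (u * Real.log (Real.log x))‖ ≤ K := by
    have h3 := intervalIntegral.norm_integral_le_of_norm_le_const (a := (Nat.sqrt K : ℝ)) (b := (K : ℝ))
      (C := 1) (f := fun x => e1 (u * Real.log (Real.log x))) (by
        intro t _
        rw [v01_norm_e1])
    refine h3.trans ?_
    rw [abs_of_nonneg (by linarith), one_mul]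
    have : (0 : ℝ) ≤ (Nat.sqrt K : ℝ) := Nat.cast_nonneg _
    linarith
  linarith

end PS4
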