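import Pool.Agent.LibPS4.P06

open MeasureTheory Finset
open scoped FourierTransform

namespace PS4

theorem p07_interval (w a b : ℝ) (hw : w ≠ 0) :
    ‖∫ s in a..b, Complex.exp (((-2 * Real.pi * s * w : ℝ) : ℂ) * Complex.I)‖ ≤
      1 / (Real.pi * |w|) := by
  set c : ℂ := ((-2 * Real.pi * w : ℝ) : ℂ) * Complex.I with hc
  have hpi := Real.pi_pos
  have hr : (-2 * Real.pi * w : ℝ) ≠ 0 := mul_ne_zero (by linarith) hw
  have hc0 : c ≠ 0 := mul_ne_zero (by exact_mod_cast hr) Complex.I_ne_zero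
  have h1 : ∀ s : ℝ, Complex.exp (((-2 * Real.pi * s * w : ℝ) : ℂ) * Complex.I) =
      Complex.exp (c * s) := by
    intro s
    congr 1
    rw [hc]
    push_cast
    ring
  have h3 : ∀ s : ℝ, ‖Complex.exp (c * s)‖ = 1 := by
    intro s
    rw [← h1, Complex.norm_exp_ofReal_mul_I]
  simp only [h1]
  rw [integral_exp_mul_complex hc0, norm_div]
  have h2 : ‖c‖ = 2 * (Real.pi * |w|) := by
    rw [hc, norm_mul, Complex.norm_I, mul_one, Complex.norm_real, Real.norm_eq_abs, abs_mul,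
      abs_mul, abs_of_pos hpi]
    norm_num
    ring
  have h4 : ‖Complex.exp (c * b) - Complex.exp (c * a)‖ ≤ 2 := by
    refine (norm_sub_le _ _).trans ?_
    rw [h3, h3]
    norm_num
  have hpos : 0 < Real.pi * |w| := mul_pos hpi (abs_pos.2 hw)
  rw [h2, div_le_div_iff₀ (by linarith) hpos]
  nlinarith

theorem p07_set (w : ℝ) (hw : w ≠ 0) (S : Set ℝ) (hS : S.OrdConnected) (c d : ℝ)
    (hcd : S ⊆ Set.Icc c d) :
    ‖∫ s in S, Complex.exp (((-2 * Real.pi * s * w : ℝ) : ℂ) * Complex.I)‖ ≤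
      1 / (Real.pi * |w|) := by
  rcases S.eq_empty_or_nonempty with h0 | h0
  · have hpi := Real.pi_pos
    rw [h0, Measure.restrict_empty, integral_zero_measure, norm_zero]
    positivity
  have hbb : BddBelow S := ⟨c, fun x hx => (hcd hx).1⟩
  have hba : BddAbove S := ⟨d, fun x hx => (hcd hx).2⟩
  have h1 : Set.Ioo (sInf S) (sSup S) ⊆ S := by
    intro x hx
    obtain ⟨y, hy, hyx⟩ := exists_lt_of_csInf_lt h0 hx.1
    obtain ⟨z, hz, hxz⟩ := exists_lt_of_lt_csSup h0 hx.2
    exact hS.out hy hz ⟨hyx.le, hxz.le⟩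
  have h2 : S ⊆ Set.Icc (sInf S) (sSup S) := fun x hx => ⟨csInf_le hbb hx, le_csSup hba hx⟩
  have hle : sInf S ≤ sSup S := by
    obtain ⟨x, hx⟩ := h0
    exact (h2 hx).1.trans (h2 hx).2
  have h3 : S =ᵐ[volume] Set.Ioc (sInf S) (sSup S) := by
    refine Filter.EventuallyLE.antisymm ?_ ?_
    · exact (HasSubset.Subset.eventuallyLE h2).trans Ioc_ae_eq_Icc.symm.le
    · exact Ioo_ae_eq_Ioc.symm.le.trans (HasSubset.Subset.eventuallyLE h1)
  rw [setIntegral_congr_set h3, ← intervalIntegral.integral_of_le hle]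
  exact p07_interval w _ _ hw

/-- P07: the Fourier transform of the step function decays like (number of steps) / `|w|`.
Hint: for `s ≤ s1`, `n = ⌊exp (exp s)⌋ ≤ K^B`; `Ph = ∑_{n ≤ K^B} f n * 1_{I_n}`, where `I_n` is the
intersection of `[s0, s1]` with `{s | n ≤ exp (exp s) < n+1}`, an order-connected bounded set, so
equal up to two points to an interval; the integral of `e(-sw)` over an interval is at most
`1/(π|w|)`. `Real.fourier_eq'` unfolds `𝓕`. -/
theorem fourier_Ph_le (f : ℕ → ℝ) (hf : ∀ n, |f n| ≤ 1) (B K : ℕ) (hB : 1 ≤ B) (hK : 9 ≤ K)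
    (w : ℝ) (hw : w ≠ 0) :
    ‖𝓕 (fun s : ℝ => ((Ph f B K s : ℝ) : ℂ)) w‖ ≤ ((K : ℝ) ^ B + 1) / (Real.pi * |w|) := by
  have hK' : (9 : ℝ) ≤ K := by exact_mod_cast hK
  have hB' : (1 : ℝ) ≤ B := by exact_mod_cast hB
  have hlogK : 0 < Real.log K := Real.log_pos (by linarith)
  set g : ℝ → ℕ := fun s => ⌊Real.exp (Real.exp s)⌋₊ with hg
  have hgm : Monotone g := fun s t hst =>
    Nat.floor_mono (Real.exp_le_exp.2 (Real.exp_le_exp.2 hst))
  set S : ℕ → Set ℝ := fun n => Set.Icc (s0 K) (s1 B K) ∩ g ⁻¹' {n} with hSdef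
  have hSo : ∀ n, (S n).OrdConnected := fun n =>
    Set.ordConnected_Icc.inter (Set.ordConnected_singleton.preimage_mono hgm)
  have hSm : ∀ n, MeasurableSet (S n) := fun n => (hSo n).measurableSet
  have hgle : ∀ s ∈ Set.Icc (s0 K) (s1 B K), g s ∈ Finset.range (K ^ B + 1) := by
    intro s hs
    rw [Finset.mem_range, Nat.lt_succ_iff]
    refine Nat.floor_le_of_le ?_
    have h1 : Real.exp s ≤ B * Real.log K := by
      calc Real.exp s ≤ Real.exp (s1 B K) := Real.exp_le_exp.2 hs.2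
        _ = B * Real.log K := by
          rw [s1, Real.exp_add, Real.exp_log (by linarith), Real.exp_log hlogK]
    calc Real.exp (Real.exp s) ≤ Real.exp (B * Real.log K) := Real.exp_le_exp.2 h1
      _ = ((K ^ B : ℕ) : ℝ) := by
        rw [Real.exp_nat_mul, Real.exp_log (by linarith)]
        push_cast
        rfl
  have hPh : ∀ s : ℝ, ((Ph f B K s : ℝ) : ℂ) =
      ∑ n ∈ Finset.range (K ^ B + 1), (S n).indicator (fun _ => ((f n : ℝ) : ℂ)) s := by
    intro s
    unfold Ph
    by_cases hs : s ∈ Set.Icc (s0 K) (s1 B K)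
    · rw [Set.indicator_of_mem hs, Finset.sum_eq_single_of_mem _ (hgle s hs)]
      · rw [Set.indicator_of_mem (show s ∈ S (g s) from ⟨hs, rfl⟩)]
      · intro n _ hne
        exact Set.indicator_of_notMem (fun h => hne h.2.symm) _
    · rw [Set.indicator_of_notMem hs, Complex.ofReal_zero]
      symm
      exact Finset.sum_eq_zero fun n _ => Set.indicator_of_notMem (fun h => hs h.1) _
  have hce : Continuous fun s : ℝ =>
      Complex.exp (((-2 * Real.pi * s * w : ℝ) : ℂ) * Complex.I) := by fun_prop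
  have hterm : ∀ n : ℕ, (fun s : ℝ => Complex.exp (((-2 * Real.pi * s * w : ℝ) : ℂ) *
      Complex.I) * (S n).indicator (fun _ => ((f n : ℝ) : ℂ)) s) =
      (S n).indicator (fun s : ℝ => Complex.exp (((-2 * Real.pi * s * w : ℝ) : ℂ) *
      Complex.I) * ((f n : ℝ) : ℂ)) := by
    intro n
    ext s
    by_cases hs : s ∈ S n
    · rw [Set.indicator_of_mem hs, Set.indicator_of_mem hs]
    · rw [Set.indicator_of_notMem hs, Set.indicator_of_notMem hs, mul_zero]
  have hint : ∀ n : ℕ, Integrable (fun s : ℝ => Complex.exp (((-2 * Real.pi * s * w : ℝ) : ℂ) *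
      Complex.I) * (S n).indicator (fun _ => ((f n : ℝ) : ℂ)) s) := by
    intro n
    rw [hterm n, integrable_indicator_iff (hSm n)]
    exact ((hce.mul continuous_const).integrableOn_Icc).mono_set Set.inter_subset_left
  rw [Real.fourier_real_eq_integral_exp_smul]
  have hrw : (fun v : ℝ => Complex.exp (((-2 * Real.pi * v * w : ℝ) : ℂ) * Complex.I) •
      ((Ph f B K v : ℝ) : ℂ)) = fun v => ∑ n ∈ Finset.range (K ^ B + 1),
        Complex.exp (((-2 * Real.pi * v * w : ℝ) : ℂ) * Complex.I) *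
          (S n).indicator (fun _ => ((f n : ℝ) : ℂ)) v := by
    ext v
    rw [smul_eq_mul, hPh, Finset.mul_sum]
  rw [hrw, integral_finset_sum _ fun n _ => hint n]
  have hpos : 0 ≤ 1 / (Real.pi * |w|) := by
    have := Real.pi_pos
    positivity
  have hb : ∀ n ∈ Finset.range (K ^ B + 1), ‖∫ v : ℝ,
      Complex.exp (((-2 * Real.pi * v * w : ℝ) : ℂ) * Complex.I) *
          (S n).indicator (fun _ => ((f n : ℝ) : ℂ)) v‖ ≤ 1 / (Real.pi * |w|) := by
    intro n _
    rw [hterm n, integral_indicator (hSm n), integral_mul_const, norm_mul, Complex.norm_real,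
      Real.norm_eq_abs]
    calc _ ≤ 1 / (Real.pi * |w|) * 1 :=
          mul_le_mul (p07_set w hw (S n) (hSo n) _ _ Set.inter_subset_left) (hf n)
            (abs_nonneg _) hpos
      _ = 1 / (Real.pi * |w|) := mul_one _
  refine (norm_sum_le_of_le _ hb).trans ?_
  rw [Finset.sum_const, Finset.card_range, nsmul_eq_mul]
  push_cast
  rw [mul_one_div]

end PS4
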