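import Pool.Agent.LibPS4.P06

open MeasureTheory Finset

namespace PS4

private theorem p08a_meas2 (f : ℕ → ℝ) (B K : ℕ) :
    Measurable (fun p : ℝ × ℝ => Ph f B K (p.1 + Real.log (Real.log p.2))) :=
  (measurable_Ph f B K).comp
    (measurable_fst.add (Real.measurable_log.comp (Real.measurable_log.comp measurable_snd)))

private theorem p08a_sqrt_le (K : ℕ) : (Nat.sqrt K : ℝ) ≤ (K : ℝ) := by
  exact_mod_cast Nat.sqrt_le_self K

theorem measurable_FK (f : ℕ → ℝ) (B K : ℕ) : Measurable (FK f B K) := by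
  unfold FK
  refine Measurable.sub ?_ ?_
  · refine Finset.measurable_fun_sum _ fun k _ => ?_
    exact (measurable_Ph f B K).comp (measurable_id.add_const _)
  · simp_rw [intervalIntegral.integral_of_le (p08a_sqrt_le K)]
    exact ((p08a_meas2 f B K).stronglyMeasurable.integral_prod_right').measurable

private theorem p08a_bound (f : ℕ → ℝ) (hf : ∀ n, |f n| ≤ 1) (B K : ℕ) (a : ℝ) :
    |FK f B K a| ≤ 2 * K := by
  unfold FK
  have hs := p08a_sqrt_le K
  have hs0 : (0 : ℝ) ≤ (Nat.sqrt K : ℝ) := Nat.cast_nonneg _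
  have h1 : |∑ k ∈ Ioc (Nat.sqrt K) K, Ph f B K (a + Real.log (Real.log k))| ≤ K := by
    refine (Finset.abs_sum_le_sum_abs _ _).trans ?_
    refine (Finset.sum_le_card_nsmul _ _ 1 fun k _ => abs_Ph_le f hf B K _).trans ?_
    rw [Nat.card_Ioc]
    simp only [nsmul_eq_mul, mul_one]
    exact_mod_cast Nat.sub_le _ _
  have h2 : |∫ x in (Nat.sqrt K : ℝ)..(K : ℝ), Ph f B K (a + Real.log (Real.log x))| ≤ K := by
    have h := intervalIntegral.norm_integral_le_of_norm_le_const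
      (a := (Nat.sqrt K : ℝ)) (b := (K : ℝ)) (C := 1)
      (f := fun x : ℝ => Ph f B K (a + Real.log (Real.log x)))
      (fun x _ => by rw [Real.norm_eq_abs]; exact abs_Ph_le f hf B K _)
    rw [Real.norm_eq_abs, one_mul, abs_of_nonneg (sub_nonneg.2 hs)] at h
    linarith
  have h3 := abs_sub (∑ k ∈ Ioc (Nat.sqrt K) K, Ph f B K (a + Real.log (Real.log k)))
    (∫ x in (Nat.sqrt K : ℝ)..(K : ℝ), Ph f B K (a + Real.log (Real.log x)))
  linarith

private theorem p08a_loglog {K : ℕ} (hK : 9 ≤ K) {x : ℝ} (h1 : (Nat.sqrt K : ℝ) ≤ x)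
    (h2 : x ≤ K) : s0 K ≤ Real.log (Real.log x) ∧
      Real.log (Real.log x) ≤ Real.log (Real.log K) := by
  have h3 : (3 : ℝ) ≤ (Nat.sqrt K : ℝ) := by
    have : 3 ≤ Nat.sqrt K := Nat.le_sqrt'.2 (by omega)
    exact_mod_cast this
  have hl : 0 < Real.log (Nat.sqrt K) := Real.log_pos (by linarith)
  have hl2 : Real.log (Nat.sqrt K) ≤ Real.log x := Real.log_le_log (by linarith) h1
  have hl3 : Real.log x ≤ Real.log K := Real.log_le_log (by linarith) h2
  exact ⟨Real.log_le_log hl hl2, Real.log_le_log (by linarith) hl3⟩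

private theorem p08a_zero (f : ℕ → ℝ) (B K : ℕ) (hK : 9 ≤ K) (a : ℝ)
    (ha : a ∉ Set.Icc (s0 K - Real.log (Real.log K)) (s1 B K - s0 K)) : FK f B K a = 0 := by
  have key : ∀ x : ℝ, (Nat.sqrt K : ℝ) ≤ x → x ≤ K →
      Ph f B K (a + Real.log (Real.log x)) = 0 := by
    intro x h1 h2
    obtain ⟨h3, h4⟩ := p08a_loglog hK h1 h2
    unfold Ph
    apply Set.indicator_of_notMem
    intro h
    apply ha
    exact ⟨by linarith [h.1], by linarith [h.2]⟩
  unfold FK
  rw [Finset.sum_eq_zero, intervalIntegral.integral_of_le (p08a_sqrt_le K),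
    setIntegral_eq_zero_of_forall_eq_zero, sub_zero]
  · intro x hx
    exact key x hx.1.le hx.2
  · intro k hk
    rw [Finset.mem_Ioc] at hk
    exact key k (by exact_mod_cast hk.1.le) (by exact_mod_cast hk.2)

private theorem p08a_dom (f : ℕ → ℝ) (hf : ∀ n, |f n| ≤ 1) (B K : ℕ) (hK : 9 ≤ K) (a : ℝ) :
    ‖((FK f B K a : ℝ) : ℂ)‖ ≤
      (Set.Icc (s0 K - Real.log (Real.log K)) (s1 B K - s0 K)).indicator
        (fun _ => (2 * K : ℝ)) a := by
  rw [Complex.norm_real, Real.norm_eq_abs]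
  by_cases ha : a ∈ Set.Icc (s0 K - Real.log (Real.log K)) (s1 B K - s0 K)
  · rw [Set.indicator_of_mem ha]
    exact p08a_bound f hf B K a
  · rw [Set.indicator_of_notMem ha, p08a_zero f B K hK a ha, abs_zero]

private theorem p08a_aesm (f : ℕ → ℝ) (B K : ℕ) :
    AEStronglyMeasurable (fun a : ℝ => ((FK f B K a : ℝ) : ℂ)) volume :=
  (Complex.measurable_ofReal.comp (measurable_FK f B K)).aestronglyMeasurable

/-- Hint: bounded by `2K`, zero outside a bounded interval (`loglog x` is bounded for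
`x ∈ [√K, K]`, `√K ≥ 3`). -/
theorem integrable_FK (f : ℕ → ℝ) (hf : ∀ n, |f n| ≤ 1) (B K : ℕ) (hK : 9 ≤ K) :
    Integrable (fun a : ℝ => ((FK f B K a : ℝ) : ℂ)) := by
  refine Integrable.mono' (g := (Set.Icc (s0 K - Real.log (Real.log K))
    (s1 B K - s0 K)).indicator (fun _ => (2 * K : ℝ))) ?_ (p08a_aesm f B K)
    (Filter.Eventually.of_forall (p08a_dom f hf B K hK))
  exact (integrableOn_const (by simp)).integrable_indicator measurableSet_Icc

theorem memLp_FK (f : ℕ → ℝ) (hf : ∀ n, |f n| ≤ 1) (B K : ℕ) (hK : 9 ≤ K) :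
    MemLp (fun a : ℝ => ((FK f B K a : ℝ) : ℂ)) 2 := by
  refine MemLp.mono' (g := (Set.Icc (s0 K - Real.log (Real.log K))
    (s1 B K - s0 K)).indicator (fun _ => (2 * K : ℝ))) ?_ (p08a_aesm f B K)
    (Filter.Eventually.of_forall (p08a_dom f hf B K hK))
  exact memLp_indicator_const 2 measurableSet_Icc _ (Or.inr (by simp))

end PS4
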