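import Pool.Agent.LibPS4.P06

open MeasureTheory Finset
open scoped FourierTransform

namespace PS4

private theorem p08b_ker (v w : ℝ) :
    Complex.exp ((↑(-2 * Real.pi * inner ℝ v w) : ℂ) * Complex.I) = e1 (-(v * w)) := by
  unfold e1
  congr 2
  norm_cast
  simp [mul_comm]

private theorem p08b_cont : Continuous e1 := by
  unfold e1
  fun_prop

/-- translation -/
private theorem p08b_shift (f : ℕ → ℝ) (B K : ℕ) (v w : ℝ) :
    ∫ a : ℝ, e1 (-(a * w)) * ((Ph f B K (a + v) : ℝ) : ℂ) =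
      𝓕 (fun s : ℝ => ((Ph f B K s : ℝ) : ℂ)) w * e1 (w * v) := by
  rw [Real.fourier_eq']
  simp_rw [p08b_ker, smul_eq_mul]
  rw [← integral_add_right_eq_self (fun s : ℝ => e1 (-(s * w)) * ((Ph f B K s : ℝ) : ℂ)) v,
    ← integral_mul_const]
  congr 1
  funext a
  have h : e1 (-(a * w)) = e1 (-((a + v) * w)) * e1 (w * v) := by
    rw [← v01_e1_add]
    congr 1
    ring
  rw [h]
  ring

private theorem p08b_int (f : ℕ → ℝ) (hf : ∀ n, |f n| ≤ 1) (B K : ℕ) (v w : ℝ) :
    Integrable (fun a : ℝ => e1 (-(a * w)) * ((Ph f B K (a + v) : ℝ) : ℂ)) := by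
  have h1 : Integrable (fun a : ℝ => ((Ph f B K (a + v) : ℝ) : ℂ)) :=
    ((integrable_Ph f hf B K).comp_add_right v).ofReal
  refine h1.bdd_mul (c := 1) ?_ ?_
  · exact (p08b_cont.comp (by fun_prop)).aestronglyMeasurable
  · exact Filter.Eventually.of_forall fun a => (v01_norm_e1 _).le

private theorem p08b_prod (f : ℕ → ℝ) (hf : ∀ n, |f n| ≤ 1) (B K : ℕ) (w : ℝ) :
    Integrable (fun p : ℝ × ℝ => e1 (-(p.1 * w)) *
      ((Ph f B K (p.1 + Real.log (Real.log p.2)) : ℝ) : ℂ))
      (volume.prod (volume.restrict (Set.Ioc (Nat.sqrt K : ℝ) (K : ℝ)))) := by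
  have hm : AEStronglyMeasurable (fun p : ℝ × ℝ => e1 (-(p.1 * w)) *
      ((Ph f B K (p.1 + Real.log (Real.log p.2)) : ℝ) : ℂ))
      (volume.prod (volume.restrict (Set.Ioc (Nat.sqrt K : ℝ) (K : ℝ)))) := by
    refine Measurable.aestronglyMeasurable ?_
    refine Measurable.mul ?_ ?_
    · exact p08b_cont.measurable.comp ((measurable_fst.mul_const w).neg)
    · exact Complex.measurable_ofReal.comp ((measurable_Ph f B K).comp
        (measurable_fst.add
          (Real.measurable_log.comp (Real.measurable_log.comp measurable_snd))))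
  rw [integrable_prod_iff' hm]
  constructor
  · exact Filter.Eventually.of_forall fun x => p08b_int f hf B K (Real.log (Real.log x)) w
  · have h : (fun x : ℝ => ∫ a : ℝ, ‖e1 (-(a * w)) *
        ((Ph f B K (a + Real.log (Real.log x)) : ℝ) : ℂ)‖) =
        fun _ : ℝ => ∫ s : ℝ, ‖Ph f B K s‖ := by
      funext x
      rw [← integral_add_right_eq_self (fun s : ℝ => ‖Ph f B K s‖) (Real.log (Real.log x))]
      congr 1
      funext a
      rw [norm_mul, v01_norm_e1, one_mul, Complex.norm_real]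
    have h2 : Integrable (fun _ : ℝ => ∫ s : ℝ, ‖Ph f B K s‖)
        (volume.restrict (Set.Ioc (Nat.sqrt K : ℝ) (K : ℝ))) := integrable_const _
    rw [← h] at h2
    exact h2

/-- P08b: the Fourier transform of the convolution. Hint: `𝓕 (a ↦ Φ (a + v)) w = e(vw) 𝓕 Φ w`
(translation invariance of the integral) and Fubini for the integral over `x`. -/
theorem fourier_FK (f : ℕ → ℝ) (hf : ∀ n, |f n| ≤ 1) (B K : ℕ) (hK : 9 ≤ K) (w : ℝ) :
    𝓕 (fun a : ℝ => ((FK f B K a : ℝ) : ℂ)) w =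
      𝓕 (fun s : ℝ => ((Ph f B K s : ℝ) : ℂ)) w * nuh K w := by
  have hs : (Nat.sqrt K : ℝ) ≤ (K : ℝ) := by exact_mod_cast Nat.sqrt_le_self K
  have hF : 𝓕 (fun a : ℝ => ((FK f B K a : ℝ) : ℂ)) w =
      ∫ a : ℝ, ((∑ k ∈ Ioc (Nat.sqrt K) K,
        e1 (-(a * w)) * ((Ph f B K (a + Real.log (Real.log k)) : ℝ) : ℂ)) -
        ∫ x in Set.Ioc (Nat.sqrt K : ℝ) (K : ℝ),
          e1 (-(a * w)) * ((Ph f B K (a + Real.log (Real.log x)) : ℝ) : ℂ)) := by
    rw [Real.fourier_eq']
    congr 1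
    funext a
    rw [p08b_ker, smul_eq_mul, ← Finset.mul_sum, integral_const_mul, integral_complex_ofReal,
      ← mul_sub]
    congr 1
    unfold FK
    rw [intervalIntegral.integral_of_le hs]
    push_cast
    rfl
  rw [hF, integral_sub, integral_finsetSum]
  · rw [integral_integral_swap (p08b_prod f hf B K w)]
    simp_rw [p08b_shift]
    rw [← Finset.mul_sum, integral_const_mul, ← mul_sub]
    unfold nuh
    rw [intervalIntegral.integral_of_le hs]
  · intro k _
    exact p08b_int f hf B K _ w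
  · exact integrable_finsetSum _ fun k _ => p08b_int f hf B K _ w
  · exact (p08b_prod f hf B K w).integral_prod_left

end PS4
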