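import Pool.Agent.LibPS4.P05b
import Pool.Agent.LibPS4.P07
import Pool.Agent.LibPS4.P08a
import Pool.Agent.LibPS4.P08b
import Pool.Agent.LibWaveDir.Plancherel

open MeasureTheory Finset
open scoped FourierTransform

namespace PS4

private lemma p09_tail (Y : ℝ) (hY : 0 < Y) (D : ℝ) (hD : 0 ≤ D) :
    ∫⁻ w in {w : ℝ | Y < |w|}, ENNReal.ofReal (D / w ^ 2) ≤ ENNReal.ofReal (2 * (D / Y)) := by
  set Gp : ℝ → ENNReal := (Set.Ioi Y).indicator (fun w => ENNReal.ofReal (D / w ^ 2)) with hGp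
  have hm : MeasurableSet {w : ℝ | Y < |w|} :=
    measurableSet_lt measurable_const measurable_norm
  have hGm : Measurable Gp := by
    apply Measurable.indicator _ measurableSet_Ioi
    exact (measurable_const.div (measurable_id.pow_const 2)).ennreal_ofReal
  have h1 : ∫⁻ w in {w : ℝ | Y < |w|}, ENNReal.ofReal (D / w ^ 2) ≤
      ∫⁻ w, (Gp w + Gp (-w)) := by
    rw [← lintegral_indicator hm]
    apply lintegral_mono
    intro w
    show _ ≤ Gp w + Gp (-w)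
    by_cases hw : Y < |w|
    · rw [Set.indicator_of_mem (show w ∈ {w : ℝ | Y < |w|} from hw)]
      rcases lt_abs.1 hw with h | h
      · have : Gp w = ENNReal.ofReal (D / w ^ 2) := by
          rw [hGp, Set.indicator_of_mem (show w ∈ Set.Ioi Y from h)]
        rw [this]
        exact le_self_add
      · have : Gp (-w) = ENNReal.ofReal (D / w ^ 2) := by
          rw [hGp, Set.indicator_of_mem (show -w ∈ Set.Ioi Y from h)]
          rw [neg_sq]
        rw [this]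
        exact le_add_self
    · rw [Set.indicator_of_notMem (show w ∉ {w : ℝ | Y < |w|} from hw)]
      exact bot_le
  have h2 : ∫⁻ w, (Gp w + Gp (-w)) = 2 * ∫⁻ w, Gp w := by
    rw [lintegral_add_left hGm, two_mul]
    congr 1
    exact lintegral_neg_eq_self Gp
  have h3 : ∫⁻ w, Gp w = ENNReal.ofReal (D / Y) := by
    rw [hGp, lintegral_indicator measurableSet_Ioi]
    have hint : IntegrableOn (fun w : ℝ => D * w ^ (-2 : ℝ)) (Set.Ioi Y) :=
      (integrableOn_Ioi_rpow_of_lt (by norm_num) hY).const_mul D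
    have e1 : ∫⁻ w in Set.Ioi Y, ENNReal.ofReal (D / w ^ 2) =
        ∫⁻ w in Set.Ioi Y, ENNReal.ofReal (D * w ^ (-2 : ℝ)) := by
      apply setLIntegral_congr_fun measurableSet_Ioi
      intro w hw
      have hw0 : 0 < w := hY.trans hw
      show ENNReal.ofReal (D / w ^ 2) = ENNReal.ofReal (D * w ^ (-2 : ℝ))
      congr 1
      rw [Real.rpow_neg hw0.le, div_eq_mul_inv]
      congr 2
      norm_num
    rw [e1, ← ofReal_integral_eq_lintegral_ofReal hint]
    · congr 1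
      rw [integral_const_mul, integral_Ioi_rpow_of_lt (by norm_num) hY]
      have : (-2 : ℝ) + 1 = -1 := by norm_num
      rw [this, Real.rpow_neg_one]
      field_simp
    · filter_upwards [self_mem_ae_restrict measurableSet_Ioi] with w hw
      have hw0 : 0 < w := hY.trans hw
      show 0 ≤ D * w ^ (-2 : ℝ)
      positivity
  calc _ ≤ ∫⁻ w, (Gp w + Gp (-w)) := h1
    _ = 2 * ENNReal.ofReal (D / Y) := by rw [h2, h3]
    _ = ENNReal.ofReal (2 * (D / Y)) := by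
        rw [ENNReal.ofReal_mul (by norm_num)]
        norm_num

private lemma p09_memLp (f : ℕ → ℝ) (hf : ∀ n, |f n| ≤ 1) (B K : ℕ) (hB : 1 ≤ B) (hK : 9 ≤ K) :
    MemLp (fun s : ℝ => ((Ph f B K s : ℝ) : ℂ)) 2 := by
  refine ⟨(Complex.measurable_ofReal.comp (measurable_Ph f B K)).aestronglyMeasurable, ?_⟩
  rw [eLpNorm_lt_top_iff_lintegral_rpow_enorm_lt_top (by norm_num) (by norm_num)]
  have h := lintegral_Ph f hf B K hB hK
  refine lt_of_le_of_lt (le_of_eq ?_) (lt_of_le_of_lt h ENNReal.ofReal_lt_top)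
  apply lintegral_congr
  intro s
  norm_num

/-- P09: the variance bound. Hint: `Pool.Agent.LibWaveDir.plancherel` twice (for `FK` and for `Ph`),
`fourier_FK`; for `|w| ≤ K^{2B+4}` use `nuh_le (2B+4)` and `lintegral_Ph`, for `|w| > K^{2B+4}`
use `fourier_Ph_le`, `norm_nuh_le` and `∫_{|w| > Y} w^{-2} = 2/Y`: this part is at most
`8 (K^B+1)^2 K^2 / K^{2B+4} ≤ 32`. -/
theorem variance (B : ℕ) (hB : 1 ≤ B) : ∃ c C : ℝ, 0 < c ∧ c ≤ 1 / 2 ∧ 0 < C ∧
    ∀ (f : ℕ → ℝ), (∀ n, |f n| ≤ 1) → ∀ K : ℕ, 9 ≤ K →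
    ∫⁻ a, ‖((FK f B K a : ℝ) : ℂ)‖ₑ ^ 2 ≤ ENNReal.ofReal (C * (K : ℝ) ^ (2 - c)) := by
  have hBR : (1 : ℝ) ≤ B := by exact_mod_cast hB
  have hlB : 0 ≤ Real.log B := Real.log_nonneg hBR
  obtain ⟨c0, C0, hc0, hc0', hC0, h0⟩ := nuh_le (2 * (B : ℝ) + 4) (by linarith)
  refine ⟨2 * c0, C0 ^ 2 * (Real.log B + 2) + 32, by positivity, by linarith, by positivity, ?_⟩
  intro f hf K hK
  have hK9 : (9 : ℝ) ≤ K := by exact_mod_cast hK
  have hK1 : (1 : ℝ) ≤ K := by linarith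
  have hK0 : (0 : ℝ) < K := by linarith
  set Y : ℝ := (K : ℝ) ^ (2 * (B : ℝ) + 4) with hY
  have hY0 : 0 < Y := by positivity
  set P : ℝ → ℂ := 𝓕 (fun s : ℝ => ((Ph f B K s : ℝ) : ℂ)) with hP
  have hPint : Integrable (fun s : ℝ => ((Ph f B K s : ℝ) : ℂ)) :=
    (integrable_Ph f hf B K).ofReal
  have hPcont : Continuous P :=
    VectorFourier.fourierIntegral_continuous Real.continuous_fourierChar
      (by exact continuous_inner) hPint
  have hPm : Measurable P := hPcont.measurable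
  have hPP : ∫⁻ w, ‖P w‖ₑ ^ 2 ≤ ENNReal.ofReal (Real.log B + 2) := by
    rw [hP, Pool.Agent.LibWaveDir.plancherel _ hPint (p09_memLp f hf B K hB hK)]
    exact lintegral_Ph f hf B K hB hK
  have hmS : MeasurableSet {w : ℝ | Y < |w|} :=
    measurableSet_lt measurable_const measurable_norm
  -- the total
  have htot : ∫⁻ a, ‖((FK f B K a : ℝ) : ℂ)‖ₑ ^ 2 = ∫⁻ w, ‖P w * nuh K w‖ₑ ^ 2 := by
    rw [← Pool.Agent.LibWaveDir.plancherel (fun a : ℝ => ((FK f B K a : ℝ) : ℂ))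
      (integrable_FK f hf B K hK) (memLp_FK f hf B K hK)]
    apply lintegral_congr
    intro w
    rw [fourier_FK f hf B K hK w]
  rw [htot, ← lintegral_add_compl _ hmS]
  -- the part of large frequencies
  have hlarge : ∫⁻ w in {w : ℝ | Y < |w|}, ‖P w * nuh K w‖ₑ ^ 2 ≤ ENNReal.ofReal 32 := by
    set D : ℝ := (((K : ℝ) ^ B + 1) * (2 * K)) ^ 2 with hD
    have h1 : ∫⁻ w in {w : ℝ | Y < |w|}, ‖P w * nuh K w‖ₑ ^ 2 ≤
        ∫⁻ w in {w : ℝ | Y < |w|}, ENNReal.ofReal (D / w ^ 2) := by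
      apply setLIntegral_mono' hmS
      intro w hw
      have hw' : Y < |w| := hw
      have hw0 : 0 < |w| := hY0.trans hw'
      have hwne : w ≠ 0 := abs_pos.1 hw0
      have e1 : ‖P w‖ ≤ ((K : ℝ) ^ B + 1) / |w| := by
        refine (fourier_Ph_le f hf B K hB hK w hwne).trans ?_
        apply div_le_div_of_nonneg_left (by positivity) hw0
        have : (1 : ℝ) ≤ Real.pi := by linarith [Real.pi_gt_three]
        nlinarith
      have e2 := norm_nuh_le K w
      have e3 : ‖P w * nuh K w‖ ≤ ((K : ℝ) ^ B + 1) / |w| * (2 * K) := by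
        rw [norm_mul]
        exact mul_le_mul e1 e2 (norm_nonneg _) (by positivity)
      have e4 : ‖P w * nuh K w‖ ^ 2 ≤ D / w ^ 2 := by
        calc ‖P w * nuh K w‖ ^ 2 ≤ (((K : ℝ) ^ B + 1) / |w| * (2 * K)) ^ 2 :=
              pow_le_pow_left₀ (norm_nonneg _) e3 2
          _ = D / w ^ 2 := by
              rw [hD, ← sq_abs w]
              ring
      rw [← ofReal_norm, ← ENNReal.ofReal_pow (norm_nonneg _)]
      exact ENNReal.ofReal_le_ofReal e4
    refine h1.trans ((p09_tail Y hY0 D (by positivity)).trans ?_)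
    apply ENNReal.ofReal_le_ofReal
    rw [← mul_div_assoc, div_le_iff₀ hY0]
    have hKB : (1 : ℝ) ≤ (K : ℝ) ^ B := one_le_pow₀ hK1
    have hY' : Y = ((K : ℝ) ^ B) ^ 2 * (K : ℝ) ^ 4 := by
      rw [hY, Real.rpow_add hK0, mul_comm (2 : ℝ), Real.rpow_mul hK0.le, Real.rpow_natCast]
      norm_num
    rw [hY', hD]
    have k1 : ((K : ℝ) ^ B + 1) ^ 2 ≤ 4 * ((K : ℝ) ^ B) ^ 2 := by nlinarith
    have k2 : (K : ℝ) ^ 2 ≤ (K : ℝ) ^ 4 := pow_le_pow_right₀ hK1 (by norm_num)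
    calc 2 * (((K : ℝ) ^ B + 1) * (2 * K)) ^ 2 = 8 * (((K : ℝ) ^ B + 1) ^ 2 * (K : ℝ) ^ 2) := by
          ring
      _ ≤ 8 * (4 * ((K : ℝ) ^ B) ^ 2 * (K : ℝ) ^ 4) := by
          apply mul_le_mul_of_nonneg_left _ (by norm_num)
          exact mul_le_mul k1 k2 (by positivity) (by positivity)
      _ = 32 * (((K : ℝ) ^ B) ^ 2 * (K : ℝ) ^ 4) := by ring
  -- the part of small frequencies
  have hsmall : ∫⁻ w in {w : ℝ | Y < |w|}ᶜ, ‖P w * nuh K w‖ₑ ^ 2 ≤
      ENNReal.ofReal (C0 ^ 2 * (Real.log B + 2) * (K : ℝ) ^ (2 - 2 * c0)) := by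
    have h1 : ∫⁻ w in {w : ℝ | Y < |w|}ᶜ, ‖P w * nuh K w‖ₑ ^ 2 ≤
        ∫⁻ w in {w : ℝ | Y < |w|}ᶜ,
          ENNReal.ofReal ((C0 * (K : ℝ) ^ (1 - c0)) ^ 2) * ‖P w‖ₑ ^ 2 := by
      apply setLIntegral_mono' hmS.compl
      intro w hw
      have hw' : |w| ≤ Y := not_lt.1 hw
      have e1 := h0 K w hK hw'
      rw [enorm_mul, mul_pow, mul_comm]
      apply mul_le_mul' _ le_rfl
      rw [← ofReal_norm, ← ENNReal.ofReal_pow (norm_nonneg _)]
      exact ENNReal.ofReal_le_ofReal (pow_le_pow_left₀ (norm_nonneg _) e1 2)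
    refine h1.trans ?_
    rw [lintegral_const_mul _ (by fun_prop)]
    have h2 : ∫⁻ w in {w : ℝ | Y < |w|}ᶜ, ‖P w‖ₑ ^ 2 ≤ ENNReal.ofReal (Real.log B + 2) :=
      (setLIntegral_le_lintegral _ _).trans hPP
    refine (mul_le_mul' le_rfl h2).trans ?_
    rw [← ENNReal.ofReal_mul (by positivity)]
    apply ENNReal.ofReal_le_ofReal
    apply le_of_eq
    have : (K : ℝ) ^ (2 - 2 * c0) = ((K : ℝ) ^ (1 - c0)) ^ 2 := by
      rw [← Real.rpow_natCast ((K : ℝ) ^ (1 - c0)), ← Real.rpow_mul hK0.le]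
      congr 1
      push_cast
      ring
    rw [this]
    ring
  refine (add_le_add hlarge hsmall).trans ?_
  rw [← ENNReal.ofReal_add (by norm_num) (by positivity)]
  apply ENNReal.ofReal_le_ofReal
  have hone : (1 : ℝ) ≤ (K : ℝ) ^ (2 - 2 * c0) := Real.one_le_rpow hK1 (by linarith)
  nlinarith [hone]

end PS4
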