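import Pool.Agent.LibPS4.Defs

open MeasureTheory Finset

namespace PS4

private theorem p10a_log {x : ℝ} (hx : 3 ≤ x) : 1 ≤ Real.log x := by
  rw [Real.le_log_iff_exp_le (by linarith)]
  have := Real.exp_one_lt_d9
  linarith

private theorem p10a_sqrt {K : ℕ} (hK : 9 ≤ K) : (3 : ℝ) ≤ (Nat.sqrt K : ℝ) := by
  have : 3 ≤ Nat.sqrt K := Nat.le_sqrt.2 (by omega)
  exact_mod_cast this

private theorem p10a_Ph (f : ℕ → ℝ) (B K : ℕ) (hK : 9 ≤ K) (a : ℝ) (ha : 0 ≤ a)
    (ha1 : a ≤ Real.log B) {x : ℝ} (hx : (Nat.sqrt K : ℝ) ≤ x) (hxK : x ≤ K) :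
    Ph f B K (a + Real.log (Real.log x)) = f ⌊x ^ Real.exp a⌋₊ := by
  have h3 := p10a_sqrt hK
  have hx3 : 3 ≤ x := h3.trans hx
  have hx0 : 0 < x := by linarith
  have hL1 := p10a_log h3
  have hLx : Real.log (Nat.sqrt K : ℝ) ≤ Real.log x := Real.log_le_log (by linarith) hx
  have hLK : Real.log x ≤ Real.log K := Real.log_le_log hx0 hxK
  have hLpos : 0 < Real.log x := by linarith
  have h1 : s0 K ≤ a + Real.log (Real.log x) := by
    unfold s0
    have := Real.log_le_log (by linarith) hLx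
    linarith
  have h2 : a + Real.log (Real.log x) ≤ s1 B K := by
    unfold s1
    have := Real.log_le_log hLpos hLK
    linarith
  have hmem : a + Real.log (Real.log x) ∈ Set.Icc (s0 K) (s1 B K) := ⟨h1, h2⟩
  unfold Ph
  rw [Set.indicator_of_mem hmem, Real.exp_add, Real.exp_log hLpos, Real.rpow_def_of_pos hx0,
    mul_comm]

/-- P10a: the convolution is the difference of the sum and the integral. Hint: for
`√K ≤ x ≤ K` (`√K ≥ 3`) and `0 ≤ a ≤ log B`, `a + loglog x ∈ [s0 K, s1 B K]` and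
`exp (exp (a + loglog x)) = exp (exp a * log x) = x ^ (exp a)`. -/
theorem FK_eq (f : ℕ → ℝ) (B K : ℕ) (hB : 1 ≤ B) (hK : 9 ≤ K) (a : ℝ) (ha : 0 ≤ a)
    (ha1 : a ≤ Real.log B) :
    FK f B K a = Sd f K (Real.exp a) - Md f K (Real.exp a) := by
  unfold FK Sd Md
  congr 1
  · refine Finset.sum_congr rfl fun k hk => ?_
    rw [Finset.mem_Ioc] at hk
    exact p10a_Ph f B K hK a ha ha1 (by exact_mod_cast hk.1.le) (by exact_mod_cast hk.2)
  · refine intervalIntegral.integral_congr fun x hx => ?_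
    have hle : (Nat.sqrt K : ℝ) ≤ (K : ℝ) := by exact_mod_cast Nat.sqrt_le_self K
    rw [Set.uIcc_of_le hle] at hx
    exact p10a_Ph f B K hK a ha ha1 hx.1 hx.2

theorem measurable_Sd (f : ℕ → ℝ) (K : ℕ) : Measurable (Sd f K) := by
  unfold Sd
  refine Finset.measurable_fun_sum _ fun k _ => ?_
  exact (measurable_from_top (f := f)).comp
    (Nat.measurable_floor.comp (measurable_const.pow measurable_id))

theorem measurable_Md (f : ℕ → ℝ) (K : ℕ) : Measurable (Md f K) := by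
  have hle : (Nat.sqrt K : ℝ) ≤ (K : ℝ) := by exact_mod_cast Nat.sqrt_le_self K
  have h1 : Md f K = fun α => ∫ x in Set.Ioc (Nat.sqrt K : ℝ) (K : ℝ), f ⌊x ^ α⌋₊ := by
    funext α
    exact intervalIntegral.integral_of_le hle
  rw [h1]
  have h2 : Measurable (Function.uncurry fun (α x : ℝ) => f ⌊x ^ α⌋₊) :=
    (measurable_from_top (f := f)).comp
      (Nat.measurable_floor.comp (measurable_snd.pow measurable_fst))
  exact (h2.stronglyMeasurable.integral_prod_right
    (ν := volume.restrict (Set.Ioc (Nat.sqrt K : ℝ) (K : ℝ)))).measurable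

end PS4
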