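import Pool.Agent.LibPS4.P09
import Pool.Agent.LibPS4.P10a

open MeasureTheory Finset

namespace PS4

/-- P10b: change of variables `α = exp a` (`dα = exp a da ≤ B da`; e.g.
`lintegral_image_eq_lintegral_abs_deriv_mul` for `exp` on `Icc 0 (log B)`) and Chebyshev
(`meas_ge_le_lintegral_div` or `mul_meas_ge_le_lintegral`), from `variance B` and `FK_eq`. -/
theorem cheb (B : ℕ) (hB : 1 ≤ B) : ∃ c C : ℝ, 0 < c ∧ c ≤ 1 / 2 ∧ 0 < C ∧
    ∀ (f : ℕ → ℝ), (∀ n, |f n| ≤ 1) → ∀ (K : ℕ) (lam : ℝ), 9 ≤ K → 0 < lam →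
    volume {α : ℝ | 1 ≤ α ∧ α ≤ B ∧ lam ≤ |Sd f K α - Md f K α|} ≤
      ENNReal.ofReal (C * (K : ℝ) ^ (2 - c) / lam ^ 2) := by
  obtain ⟨c, C, hc, hc2, hC, h⟩ := variance B hB
  have hB0 : (0 : ℝ) < B := by exact_mod_cast hB
  refine ⟨c, B * C, hc, hc2, by positivity, ?_⟩
  intro f hf K lam hK hlam
  -- the set in the variable `a`
  set S : Set ℝ := {a : ℝ | 0 ≤ a ∧ a ≤ Real.log B ∧
    lam ≤ |Sd f K (Real.exp a) - Md f K (Real.exp a)|} with hS
  have hmS : MeasurableSet S := by
    have hm : Measurable (fun a : ℝ => |Sd f K (Real.exp a) - Md f K (Real.exp a)|) :=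
      ((measurable_Sd f K).sub (measurable_Md f K)).comp Real.measurable_exp |>.abs
    exact (measurableSet_le measurable_const measurable_id).inter
      ((measurableSet_le measurable_id measurable_const).inter
        (measurableSet_le measurable_const hm))
  have himg : {α : ℝ | 1 ≤ α ∧ α ≤ B ∧ lam ≤ |Sd f K α - Md f K α|} = Real.exp '' S := by
    ext α
    simp only [Set.mem_ofPred_eq, Set.mem_image, hS]
    constructor
    · rintro ⟨h1, h2, h3⟩
      have h0 : 0 < α := by linarith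
      refine ⟨Real.log α, ⟨Real.log_nonneg h1, Real.log_le_log h0 h2, ?_⟩, Real.exp_log h0⟩
      rw [Real.exp_log h0]
      exact h3
    · rintro ⟨a, ⟨h1, h2, h3⟩, rfl⟩
      refine ⟨Real.one_le_exp h1, ?_, h3⟩
      calc Real.exp a ≤ Real.exp (Real.log B) := Real.exp_le_exp.2 h2
        _ = B := Real.exp_log hB0
  rw [himg]
  -- change of variables
  have hcv : volume (Real.exp '' S) ≤ ENNReal.ofReal B * volume S := by
    have h1 := lintegral_image_eq_lintegral_abs_deriv_mul (f := Real.exp) (f' := Real.exp) hmS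
      (fun x _ => (Real.hasDerivAt_exp x).hasDerivWithinAt)
      (Real.exp_injective.injOn) (fun _ => (1 : ENNReal))
    simp only [lintegral_const, mul_one, one_mul, Measure.restrict_apply MeasurableSet.univ,
      Set.univ_inter] at h1
    rw [h1]
    calc ∫⁻ x in S, ENNReal.ofReal |Real.exp x| ≤ ∫⁻ _ in S, ENNReal.ofReal B := by
          apply setLIntegral_mono' hmS
          intro x hx
          apply ENNReal.ofReal_le_ofReal
          rw [abs_of_pos (Real.exp_pos x)]
          calc Real.exp x ≤ Real.exp (Real.log B) := Real.exp_le_exp.2 hx.2.1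
            _ = B := Real.exp_log hB0
      _ = ENNReal.ofReal B * volume S := by
          rw [setLIntegral_const]
  -- Chebyshev
  have hch : ENNReal.ofReal (lam ^ 2) * volume S ≤ ENNReal.ofReal (C * (K : ℝ) ^ (2 - c)) := by
    calc ENNReal.ofReal (lam ^ 2) * volume S = ∫⁻ _ in S, ENNReal.ofReal (lam ^ 2) := by
          rw [setLIntegral_const]
      _ ≤ ∫⁻ a in S, ‖((FK f B K a : ℝ) : ℂ)‖ₑ ^ 2 := by
          apply setLIntegral_mono' hmS
          intro x hx
          rw [FK_eq f B K hB hK x hx.1 hx.2.1]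
          rw [← ofReal_norm, ← ENNReal.ofReal_pow (norm_nonneg _)]
          apply ENNReal.ofReal_le_ofReal
          rw [Complex.norm_real, Real.norm_eq_abs]
          exact pow_le_pow_left₀ hlam.le hx.2.2 2
      _ ≤ ∫⁻ a, ‖((FK f B K a : ℝ) : ℂ)‖ₑ ^ 2 := setLIntegral_le_lintegral _ _
      _ ≤ _ := h f hf K hK
  have hl2 : 0 < lam ^ 2 := by positivity
  have hch2 : volume S ≤ ENNReal.ofReal (C * (K : ℝ) ^ (2 - c) / lam ^ 2) := by
    rw [ENNReal.ofReal_div_of_pos hl2]
    rw [ENNReal.le_div_iff_mul_le (Or.inl (by simpa using hl2.ne'))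
      (Or.inl ENNReal.ofReal_ne_top)]
    rw [mul_comm]
    exact hch
  calc volume (Real.exp '' S) ≤ ENNReal.ofReal B * volume S := hcv
    _ ≤ ENNReal.ofReal B * ENNReal.ofReal (C * (K : ℝ) ^ (2 - c) / lam ^ 2) := by gcongr
    _ = ENNReal.ofReal (B * C * (K : ℝ) ^ (2 - c) / lam ^ 2) := by
        rw [← ENNReal.ofReal_mul hB0.le]
        congr 1
        ring

end PS4
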