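import Pool.Agent.LibPS4.Defs

open MeasureTheory Finset

namespace PS4

private theorem p11_int (f : ℕ → ℝ) (hf : ∀ n, |f n| ≤ 1) (α a b : ℝ) :
    IntervalIntegrable (fun x : ℝ => f ⌊x ^ α⌋₊) volume a b := by
  have h1 : Measurable fun x : ℝ => f ⌊x ^ α⌋₊ :=
    (measurable_of_countable f).comp (Nat.measurable_floor.comp (measurable_id.pow_const α))
  have h2 : IntervalIntegrable (fun _ : ℝ => (1 : ℝ)) volume a b := intervalIntegrable_const
  refine h2.mono_fun h1.aestronglyMeasurable (Filter.Eventually.of_forall fun x => ?_)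
  simpa using hf _

private theorem p11_ind_int (u v a b : ℝ) :
    IntervalIntegrable ((Set.Icc u v).indicator (fun _ => (1 : ℝ))) volume a b := by
  have h2 : IntervalIntegrable (fun _ : ℝ => (1 : ℝ)) volume a b := intervalIntegrable_const
  refine h2.mono_fun (measurable_const.indicator measurableSet_Icc).aestronglyMeasurable
    (Filter.Eventually.of_forall fun x => ?_)
  simp only [norm_one]
  rw [Set.indicator_apply]
  split_ifs <;> simp

private theorem p11_ind (u v a b : ℝ) (hab : a ≤ b) :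
    ∫ x in a..b, (Set.Icc u v).indicator (fun _ => (1 : ℝ)) x ≤ max 0 (min v b - u) := by
  rw [intervalIntegral.integral_of_le hab, ← integral_indicator measurableSet_Ioc]
  have h1 : (Set.Ioc a b).indicator ((Set.Icc u v).indicator (fun _ => (1 : ℝ))) =
      (Set.Ioc a b ∩ Set.Icc u v).indicator (fun _ => (1 : ℝ)) := by
    rw [Set.indicator_indicator]
  rw [h1, integral_indicator (measurableSet_Ioc.inter measurableSet_Icc), setIntegral_const, smul_eq_mul,
    mul_one]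
  have h2 : Set.Ioc a b ∩ Set.Icc u v ⊆ Set.Icc u (min v b) := by
    rintro x ⟨⟨_, hx1⟩, hx2, hx3⟩
    exact ⟨hx2, le_min hx3 hx1⟩
  have h3 : volume.real (Set.Ioc a b ∩ Set.Icc u v) ≤ volume.real (Set.Icc u (min v b)) :=
    measureReal_mono h2 (by simp)
  refine h3.trans ?_
  rcases le_total u (min v b) with h | h
  · rw [Real.volume_real_Icc_of_le h]
    exact le_max_right _ _
  · have : volume.real (Set.Icc u (min v b)) ≤ 0 := by
      rw [Measure.real, Real.volume_Icc, ENNReal.ofReal_of_nonpos (by linarith)]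
      simp
    exact this.trans (le_max_left _ _)

private theorem p11_len (B K n : ℕ) (hK : 9 ≤ K) (hn : 1 ≤ n) (hnK : n ≤ K ^ B) (α β : ℝ)
    (hα : 1 ≤ α) (hαβ : α ≤ β) :
    max 0 (min ((n : ℝ) ^ (1 / α)) (K : ℝ) - (n : ℝ) ^ (1 / β)) ≤ (B : ℝ) * (K : ℝ) ^ 2 * (β - α) := by
  have hK0 : (0 : ℝ) < K := by exact_mod_cast (by omega : 0 < K)
  have hn0 : (0 : ℝ) < n := by exact_mod_cast (by omega : 0 < n)
  have hn1 : (1 : ℝ) ≤ n := by exact_mod_cast hn
  have hα0 : 0 < α := by linarith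
  have hβ0 : 0 < β := by linarith
  have hR : 0 ≤ (B : ℝ) * (K : ℝ) ^ 2 * (β - α) := by
    have : 0 ≤ β - α := by linarith
    positivity
  refine max_le hR ?_
  set y : ℝ := min ((n : ℝ) ^ (1 / α)) (K : ℝ) with hy
  set z : ℝ := (n : ℝ) ^ (1 / β) with hz
  have hy0 : 0 < y := lt_min (by positivity) hK0
  have hz0 : 0 < z := by positivity
  have hlogn : 0 ≤ Real.log n := Real.log_nonneg hn1
  have h1 : y - z ≤ y * (Real.log y - Real.log z) := by
    have h2 : Real.log (z / y) ≤ z / y - 1 := Real.log_le_sub_one_of_pos (by positivity)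
    rw [Real.log_div hz0.ne' hy0.ne'] at h2
    have h3 := mul_le_mul_of_nonneg_left h2 hy0.le
    have h4 : y * (z / y - 1) = z - y := by field_simp
    rw [h4] at h3
    linarith
  have h2 : Real.log y ≤ 1 / α * Real.log n := by
    rw [← Real.log_rpow hn0]
    exact Real.log_le_log hy0 (min_le_left _ _)
  have h3 : Real.log z = 1 / β * Real.log n := Real.log_rpow hn0 _
  have h4 : Real.log n ≤ B * K := by
    have h5 : (n : ℝ) ≤ (K : ℝ) ^ B := by exact_mod_cast hnK
    have h6 := Real.log_le_log hn0 h5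
    rw [Real.log_pow] at h6
    have h7 : Real.log (K : ℝ) ≤ K := (Real.log_le_sub_one_of_pos hK0).trans (by linarith)
    exact h6.trans (mul_le_mul_of_nonneg_left h7 (Nat.cast_nonneg B))
  have h5 : 1 / α - 1 / β ≤ β - α := by
    have h6 : 1 / α - 1 / β = (β - α) / (α * β) := by field_simp
    rw [h6]
    apply div_le_self (by linarith)
    nlinarith
  have h6 : 0 ≤ 1 / α - 1 / β := by
    rw [sub_nonneg]
    exact one_div_le_one_div_of_le hα0 hαβ
  have h7 : Real.log y - Real.log z ≤ (B * K) * (β - α) := by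
    calc Real.log y - Real.log z ≤ (1 / α - 1 / β) * Real.log n := by
          rw [h3]
          linarith
      _ ≤ (β - α) * (B * K) := mul_le_mul h5 h4 hlogn (by linarith)
      _ = (B * K) * (β - α) := by ring
  have hyK : y ≤ K := min_le_right _ _
  calc y - z ≤ y * (Real.log y - Real.log z) := h1
    _ ≤ y * ((B * K) * (β - α)) := mul_le_mul_of_nonneg_left h7 hy0.le
    _ ≤ K * ((B * K) * (β - α)) := by
        apply mul_le_mul_of_nonneg_right hyK
        have : 0 ≤ β - α := by linarith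
        positivity
    _ = (B : ℝ) * (K : ℝ) ^ 2 * (β - α) := by ring

/-- P11: the integral is Lipschitz in `α`. Hint: the integrand changes only on
`⋃_{n ≤ K^B} {x ∈ [√K, K] | x^α < n ≤ x^β}`; this set lies between `n^{1/β}` and
`min K (n^{1/α})`, and `y - z ≤ y (log y - log z)`, so its length is at most
`K log n (1/α - 1/β) ≤ K (B log K) (β - α)`. Total `≤ 2 (K^B + 1) K B log K (β - α)`. -/
theorem Md_lip (B : ℕ) (hB : 1 ≤ B) : ∃ C : ℝ, 0 < C ∧
    ∀ (f : ℕ → ℝ), (∀ n, |f n| ≤ 1) → ∀ (K : ℕ), 9 ≤ K → ∀ α β : ℝ, 1 ≤ α → α ≤ β → β ≤ B →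
    |Md f K α - Md f K β| ≤ C * (K : ℝ) ^ (B + 3) * (β - α) := by
  have hB0 : (0 : ℝ) < B := by exact_mod_cast hB
  refine ⟨2 * B, by positivity, ?_⟩
  intro f hf K hK α β hα hαβ hβ
  have hK0 : (0 : ℝ) < K := by exact_mod_cast (by omega : 0 < K)
  have hK1 : (1 : ℝ) ≤ K := by exact_mod_cast (by omega : 1 ≤ K)
  have hα0 : 0 < α := by linarith
  have hβ0 : 0 < β := by linarith
  have hs : Nat.sqrt K ≤ K := Nat.sqrt_le_self K
  have hs' : (Nat.sqrt K : ℝ) ≤ (K : ℝ) := by exact_mod_cast hs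
  have hs3 : 1 ≤ Nat.sqrt K := by
    rw [Nat.le_sqrt]
    omega
  have hs3' : (1 : ℝ) ≤ (Nat.sqrt K : ℝ) := by exact_mod_cast hs3
  unfold Md
  rw [← intervalIntegral.integral_sub (p11_int f hf α _ _) (p11_int f hf β _ _)]
  set G : ℝ → ℝ := fun x => ∑ n ∈ Finset.Icc 1 (K ^ B),
    2 * (Set.Icc ((n : ℝ) ^ (1 / β)) ((n : ℝ) ^ (1 / α))).indicator (fun _ => (1 : ℝ)) x with hG
  have hGi : IntervalIntegrable G volume (Nat.sqrt K : ℝ) (K : ℝ) := by
    rw [hG]
    have := IntervalIntegrable.sum (μ := volume) (a := (Nat.sqrt K : ℝ)) (b := (K : ℝ)) (Finset.Icc 1 (K ^ B))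
      (f := fun n : ℕ => fun x : ℝ => 2 * (Set.Icc ((n : ℝ) ^ (1 / β)) ((n : ℝ) ^ (1 / α))).indicator
        (fun _ => (1 : ℝ)) x) (fun n _ => (p11_ind_int _ _ _ _).const_mul 2)
    refine this.congr ?_
    intro x _
    simp only [Finset.sum_apply]
  have hbound : ∀ x ∈ Set.Ioc (Nat.sqrt K : ℝ) (K : ℝ),
      ‖f ⌊x ^ α⌋₊ - f ⌊x ^ β⌋₊‖ ≤ G x := by
    intro x hx
    have hx1 : 1 ≤ x := by linarith [hx.1]
    have hx0 : 0 < x := by linarith
    have hterm : ∀ n ∈ Finset.Icc 1 (K ^ B), 0 ≤ 2 * (Set.Icc ((n : ℝ) ^ (1 / β)) ((n : ℝ) ^ (1 / α))).indicator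
        (fun _ => (1 : ℝ)) x := by
      intro n _
      apply mul_nonneg (by norm_num)
      exact Set.indicator_nonneg (fun _ _ => zero_le_one) _
    by_cases heq : ⌊x ^ α⌋₊ = ⌊x ^ β⌋₊
    · rw [heq, sub_self, norm_zero]
      exact Finset.sum_nonneg hterm
    · have hle : x ^ α ≤ x ^ β := Real.rpow_le_rpow_of_exponent_le hx1 hαβ
      have hfl : ⌊x ^ α⌋₊ ≤ ⌊x ^ β⌋₊ := Nat.floor_mono hle
      have hlt : ⌊x ^ α⌋₊ < ⌊x ^ β⌋₊ := lt_of_le_of_ne hfl heq
      set n := ⌊x ^ β⌋₊ with hn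
      have hn1 : 1 ≤ n := by omega
      have hxα : x ^ α < n := (Nat.floor_lt (by positivity)).1 hlt
      have hxβ : (n : ℝ) ≤ x ^ β := Nat.floor_le (by positivity)
      have hnK : n ≤ K ^ B := by
        have h1 : x ^ β ≤ (K : ℝ) ^ B := by
          calc x ^ β ≤ (K : ℝ) ^ β := Real.rpow_le_rpow hx0.le hx.2 hβ0.le
            _ ≤ (K : ℝ) ^ (B : ℝ) := Real.rpow_le_rpow_of_exponent_le hK1 hβ
            _ = (K : ℝ) ^ B := Real.rpow_natCast _ _
        have h2 : (n : ℝ) ≤ ((K ^ B : ℕ) : ℝ) := by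
          push_cast
          exact hxβ.trans h1
        exact_mod_cast h2
      have hmem : x ∈ Set.Icc ((n : ℝ) ^ (1 / β)) ((n : ℝ) ^ (1 / α)) := by
        constructor
        · have h1 := Real.rpow_le_rpow (Nat.cast_nonneg n) hxβ (by positivity : 0 ≤ 1 / β)
          rw [← Real.rpow_mul hx0.le, mul_one_div_cancel hβ0.ne', Real.rpow_one] at h1
          exact h1
        · have h1 := Real.rpow_le_rpow (by positivity) hxα.le (by positivity : 0 ≤ 1 / α)
          rw [← Real.rpow_mul hx0.le, mul_one_div_cancel hα0.ne', Real.rpow_one] at h1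
          exact h1
      have hone : ‖f ⌊x ^ α⌋₊ - f n‖ ≤ 2 := by
        rw [Real.norm_eq_abs]
        refine (abs_sub _ _).trans ?_
        linarith [hf ⌊x ^ α⌋₊, hf n]
      refine hone.trans ?_
      have := Finset.single_le_sum (f := fun n : ℕ => 2 * (Set.Icc ((n : ℝ) ^ (1 / β))
        ((n : ℝ) ^ (1 / α))).indicator (fun _ => (1 : ℝ)) x) hterm (Finset.mem_Icc.2 ⟨hn1, hnK⟩)
      simp only [Set.indicator_of_mem hmem] at this
      linarith
  have h1 := intervalIntegral.norm_integral_le_of_norm_le hs' (Filter.Eventually.of_forall hbound) hGi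
  rw [Real.norm_eq_abs] at h1
  refine h1.trans ?_
  have h2 : ∫ x in (Nat.sqrt K : ℝ)..(K : ℝ), G x = ∑ n ∈ Finset.Icc 1 (K ^ B),
      2 * ∫ x in (Nat.sqrt K : ℝ)..(K : ℝ), (Set.Icc ((n : ℝ) ^ (1 / β)) ((n : ℝ) ^ (1 / α))).indicator
        (fun _ => (1 : ℝ)) x := by
    rw [hG, intervalIntegral.integral_finsetSum (fun n _ => (p11_ind_int _ _ _ _).const_mul 2)]
    refine Finset.sum_congr rfl fun n _ => ?_
    rw [intervalIntegral.integral_const_mul]
  rw [h2]
  have h3 : ∀ n ∈ Finset.Icc 1 (K ^ B), 2 * ∫ x in (Nat.sqrt K : ℝ)..(K : ℝ),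
      (Set.Icc ((n : ℝ) ^ (1 / β)) ((n : ℝ) ^ (1 / α))).indicator (fun _ => (1 : ℝ)) x ≤
      2 * ((B : ℝ) * (K : ℝ) ^ 2 * (β - α)) := by
    intro n hn
    obtain ⟨hn1, hn2⟩ := Finset.mem_Icc.1 hn
    exact mul_le_mul_of_nonneg_left ((p11_ind _ _ _ _ hs').trans (p11_len B K n hK hn1 hn2 α β hα hαβ)) (by norm_num)
  refine (Finset.sum_le_sum h3).trans ?_
  rw [Finset.sum_const, Nat.card_Icc, nsmul_eq_mul]
  have h4 : ((K ^ B + 1 - 1 : ℕ) : ℝ) = (K : ℝ) ^ B := by
    rw [Nat.add_sub_cancel]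
    push_cast
    rfl
  rw [h4]
  have h5 : 0 ≤ β - α := by linarith
  calc (K : ℝ) ^ B * (2 * ((B : ℝ) * (K : ℝ) ^ 2 * (β - α)))
      = 2 * B * (K : ℝ) ^ (B + 2) * (β - α) := by ring
    _ ≤ 2 * B * (K : ℝ) ^ (B + 3) * (β - α) := by
        apply mul_le_mul_of_nonneg_right _ h5
        apply mul_le_mul_of_nonneg_left _ (by positivity)
        exact pow_le_pow_right₀ hK1 (by omega)

end PS4
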