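import Pool.Agent.LibPS4.Defs

open MeasureTheory Finset

namespace PS4

/-- P12a: without a breakpoint in between the sum does not change. Hint: for each `k` (`k ≥ 2`) the
floors are equal: otherwise `n = ⌊k^β⌋` satisfies `k^α < n ≤ k^β ≤ K^β`, that is
`α < log n / log k ≤ β`. -/
theorem Sd_const (f : ℕ → ℝ) (K : ℕ) (α β : ℝ) (hα : 1 ≤ α) (hαβ : α ≤ β)
    (h : ∀ k ∈ Ioc (Nat.sqrt K) K, ∀ n : ℕ, (n : ℝ) ≤ (K : ℝ) ^ β →
      ¬ (α < Real.log n / Real.log k ∧ Real.log n / Real.log k ≤ β)) :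
    Sd f K α = Sd f K β := by
  unfold Sd
  refine Finset.sum_congr rfl fun k hk => ?_
  congr 1
  by_contra hne
  have hk' := Finset.mem_Ioc.1 hk
  have hk2 : 2 ≤ k := by
    rcases Nat.eq_zero_or_pos K with h0 | h0
    · omega
    · have : 1 ≤ Nat.sqrt K := Nat.sqrt_pos.2 h0
      omega
  have hkR : (2 : ℝ) ≤ k := by exact_mod_cast hk2
  have hkK : (k : ℝ) ≤ K := by exact_mod_cast hk'.2
  have hlogk : 0 < Real.log k := Real.log_pos (by linarith)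
  have hle : ⌊(k : ℝ) ^ α⌋₊ ≤ ⌊(k : ℝ) ^ β⌋₊ :=
    Nat.floor_mono (Real.rpow_le_rpow_of_exponent_le (by linarith) hαβ)
  have hlt : ⌊(k : ℝ) ^ α⌋₊ < ⌊(k : ℝ) ^ β⌋₊ := lt_of_le_of_ne hle hne
  have hn0 : ⌊(k : ℝ) ^ β⌋₊ ≠ 0 := by omega
  have h1 : (k : ℝ) ^ α < (⌊(k : ℝ) ^ β⌋₊ : ℝ) := (Nat.floor_lt' hn0).1 hlt
  have hkα : 0 < (k : ℝ) ^ α := Real.rpow_pos_of_pos (by linarith) _
  have hkβ : 0 < (k : ℝ) ^ β := Real.rpow_pos_of_pos (by linarith) _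
  have h2 : (⌊(k : ℝ) ^ β⌋₊ : ℝ) ≤ (k : ℝ) ^ β := Nat.floor_le hkβ.le
  have h3 : (k : ℝ) ^ β ≤ (K : ℝ) ^ β :=
    Real.rpow_le_rpow (by linarith) hkK (by linarith)
  have hnpos : 0 < (⌊(k : ℝ) ^ β⌋₊ : ℝ) := hkα.trans h1
  refine h k hk _ (h2.trans h3) ⟨?_, ?_⟩
  · rw [lt_div_iff₀ hlogk]
    calc α * Real.log k = Real.log ((k : ℝ) ^ α) := (Real.log_rpow (by linarith) _).symm
      _ < _ := Real.log_lt_log hkα h1
  · rw [div_le_iff₀ hlogk]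
    calc Real.log (⌊(k : ℝ) ^ β⌋₊ : ℝ) ≤ Real.log ((k : ℝ) ^ β) := Real.log_le_log hnpos h2
      _ = β * Real.log k := Real.log_rpow (by linarith) _

end PS4
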