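import Pool.Agent.LibPS4.P10b
import Pool.Agent.LibPS4.P11
import Pool.Agent.LibPS4.P12a

open MeasureTheory Finset

namespace PS4

private theorem cell_eq {M x : ℝ} {i : ℕ} (hM : 0 < M) (h1 : (i : ℝ) / M ≤ x)
    (h2 : x < ((i : ℝ) + 1) / M) : ⌊x * M⌋₊ = i := by
  rw [div_le_iff₀ hM] at h1
  rw [lt_div_iff₀ hM] at h2
  have hx : 0 ≤ x * M := le_trans (Nat.cast_nonneg i) h1
  exact (Nat.floor_eq_iff hx).2 ⟨h1, h2⟩

private theorem card_cells (M : ℝ) (hM : 0 < M) (I : Finset ℕ) (S : Set ℝ) (V : ℝ) (hV : 0 ≤ V)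
    (hS : volume S ≤ ENNReal.ofReal V)
    (hI : ∀ i ∈ I, Set.Ico ((i : ℝ) / M) (((i : ℝ) + 1) / M) ⊆ S) :
    (I.card : ℝ) ≤ V * M := by
  have hdisj : (I : Set ℕ).PairwiseDisjoint
      (fun i : ℕ => Set.Ico ((i : ℝ) / M) (((i : ℝ) + 1) / M)) := by
    intro i _ j _ hij
    rw [Function.onFun, Set.disjoint_left]
    rintro x ⟨hx1, hx2⟩ ⟨hy1, hy2⟩
    exact hij ((cell_eq hM hx1 hx2).symm.trans (cell_eq hM hy1 hy2))
  have h1 : volume (⋃ i ∈ I, Set.Ico ((i : ℝ) / M) (((i : ℝ) + 1) / M)) =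
      ∑ i ∈ I, volume (Set.Ico ((i : ℝ) / M) (((i : ℝ) + 1) / M)) :=
    measure_biUnion_finset hdisj (fun i _ => measurableSet_Ico)
  have h2 : volume (⋃ i ∈ I, Set.Ico ((i : ℝ) / M) (((i : ℝ) + 1) / M)) ≤ volume S :=
    measure_mono (Set.iUnion₂_subset hI)
  have h3 : ∀ i ∈ I, volume (Set.Ico ((i : ℝ) / M) (((i : ℝ) + 1) / M)) =
      ENNReal.ofReal (1 / M) := by
    intro i _
    rw [Real.volume_Ico]
    congr 1
    ring
  rw [h1, Finset.sum_congr rfl h3, Finset.sum_const, nsmul_eq_mul] at h2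
  have h4 : ENNReal.ofReal ((I.card : ℝ) * (1 / M)) ≤ ENNReal.ofReal V := by
    rw [ENNReal.ofReal_mul (Nat.cast_nonneg _), ENNReal.ofReal_natCast]
    exact h2.trans hS
  have h5 := (ENNReal.ofReal_le_ofReal_iff hV).1 h4
  rw [mul_one_div, div_le_iff₀ hM] at h5
  exact h5

/-- P12b: the cover of the bad set by few cells of the grid of mesh `δ = K^{-(B+4)}`. -/
theorem cover (B : ℕ) (hB : 1 ≤ B) : ∃ c C : ℝ, 0 < c ∧ c ≤ 1 / 4 ∧ 0 < C ∧
    ∀ (f : ℕ → ℝ), (∀ n, |f n| ≤ 1) → ∀ (K : ℕ), 9 ≤ K →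
    ∃ I : Finset ℕ, (I.card : ℝ) ≤ C * (K : ℝ) ^ ((B : ℝ) + 4 - c) ∧
      ∀ α : ℝ, 1 ≤ α → α < B → C * (K : ℝ) ^ (1 - c) < |Sd f K α - Md f K α| →
        ∃ i ∈ I, (i : ℝ) / (K : ℝ) ^ (B + 4) ≤ α ∧ α ≤ ((i : ℝ) + 1) / (K : ℝ) ^ (B + 4) := by
  classical
  obtain ⟨c0, C0, hc0, hc01, hC0, hcheb⟩ := cheb B hB
  obtain ⟨CL, hCL, hlip⟩ := Md_lip B hB
  set C : ℝ := 2 * CL + 4 * C0 + 4 with hCdef
  have hC4 : 4 ≤ C := by rw [hCdef]; nlinarith
  have hC4C0 : 4 * C0 ≤ C := by rw [hCdef]; nlinarith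
  have hC2CL : 2 * CL ≤ C := by rw [hCdef]; nlinarith
  refine ⟨c0 / 4, C, by positivity, by linarith, by linarith, ?_⟩
  intro f hf K hK
  have hK1 : (1 : ℝ) ≤ K := by
    have : 1 ≤ K := by omega
    exact_mod_cast this
  have hK0 : (0 : ℝ) < K := by linarith
  set M : ℝ := (K : ℝ) ^ (B + 4) with hM
  have hM0 : 0 < M := by positivity
  have hMnat : M = ((K ^ (B + 4) : ℕ) : ℝ) := by rw [hM]; push_cast; rfl
  set T : ℝ := C * (K : ℝ) ^ (1 - c0 / 4) with hT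
  have hKp : (1 : ℝ) ≤ (K : ℝ) ^ (1 - c0 / 4) := Real.one_le_rpow hK1 (by linarith)
  have hTC : C ≤ T := by
    rw [hT]; nlinarith
  have hT0 : 0 < T := by linarith
  set I₂ : Finset ℕ := ((Ioc (Nat.sqrt K) K) ×ˢ (range (K ^ B + 1))).image
    (fun p => ⌊(Real.log p.2 / Real.log p.1) * M⌋₊) with hI₂
  set I₁ : Finset ℕ := (Ico (K ^ (B + 4)) (B * K ^ (B + 4))).filter
    (fun i => ∀ α : ℝ, (i : ℝ) / M ≤ α → α < ((i : ℝ) + 1) / M →
      T / 2 ≤ |Sd f K α - Md f K α|) with hI₁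
  have hcell : ∀ i ∈ Ico (K ^ (B + 4)) (B * K ^ (B + 4)), ∀ α : ℝ, (i : ℝ) / M ≤ α →
      α < ((i : ℝ) + 1) / M → 1 ≤ α ∧ α < B := by
    intro i hi α h1 h2
    rw [mem_Ico] at hi
    have hi1 : M ≤ (i : ℝ) := by rw [hMnat]; exact_mod_cast hi.1
    have hi2 : (i : ℝ) + 1 ≤ B * M := by
      rw [hMnat]
      have : i + 1 ≤ B * K ^ (B + 4) := hi.2
      exact_mod_cast this
    constructor
    · refine le_trans ?_ h1
      rwa [le_div_iff₀ hM0, one_mul]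
    · refine lt_of_lt_of_le h2 ?_
      rwa [div_le_iff₀ hM0]
  -- the cardinalities
  have hcard2 : (I₂.card : ℝ) ≤ 2 * (K : ℝ) ^ ((B : ℝ) + 4 - c0 / 4) := by
    have h1 : I₂.card ≤ K * (K ^ B + 1) := by
      refine le_trans card_image_le ?_
      rw [card_product, Nat.card_Ioc, card_range]
      exact Nat.mul_le_mul_right _ (Nat.sub_le _ _)
    have h2 : (I₂.card : ℝ) ≤ K * ((K : ℝ) ^ B + 1) := by exact_mod_cast h1
    have h3 : (1 : ℝ) ≤ (K : ℝ) ^ B := one_le_pow₀ hK1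
    have h4 : (K : ℝ) * ((K : ℝ) ^ B + 1) ≤ 2 * (K : ℝ) ^ (B + 1) := by
      rw [pow_succ]; nlinarith
    have h5 : (K : ℝ) ^ (B + 1) ≤ (K : ℝ) ^ ((B : ℝ) + 4 - c0 / 4) := by
      rw [← Real.rpow_natCast]
      apply Real.rpow_le_rpow_of_exponent_le hK1
      push_cast
      linarith
    linarith
  have hcard1 : (I₁.card : ℝ) ≤ (K : ℝ) ^ ((B : ℝ) + 4 - c0 / 4) := by
    have h1 := card_cells M hM0 I₁ {α : ℝ | 1 ≤ α ∧ α ≤ B ∧ T / 2 ≤ |Sd f K α - Md f K α|}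
      (C0 * (K : ℝ) ^ (2 - c0) / (T / 2) ^ 2) (by positivity)
      (hcheb f hf K (T / 2) hK (by positivity)) ?_
    · refine le_trans h1 ?_
      have e1 : C0 * (K : ℝ) ^ (2 - c0) / (T / 2) ^ 2 * M =
          (4 * C0 / C ^ 2) * ((K : ℝ) ^ (2 - c0) / ((K : ℝ) ^ (1 - c0 / 4)) ^ 2 * M) := by
        rw [hT]
        have hC0' : C ≠ 0 := by linarith
        have hp : (K : ℝ) ^ (1 - c0 / 4) ≠ 0 := by positivity
        field_simp
        ring
      have e2 : (K : ℝ) ^ (2 - c0) / ((K : ℝ) ^ (1 - c0 / 4)) ^ 2 * M =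
          (K : ℝ) ^ ((B : ℝ) + 4 - c0 / 2) := by
        rw [hM, ← Real.rpow_natCast, ← Real.rpow_natCast, ← Real.rpow_mul hK0.le,
          ← Real.rpow_sub hK0, ← Real.rpow_add hK0]
        congr 1
        push_cast
        ring
      rw [e1, e2]
      have h2 : 4 * C0 / C ^ 2 ≤ 1 := by
        rw [div_le_one (by positivity)]
        nlinarith
      have h3 : (K : ℝ) ^ ((B : ℝ) + 4 - c0 / 2) ≤ (K : ℝ) ^ ((B : ℝ) + 4 - c0 / 4) :=
        Real.rpow_le_rpow_of_exponent_le hK1 (by linarith)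
      calc _ ≤ 1 * (K : ℝ) ^ ((B : ℝ) + 4 - c0 / 2) :=
            mul_le_mul_of_nonneg_right h2 (by positivity)
        _ ≤ _ := by rw [one_mul]; exact h3
    · intro i hi α hα
      rw [hI₁, mem_filter] at hi
      obtain ⟨h3, h4⟩ := hcell i hi.1 α hα.1 hα.2
      exact ⟨h3, h4.le, hi.2 α hα.1 hα.2⟩
  refine ⟨I₁ ∪ I₂, ?_, ?_⟩
  · have h1 : ((I₁ ∪ I₂).card : ℝ) ≤ I₁.card + I₂.card := by exact_mod_cast card_union_le _ _
    have h2 : (0 : ℝ) ≤ (K : ℝ) ^ ((B : ℝ) + 4 - c0 / 4) := by positivity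
    nlinarith
  intro α hα1 hαB hbad
  set i : ℕ := ⌊α * M⌋₊ with hi
  have hαM : 0 ≤ α * M := by positivity
  have hi1 : (i : ℝ) / M ≤ α := by
    rw [div_le_iff₀ hM0]; exact Nat.floor_le hαM
  have hi2 : α < ((i : ℝ) + 1) / M := by
    rw [lt_div_iff₀ hM0]; exact Nat.lt_floor_add_one _
  refine ⟨i, ?_, hi1, hi2.le⟩
  rw [mem_union]
  by_cases hI2 : i ∈ I₂
  · exact Or.inr hI2
  left
  have hiIco : i ∈ Ico (K ^ (B + 4)) (B * K ^ (B + 4)) := by
    rw [mem_Ico]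
    constructor
    · apply Nat.le_floor
      rw [← hMnat]
      nlinarith
    · rw [hi, Nat.floor_lt hαM]
      push_cast
      rw [← hM]
      exact mul_lt_mul_of_pos_right hαB hM0
  have hconst : ∀ u v : ℝ, (i : ℝ) / M ≤ u → u ≤ v → v < ((i : ℝ) + 1) / M →
      Sd f K u = Sd f K v := by
    intro u v hu huv hv
    have hu1 := (hcell i hiIco u hu (lt_of_le_of_lt huv hv)).1
    have hvB := (hcell i hiIco v (hu.trans huv) hv).2
    apply Sd_const f K u v hu1 huv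
    rintro k hk n hn ⟨h1, h2⟩
    apply hI2
    rw [hI₂, mem_image]
    refine ⟨(k, n), ?_, ?_⟩
    · rw [mem_product]
      refine ⟨hk, ?_⟩
      rw [mem_range]
      have h3 : (n : ℝ) ≤ (K : ℝ) ^ B := by
        refine hn.trans ?_
        rw [← Real.rpow_natCast]
        exact Real.rpow_le_rpow_of_exponent_le hK1 hvB.le
      have h4 : n ≤ K ^ B := by exact_mod_cast h3
      show n < K ^ B + 1
      omega
    · exact cell_eq hM0 (hu.trans h1.le) (lt_of_le_of_lt h2 hv)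
  rw [hI₁, mem_filter]
  refine ⟨hiIco, ?_⟩
  intro β hβ1 hβ2
  have hSd : Sd f K α = Sd f K β := by
    rcases le_total α β with h | h
    · exact hconst α β hi1 h hβ2
    · exact (hconst β α hβ1 h hi2).symm
  have hβ := hcell i hiIco β hβ1 hβ2
  have hdist : |α - β| ≤ 1 / M := by
    have e : ((i : ℝ) + 1) / M = (i : ℝ) / M + 1 / M := by ring
    rw [e] at hi2 hβ2
    rw [abs_le]
    constructor <;> linarith
  have hMd : |Md f K α - Md f K β| ≤ CL := by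
    have h1 : |Md f K α - Md f K β| ≤ CL * (K : ℝ) ^ (B + 3) * |α - β| := by
      rcases le_total α β with h | h
      · have := hlip f hf K hK α β hα1 h hβ.2.le
        rwa [abs_sub_comm α β, abs_of_nonneg (sub_nonneg.2 h)]
      · have := hlip f hf K hK β α hβ.1 h hαB.le
        rwa [abs_sub_comm (Md f K α), abs_of_nonneg (sub_nonneg.2 h)]
    refine h1.trans ?_
    have h2 : CL * (K : ℝ) ^ (B + 3) * |α - β| ≤ CL * (K : ℝ) ^ (B + 3) * (1 / M) :=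
      mul_le_mul_of_nonneg_left hdist (by positivity)
    refine h2.trans ?_
    have h3 : CL * (K : ℝ) ^ (B + 3) * (1 / M) = CL / K := by
      rw [hM, pow_succ (K : ℝ) (B + 3)]
      field_simp
    rw [h3, div_le_iff₀ hK0]
    nlinarith
  rw [hSd] at hbad
  have h5 : |Sd f K β - Md f K α| ≤ |Sd f K β - Md f K β| + |Md f K α - Md f K β| := by
    have : Sd f K β - Md f K α = (Sd f K β - Md f K β) - (Md f K α - Md f K β) := by ring
    rw [this]
    exact abs_sub _ _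
  linarith

end PS4
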