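import Pool.Agent.LibPS4.P12b
import Pool.Agent.LibPS4.P13

open MeasureTheory Finset Filter
open scoped Topology

namespace PS4

/-- P14: outside a set of dimension less than one, the sum is the integral up to a power saving
along a polynomial sequence. -/
theorem sparse (B : ℕ) (hB : 1 ≤ B) : ∃ (c C s : ℝ) (m : ℕ), 0 < c ∧ c ≤ 1 / 4 ∧ 0 < C ∧ 0 < s ∧
    s < 1 ∧ 1 ≤ m ∧
    ∀ (f : ℕ → ℝ), (∀ n, |f n| ≤ 1) →
    dimH {α : ℝ | 1 ≤ α ∧ α < B ∧
      ∃ᶠ j : ℕ in atTop, C * ((j ^ m : ℕ) : ℝ) ^ (1 - c) < |Sd f (j ^ m) α - Md f (j ^ m) α|} ≤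
      ENNReal.ofReal s := by
  classical
  obtain ⟨c, C, hc, hc1, hC, hcov⟩ := cover B hB
  obtain ⟨m, hm⟩ := exists_nat_ge (4 / c)
  have hB0 : (0 : ℝ) < (B : ℝ) + 4 := by positivity
  have hBB : (5 : ℝ) ≤ (B : ℝ) + 4 := by
    have : (1 : ℝ) ≤ B := by exact_mod_cast hB
    linarith
  have hm4 : 4 ≤ c * m := by
    rw [div_le_iff₀ hc] at hm
    linarith
  have hm1 : 1 ≤ m := by
    by_contra h
    have : m = 0 := by omega
    subst this
    simp at hm4
    linarith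
  set s : ℝ := 1 - c / (2 * ((B : ℝ) + 4)) with hs
  have hs1 : s < 1 := by
    rw [hs]
    have : 0 < c / (2 * ((B : ℝ) + 4)) := by positivity
    linarith
  have hs0 : 0 < s := by
    rw [hs, sub_pos, div_lt_one (by positivity)]
    linarith
  refine ⟨c, C, s, m, hc, hc1, hC, hs0, hs1, hm1, ?_⟩
  intro f hf
  have hI : ∀ K : ℕ, ∃ I : Finset ℕ, (I.card : ℝ) ≤ C * (K : ℝ) ^ ((B : ℝ) + 4 - c) ∧
      (9 ≤ K → ∀ α : ℝ, 1 ≤ α → α < B → C * (K : ℝ) ^ (1 - c) < |Sd f K α - Md f K α| →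
        ∃ i ∈ I, (i : ℝ) / (K : ℝ) ^ (B + 4) ≤ α ∧ α ≤ ((i : ℝ) + 1) / (K : ℝ) ^ (B + 4)) := by
    intro K
    by_cases h : 9 ≤ K
    · obtain ⟨I, h1, h2⟩ := hcov f hf K h
      exact ⟨I, h1, fun _ => h2⟩
    · refine ⟨∅, ?_, fun h' => absurd h' h⟩
      rw [card_empty, Nat.cast_zero]
      positivity
  choose I hI1 hI2 using hI
  apply dimH_limsup s hs0 (fun j => (j ^ m) ^ (B + 4)) (fun j => I (j ^ m))
  · have h1 : Tendsto (fun j : ℕ => (j ^ m) ^ (B + 4)) atTop atTop := by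
      have e : (fun j : ℕ => (j ^ m) ^ (B + 4)) = fun j : ℕ => j ^ (m * (B + 4)) := by
        ext j; rw [pow_mul]
      rw [e]
      exact tendsto_pow_atTop (by positivity)
    exact tendsto_natCast_atTop_atTop.comp h1
  · -- summability
    have hbase : Summable (fun j : ℕ => C * (1 / (j : ℝ) ^ (2 : ℕ))) :=
      (Real.summable_one_div_nat_pow.2 (by norm_num)).mul_left C
    refine Summable.of_nonneg_of_le (fun j => by positivity) (fun j => ?_) hbase
    rcases Nat.eq_zero_or_pos j with hj | hj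
    · subst hj
      have h0 : (((0 ^ m) ^ (B + 4) : ℕ) : ℝ) = 0 := by
        rw [zero_pow (by omega), zero_pow (by omega), Nat.cast_zero]
      rw [h0, Real.zero_rpow (by linarith), mul_zero]
      positivity
    · have hj1 : (1 : ℝ) ≤ j := by exact_mod_cast hj
      have hj0 : (0 : ℝ) < j := by linarith
      have hK1 : (1 : ℝ) ≤ (((j ^ m : ℕ)) : ℝ) := by
        push_cast
        exact one_le_pow₀ hj1
      have hK0 : (0 : ℝ) < (((j ^ m : ℕ)) : ℝ) := by linarith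
      have h1 := hI1 (j ^ m)
      have e1 : ((((j ^ m) ^ (B + 4) : ℕ)) : ℝ) ^ (-s) =
          ((j ^ m : ℕ) : ℝ) ^ (-(((B : ℝ) + 4) * s)) := by
        rw [Nat.cast_pow (j ^ m), ← Real.rpow_natCast (((j ^ m : ℕ)) : ℝ) (B + 4),
          ← Real.rpow_mul hK0.le]
        congr 1
        push_cast
        ring
      rw [e1]
      calc _ ≤ C * ((j ^ m : ℕ) : ℝ) ^ ((B : ℝ) + 4 - c) *
            ((j ^ m : ℕ) : ℝ) ^ (-(((B : ℝ) + 4) * s)) :=
            mul_le_mul_of_nonneg_right h1 (by positivity)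
        _ = C * ((j ^ m : ℕ) : ℝ) ^ (-(c / 2)) := by
            rw [mul_assoc, ← Real.rpow_add hK0]
            congr 2
            rw [hs]
            field_simp
            ring
        _ ≤ C * (1 / (j : ℝ) ^ (2 : ℕ)) := by
            apply mul_le_mul_of_nonneg_left _ hC.le
            rw [Nat.cast_pow, ← Real.rpow_natCast (j : ℝ) m, ← Real.rpow_mul hj0.le, one_div,
              ← Real.rpow_natCast (j : ℝ) 2, ← Real.rpow_neg hj0.le]
            apply Real.rpow_le_rpow_of_exponent_le hj1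
            push_cast
            nlinarith
  · rintro α ⟨ha1, ha2, ha3⟩
    have h9 : ∀ᶠ j : ℕ in atTop, 9 ≤ j ^ m := by
      filter_upwards [eventually_ge_atTop 9] with j hj
      exact hj.trans (Nat.le_self_pow (by omega) j)
    refine (ha3.and_eventually h9).mono ?_
    rintro j ⟨h1, h2⟩
    obtain ⟨i, hi, h3, h4⟩ := hI2 (j ^ m) h2 α ha1 ha2 h1
    refine ⟨i, hi, ?_, ?_⟩
    · rw [Nat.cast_pow (j ^ m)]
      exact h3
    · rw [Nat.cast_pow (j ^ m)]
      exact h4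

end PS4
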