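import Pool.Agent.LibPS4.Defs

open MeasureTheory Finset Filter
open scoped Topology

namespace PS4

private theorem p15_int (f : ℕ → ℝ) (hf : ∀ n, |f n| ≤ 1) (α a b : ℝ) :
    IntervalIntegrable (fun x : ℝ => f ⌊x ^ α⌋₊) volume a b := by
  have h1 : Measurable fun x : ℝ => f ⌊x ^ α⌋₊ :=
    (measurable_of_countable f).comp (Nat.measurable_floor.comp (measurable_id.pow_const α))
  have h2 : IntervalIntegrable (fun _ : ℝ => (1 : ℝ)) volume a b := intervalIntegrable_const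
  refine h2.mono_fun h1.aestronglyMeasurable (Eventually.of_forall fun x => ?_)
  simpa using hf _

private theorem p15_tail (f : ℕ → ℝ) (hf : ∀ n, |f n| ≤ 1) (α : ℝ) (a b : ℕ) (hab : a ≤ b) :
    |∑ k ∈ Ioc a b, f ⌊(k : ℝ) ^ α⌋₊ - ∫ x in (a : ℝ)..(b : ℝ), f ⌊x ^ α⌋₊| ≤ 2 * ((b : ℝ) - a) := by
  have hab' : (a : ℝ) ≤ b := by exact_mod_cast hab
  have h1 : |∑ k ∈ Ioc a b, f ⌊(k : ℝ) ^ α⌋₊| ≤ (b : ℝ) - a := by
    refine (Finset.abs_sum_le_sum_abs _ _).trans ((Finset.sum_le_sum fun k _ => hf _).trans ?_)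
    simp only [Finset.sum_const, Nat.card_Ioc, nsmul_eq_mul, mul_one]
    rw [Nat.cast_sub hab]
  have h2 : |∫ x in (a : ℝ)..(b : ℝ), f ⌊x ^ α⌋₊| ≤ (b : ℝ) - a := by
    have h3 := intervalIntegral.norm_integral_le_of_norm_le_const (a := (a : ℝ)) (b := (b : ℝ))
      (C := 1) (f := fun x : ℝ => f ⌊x ^ α⌋₊) (by
        intro t _
        exact hf _)
    rw [Real.norm_eq_abs, abs_of_nonneg (a := (b : ℝ) - a) (by linarith), one_mul] at h3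
    exact h3
  refine (abs_sub _ _).trans ?_
  linarith

private theorem p15_root (m : ℕ) (hm : 1 ≤ m) (K : ℕ) (hK : 1 ≤ K) :
    ∃ j : ℕ, 1 ≤ j ∧ j ^ m ≤ K ∧ K < (j + 1) ^ m := by
  classical
  refine ⟨Nat.findGreatest (fun j => j ^ m ≤ K) K, ?_, ?_, ?_⟩
  · exact Nat.le_findGreatest hK (by simpa using hK)
  · exact Nat.findGreatest_spec (P := fun j => j ^ m ≤ K) (m := 1) hK (by simpa using hK)
  · by_contra hcon
    push Not at hcon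
    set j := Nat.findGreatest (fun j => j ^ m ≤ K) K
    have h1 : j + 1 ≤ K := by
      calc j + 1 = (j + 1) ^ 1 := (pow_one _).symm
        _ ≤ (j + 1) ^ m := Nat.pow_le_pow_right (by omega) hm
        _ ≤ K := hcon
    have h2 : j + 1 ≤ j := Nat.le_findGreatest (P := fun j => j ^ m ≤ K) h1 hcon
    omega

private theorem p15_diff (m : ℕ) (hm : 1 ≤ m) (j K : ℕ) (hj : 1 ≤ j) (h1 : j ^ m ≤ K) (h2 : K < (j + 1) ^ m) :
    (K : ℝ) - ((j ^ m : ℕ) : ℝ) ≤ (m : ℝ) * 2 ^ m * (K : ℝ) ^ (1 - 1 / (m : ℝ)) := by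
  have hm0 : (0 : ℝ) < m := by exact_mod_cast hm
  have hK0 : (0 : ℝ) ≤ (K : ℝ) := Nat.cast_nonneg K
  obtain ⟨n, rfl⟩ : ∃ n, m = n + 1 := ⟨m - 1, by omega⟩
  have h3 : ((j : ℝ) + 1) ^ (n + 1) - (j : ℝ) ^ (n + 1) ≤ (n + 1) * ((j : ℝ) + 1) ^ n := by
    have hj0 : (0 : ℝ) ≤ j := Nat.cast_nonneg j
    clear h1 h2 hm hm0
    induction n with
    | zero => simp
    | succ n ih =>
      have e : ((j : ℝ) + 1) ^ (n + 1 + 1) - (j : ℝ) ^ (n + 1 + 1) =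
        ((j : ℝ) + 1) * (((j : ℝ) + 1) ^ (n + 1) - (j : ℝ) ^ (n + 1)) + (j : ℝ) ^ (n + 1) := by ring
      rw [e]
      have h4 : (j : ℝ) ^ (n + 1) ≤ ((j : ℝ) + 1) ^ (n + 1) := pow_le_pow_left₀ hj0 (by linarith) _
      have h5 := mul_le_mul_of_nonneg_left ih (by linarith : (0 : ℝ) ≤ (j : ℝ) + 1)
      push_cast
      calc _ ≤ ((j : ℝ) + 1) * ((n + 1) * ((j : ℝ) + 1) ^ n) + ((j : ℝ) + 1) ^ (n + 1) := add_le_add h5 h4
        _ = _ := by ring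
  have h4 : (K : ℝ) ≤ ((j : ℝ) + 1) ^ (n + 1) := by exact_mod_cast h2.le
  have hj1 : (1 : ℝ) ≤ j := by exact_mod_cast hj
  have h5 : ((j : ℝ) + 1) ^ n ≤ 2 ^ n * (j : ℝ) ^ n := by
    rw [← mul_pow]
    exact pow_le_pow_left₀ (by linarith) (by linarith) n
  have h6 : (j : ℝ) ≤ (K : ℝ) ^ (1 / ((n : ℝ) + 1)) := by
    have h7 : (j : ℝ) ^ (n + 1) ≤ K := by exact_mod_cast h1
    have h8 : ((j : ℝ) ^ (n + 1)) ^ (1 / ((n : ℝ) + 1)) ≤ (K : ℝ) ^ (1 / ((n : ℝ) + 1)) :=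
      Real.rpow_le_rpow (by positivity) h7 (by positivity)
    have h9 : ((j : ℝ) ^ (n + 1)) ^ (1 / ((n : ℝ) + 1)) = j := by
      rw [← Real.rpow_natCast, ← Real.rpow_mul (by linarith)]
      push_cast
      rw [mul_one_div_cancel (by positivity), Real.rpow_one]
    rwa [h9] at h8
  have h7 : (j : ℝ) ^ n ≤ (K : ℝ) ^ (1 - 1 / ((n : ℝ) + 1)) := by
    have h8 : (j : ℝ) ^ n ≤ ((K : ℝ) ^ (1 / ((n : ℝ) + 1))) ^ n := pow_le_pow_left₀ (by linarith) h6 n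
    refine h8.trans (le_of_eq ?_)
    rw [← Real.rpow_natCast, ← Real.rpow_mul hK0]
    congr 1
    field_simp
    ring
  push_cast
  have hK1 : (0 : ℝ) ≤ (K : ℝ) ^ (1 - 1 / ((n : ℝ) + 1)) := by positivity
  have h9 : (0 : ℝ) < 2 ^ n := by positivity
  calc (K : ℝ) - (j : ℝ) ^ (n + 1) ≤ ((j : ℝ) + 1) ^ (n + 1) - (j : ℝ) ^ (n + 1) := by linarith
    _ ≤ (n + 1) * ((j : ℝ) + 1) ^ n := h3
    _ ≤ (n + 1) * (2 ^ n * (j : ℝ) ^ n) := mul_le_mul_of_nonneg_left h5 (by positivity)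
    _ ≤ (n + 1) * (2 ^ n * (K : ℝ) ^ (1 - 1 / ((n : ℝ) + 1))) := by gcongr
    _ ≤ (n + 1) * (2 ^ (n + 1) * (K : ℝ) ^ (1 - 1 / ((n : ℝ) + 1))) := by
        gcongr
        · norm_num
        · omega
    _ = _ := by ring

/-- P15: from a polynomial sequence to all `K`. Hint: `j = ⌊K^{1/m}⌋`, `j^m ≤ K < (j+1)^m`,
`(j+1)^m - j^m ≤ m 2^{m-1} j^{m-1} ≤ m 2^{m-1} K^{1-1/m}`; the parts `[1, √(j^m)]` and
`(j^m, K]` are trivial (the function is bounded by 1); for small `j` everything is bounded. -/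
theorem sparse_to_all (f : ℕ → ℝ) (hf : ∀ n, |f n| ≤ 1) (α : ℝ) (hα : 1 ≤ α) (m : ℕ) (hm : 1 ≤ m)
    (c C : ℝ) (hc : 0 < c) (hc1 : c ≤ 1 / 4) (hC : 0 < C)
    (h : ∀ᶠ j : ℕ in atTop, |Sd f (j ^ m) α - Md f (j ^ m) α| ≤ C * ((j ^ m : ℕ) : ℝ) ^ (1 - c)) :
    ∃ c' C' : ℝ, 0 < c' ∧ c' < 1 ∧ 0 < C' ∧ ∀ K : ℕ, 1 ≤ K →
      |∑ k ∈ Icc 1 K, f ⌊(k : ℝ) ^ α⌋₊ - ∫ x in (1 : ℝ)..(K : ℝ), f ⌊x ^ α⌋₊| ≤
        C' * (K : ℝ) ^ (1 - c') := by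
  obtain ⟨j0, hj0⟩ := eventually_atTop.1 h
  have hm0 : (0 : ℝ) < m := by exact_mod_cast hm
  set c' : ℝ := min c (1 / (m : ℝ)) with hc'
  have hc'0 : 0 < c' := lt_min hc (by positivity)
  have hc'1 : c' ≤ c := min_le_left _ _
  have hc'2 : c' ≤ 1 / (m : ℝ) := min_le_right _ _
  refine ⟨c', C + 2 * (j0 : ℝ) ^ m + 4 + 2 * ((m : ℝ) * 2 ^ m), hc'0, by linarith, by positivity, ?_⟩
  intro K hK
  have hK1 : (1 : ℝ) ≤ K := by exact_mod_cast hK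
  obtain ⟨j, hj1, hjK, hKj⟩ := p15_root m hm K hK
  have hmono : ∀ e : ℝ, e ≤ 1 - c' → (K : ℝ) ^ e ≤ (K : ℝ) ^ (1 - c') := fun e he =>
    Real.rpow_le_rpow_of_exponent_le hK1 he
  have hone : 1 ≤ (K : ℝ) ^ (1 - c') := Real.one_le_rpow hK1 (by linarith)
  set N : ℕ := j ^ m with hN
  have hN1 : 1 ≤ N := Nat.one_le_pow _ _ hj1
  have hs1 : 1 ≤ Nat.sqrt N := by
    rw [Nat.le_sqrt]
    simpa using hN1
  have hsN : Nat.sqrt N ≤ N := Nat.sqrt_le_self N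
  -- decomposition
  have e1 : ∑ k ∈ Icc 1 K, f ⌊(k : ℝ) ^ α⌋₊ = f ⌊((1 : ℕ) : ℝ) ^ α⌋₊ +
      (∑ k ∈ Ioc 1 (Nat.sqrt N), f ⌊(k : ℝ) ^ α⌋₊ + (Sd f N α + ∑ k ∈ Ioc N K, f ⌊(k : ℝ) ^ α⌋₊)) := by
    have a1 : Icc 1 K = insert 1 (Ioc 1 K) := by
      ext k
      simp only [Finset.mem_Icc, Finset.mem_insert, Finset.mem_Ioc]
      omega
    rw [a1, Finset.sum_insert (by simp)]
    have a2 := Finset.sum_Ioc_consecutive (fun k : ℕ => f ⌊(k : ℝ) ^ α⌋₊) hs1 (hsN.trans hjK)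
    have a3 := Finset.sum_Ioc_consecutive (fun k : ℕ => f ⌊(k : ℝ) ^ α⌋₊) hsN hjK
    rw [← a2, ← a3]
    rfl
  have e2 : ∫ x in (1 : ℝ)..(K : ℝ), f ⌊x ^ α⌋₊ = (∫ x in ((1 : ℕ) : ℝ)..(Nat.sqrt N : ℝ), f ⌊x ^ α⌋₊) +
      (Md f N α + ∫ x in (N : ℝ)..(K : ℝ), f ⌊x ^ α⌋₊) := by
    unfold Md
    rw [intervalIntegral.integral_add_adjacent_intervals (p15_int f hf α _ _) (p15_int f hf α _ _),
      intervalIntegral.integral_add_adjacent_intervals (p15_int f hf α _ _) (p15_int f hf α _ _)]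
    norm_num
  have b1 := p15_tail f hf α 1 (Nat.sqrt N) hs1
  have b3 := p15_tail f hf α N K hjK
  have b0 : |f ⌊((1 : ℕ) : ℝ) ^ α⌋₊| ≤ 1 := hf _
  -- the square root
  have c1 : (Nat.sqrt N : ℝ) ≤ (K : ℝ) ^ (1 - c') := by
    have d1 : (Nat.sqrt N : ℝ) ^ 2 ≤ K := by
      have d2 : Nat.sqrt N ^ 2 ≤ K := (Nat.sqrt_le' N).trans hjK
      exact_mod_cast d2
    have d3 : (Nat.sqrt N : ℝ) ≤ (K : ℝ) ^ (1 / 2 : ℝ) := by
      rw [← Real.sqrt_eq_rpow]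
      exact Real.le_sqrt_of_sq_le d1
    exact d3.trans (hmono _ (by linarith))
  have c3 : (K : ℝ) - (N : ℝ) ≤ (m : ℝ) * 2 ^ m * (K : ℝ) ^ (1 - c') := by
    refine (p15_diff m hm j K hj1 hjK hKj).trans ?_
    exact mul_le_mul_of_nonneg_left (hmono _ (by linarith)) (by positivity)
  have c2 : |Sd f N α - Md f N α| ≤ (C + 2 * (j0 : ℝ) ^ m) * (K : ℝ) ^ (1 - c') := by
    have hNK : (N : ℝ) ≤ K := by exact_mod_cast hjK
    rcases le_or_gt j0 j with hjj | hjj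
    · refine (hj0 j hjj).trans ?_
      have d1 : ((j ^ m : ℕ) : ℝ) ^ (1 - c) ≤ (K : ℝ) ^ (1 - c') := by
        refine (Real.rpow_le_rpow (Nat.cast_nonneg _) (by exact_mod_cast hjK) (by linarith)).trans
          (hmono _ (by linarith))
      calc C * ((j ^ m : ℕ) : ℝ) ^ (1 - c) ≤ C * (K : ℝ) ^ (1 - c') := mul_le_mul_of_nonneg_left d1 hC.le
        _ ≤ (C + 2 * (j0 : ℝ) ^ m) * (K : ℝ) ^ (1 - c') := by
            apply mul_le_mul_of_nonneg_right _ (by positivity)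
            have : (0 : ℝ) ≤ 2 * (j0 : ℝ) ^ m := by positivity
            linarith
    · have d0 := p15_tail f hf α (Nat.sqrt N) N hsN
      have d1 : |Sd f N α - Md f N α| ≤ 2 * (N : ℝ) := by
        refine d0.trans ?_
        have : (0 : ℝ) ≤ (Nat.sqrt N : ℝ) := Nat.cast_nonneg _
        linarith
      have d2 : (N : ℝ) ≤ (j0 : ℝ) ^ m := by
        rw [hN]
        push_cast
        exact pow_le_pow_left₀ (Nat.cast_nonneg j) (by exact_mod_cast hjj.le) m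
      have d3 : (0 : ℝ) ≤ (j0 : ℝ) ^ m := by positivity
      calc |Sd f N α - Md f N α| ≤ 2 * (j0 : ℝ) ^ m := by linarith
        _ ≤ (C + 2 * (j0 : ℝ) ^ m) := by linarith
        _ ≤ (C + 2 * (j0 : ℝ) ^ m) * (K : ℝ) ^ (1 - c') := le_mul_of_one_le_right (by positivity) hone
  rw [e1, e2]
  have hfin : |f ⌊((1 : ℕ) : ℝ) ^ α⌋₊ + (∑ k ∈ Ioc 1 (Nat.sqrt N), f ⌊(k : ℝ) ^ α⌋₊ +
      (Sd f N α + ∑ k ∈ Ioc N K, f ⌊(k : ℝ) ^ α⌋₊)) -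
      ((∫ x in ((1 : ℕ) : ℝ)..(Nat.sqrt N : ℝ), f ⌊x ^ α⌋₊) +
        (Md f N α + ∫ x in (N : ℝ)..(K : ℝ), f ⌊x ^ α⌋₊))| ≤
      1 + 2 * ((Nat.sqrt N : ℝ) - ((1 : ℕ) : ℝ)) + (C + 2 * (j0 : ℝ) ^ m) * (K : ℝ) ^ (1 - c') +
        2 * ((K : ℝ) - N) := by
    have z0 := abs_le.1 b0
    have z1 := abs_le.1 b1
    have z2 := abs_le.1 c2
    have z3 := abs_le.1 b3
    rw [abs_le]
    constructor <;> linarith [z0.1, z0.2, z1.1, z1.2, z2.1, z2.2, z3.1, z3.2]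
  refine hfin.trans ?_
  push_cast
  have : (0 : ℝ) ≤ (Nat.sqrt N : ℝ) := Nat.cast_nonneg _
  nlinarith
end PS4
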