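import Pool.Agent.LibPS4.Defs

open MeasureTheory Finset Filter
open scoped Topology

namespace PS4

private theorem step {α : ℝ} (hα : 1 ≤ α) (k : ℕ) (hk : 1 ≤ k) :
    (k : ℝ) ^ α + 1 ≤ ((k + 1 : ℕ) : ℝ) ^ α := by
  have h := Real.add_rpow_le_rpow_add (p := α) (Nat.cast_nonneg k : (0:ℝ) ≤ k) zero_le_one hα
  rw [Real.one_rpow] at h
  push_cast
  exact h

private theorem floor_lt {α : ℝ} (hα : 1 ≤ α) (k l : ℕ) (hk : 1 ≤ k) (hkl : k < l) :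
    ⌊(k : ℝ) ^ α⌋₊ < ⌊(l : ℝ) ^ α⌋₊ := by
  have h1 := step hα k hk
  have h2 : ((k + 1 : ℕ) : ℝ) ^ α ≤ (l : ℝ) ^ α := by
    apply Real.rpow_le_rpow (by positivity) _ (by linarith)
    exact_mod_cast hkl
  have h3 : (⌊(k : ℝ) ^ α⌋₊ : ℝ) + 1 ≤ (l : ℝ) ^ α := by
    have := Nat.floor_le (a := (k : ℝ) ^ α) (by positivity)
    linarith
  have h4 : ⌊(k : ℝ) ^ α⌋₊ + 1 ≤ ⌊(l : ℝ) ^ α⌋₊ := by
    apply Nat.le_floor
    push_cast
    exact h3
  omega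

/-- P16a: the number of primes `⌊k^α⌋ ≤ x` is a sum over `k`. -/
theorem piA_eq (α x : ℝ) (hα : 1 ≤ α) (hx : 1 ≤ x) :
    ∃ K : ℕ, 1 ≤ K ∧ (K : ℝ) ≤ ((⌊x⌋₊ : ℝ) + 1) ^ (1 / α) ∧
      ((⌊x⌋₊ : ℝ) + 1) ^ (1 / α) ≤ K + 1 ∧
      piA α x = ∑ k ∈ Icc 1 K, prI ⌊(k : ℝ) ^ α⌋₊ := by
  classical
  have hα0 : 0 < α := by linarith
  set N : ℕ := ⌊x⌋₊ with hN
  have hN1 : 1 ≤ N := Nat.le_floor (by simpa using hx)
  set y : ℝ := ((N : ℝ) + 1) ^ (1 / α) with hy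
  have hy0 : 0 < y := by positivity
  have hyα : y ^ α = (N : ℝ) + 1 := by
    rw [hy, ← Real.rpow_mul (by positivity), one_div, inv_mul_cancel₀ hα0.ne', Real.rpow_one]
  -- the largest integer below y
  set K : ℕ := ⌈y⌉₊ - 1 with hK
  have hceil : 1 ≤ ⌈y⌉₊ := Nat.one_le_ceil_iff.2 hy0
  have hK1 : K + 1 = ⌈y⌉₊ := by omega
  have hlt : ∀ k : ℕ, k ≤ K ↔ (k : ℝ) < y := by
    intro k
    rw [← Nat.lt_ceil]
    omega
  have hy1 : 1 < y := by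
    rw [hy]
    apply Real.one_lt_rpow _ (by positivity)
    have : (1 : ℝ) ≤ N := by exact_mod_cast hN1
    linarith
  have hKone : 1 ≤ K := (hlt 1).2 (by simpa using hy1)
  refine ⟨K, hKone, ((hlt K).1 le_rfl).le, ?_, ?_⟩
  · have := Nat.le_ceil y
    rw [← hK1] at this
    push_cast at this
    exact this
  · -- the set
    have hmem : ∀ k : ℕ, 1 ≤ k → (k ≤ K ↔ ⌊(k : ℝ) ^ α⌋₊ ≤ N) := by
      intro k hk
      rw [hlt k]
      have h1 : (k : ℝ) < y ↔ (k : ℝ) ^ α < (N : ℝ) + 1 := by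
        rw [← hyα]
        exact (Real.rpow_lt_rpow_iff (Nat.cast_nonneg k) hy0.le hα0).symm
      rw [h1]
      have h2 : (k : ℝ) ^ α < (N : ℝ) + 1 ↔ ⌊(k : ℝ) ^ α⌋₊ < N + 1 := by
        rw [Nat.floor_lt (by positivity)]
        push_cast
        rfl
      rw [h2, Nat.lt_succ_iff]
    have hset : {p : ℕ | (p : ℝ) ≤ x ∧ p.Prime ∧ ∃ k : ℕ, 1 ≤ k ∧ ⌊(k : ℝ) ^ α⌋₊ = p} =
        (((Icc 1 K).filter (fun k : ℕ => (⌊(k : ℝ) ^ α⌋₊).Prime)).image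
          (fun k : ℕ => ⌊(k : ℝ) ^ α⌋₊) : Finset ℕ) := by
      ext p
      simp only [Set.mem_setOf_eq, coe_image, Set.mem_image, mem_coe, mem_filter, mem_Icc]
      constructor
      · rintro ⟨h1, h2, k, hk, rfl⟩
        refine ⟨k, ⟨⟨hk, ?_⟩, h2⟩, rfl⟩
        rw [hmem k hk]
        exact Nat.le_floor h1
      · rintro ⟨k, ⟨⟨hk, hkK⟩, h2⟩, rfl⟩
        refine ⟨?_, h2, k, hk, rfl⟩
        rw [hmem k hk] at hkK
        exact (Nat.le_floor_iff (by linarith)).1 hkK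
    unfold piA
    rw [hset, Set.ncard_coe_finset, card_image_of_injOn, Finset.card_filter]
    · push_cast
      apply Finset.sum_congr rfl
      intro k _
      unfold prI
      rfl
    · intro k hk l hl hkl
      simp only [coe_filter, mem_Icc, Set.mem_setOf_eq] at hk hl
      rcases lt_trichotomy k l with h | h | h
      · exact absurd hkl (floor_lt hα k l hk.1.1 h).ne
      · exact h
      · exact absurd hkl (floor_lt hα l k hl.1.1 h).ne'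

end PS4
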