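import Pool.Agent.LibPS4.Defs

open MeasureTheory Finset Filter
open scoped Topology

namespace PS4

private theorem prI_meas (α : ℝ) : Measurable (fun t : ℝ => prI ⌊t ^ α⌋₊) := by
  have h1 : Measurable (fun t : ℝ => t ^ α) := measurable_id.pow_const α
  have h2 : Measurable (fun t : ℝ => ⌊t ^ α⌋₊) := Nat.measurable_floor.comp h1
  exact (measurable_from_top (f := prI)).comp h2

private theorem prI_nn (n : ℕ) : 0 ≤ prI n := by
  unfold prI; split_ifs <;> norm_num

private theorem prI_le (n : ℕ) : prI n ≤ 1 := by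
  unfold prI; split_ifs <;> norm_num

private theorem prI_norm (n : ℕ) : ‖prI n‖ ≤ 1 := by
  rw [Real.norm_of_nonneg (prI_nn n)]; exact prI_le n

/-- The function is interval integrable. -/
theorem prI_intervalIntegrable (α a b : ℝ) :
    IntervalIntegrable (fun t : ℝ => prI ⌊t ^ α⌋₊) volume a b := by
  refine IntervalIntegrable.mono_fun' (g := fun _ => (1 : ℝ)) intervalIntegrable_const
    (prI_meas α).aestronglyMeasurable ?_
  exact Eventually.of_forall fun t => prI_norm _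

private theorem piece (α : ℝ) (hα : 1 ≤ α) (N : ℕ) :
    ∫ t in ((N : ℝ) + 1) ^ (1 / α)..((N : ℝ) + 1 + 1) ^ (1 / α), prI ⌊t ^ α⌋₊ =
      prI (N + 1) * (((N : ℝ) + 1 + 1) ^ (1 / α) - ((N : ℝ) + 1) ^ (1 / α)) := by
  have hα0 : 0 < α := by linarith
  have hN0 : (0 : ℝ) ≤ N := Nat.cast_nonneg N
  have hle : ((N : ℝ) + 1) ^ (1 / α) ≤ ((N : ℝ) + 1 + 1) ^ (1 / α) :=
    Real.rpow_le_rpow (by linarith) (by linarith) (by positivity)
  have key : ∀ t ∈ Set.Ioo (((N : ℝ) + 1) ^ (1 / α)) (((N : ℝ) + 1 + 1) ^ (1 / α)),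
      prI ⌊t ^ α⌋₊ = prI (N + 1) := by
    intro t ht
    have hp : (0 : ℝ) < ((N : ℝ) + 1) ^ (1 / α) := Real.rpow_pos_of_pos (by linarith) _
    have ht0 : 0 < t := hp.trans ht.1
    have h1 : (N : ℝ) + 1 ≤ t ^ α := by
      have := Real.rpow_le_rpow hp.le ht.1.le hα0.le
      rwa [← Real.rpow_mul (by linarith), one_div, inv_mul_cancel₀ hα0.ne', Real.rpow_one] at this
    have h2 : t ^ α < (N : ℝ) + 1 + 1 := by
      have := Real.rpow_lt_rpow ht0.le ht.2 hα0
      rwa [← Real.rpow_mul (by linarith), one_div, inv_mul_cancel₀ hα0.ne', Real.rpow_one] at this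
    have h3 : ⌊t ^ α⌋₊ = N + 1 := by
      rw [Nat.floor_eq_iff (by positivity)]
      push_cast
      exact ⟨h1, h2⟩
    rw [h3]
  rw [intervalIntegral.integral_of_le hle, ← setIntegral_congr_set Ioo_ae_eq_Ioc,
    setIntegral_congr_fun measurableSet_Ioo key, setIntegral_const]
  simp only [smul_eq_mul, Measure.real, Real.volume_Ioo]
  rw [ENNReal.toReal_ofReal (by linarith)]
  ring

private theorem main (α : ℝ) (hα : 1 ≤ α) (N : ℕ) :
    ∑ p ∈ (Finset.range (N + 1)).filter Nat.Prime,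
      (((p : ℝ) + 1) ^ (1 / α) - (p : ℝ) ^ (1 / α)) =
      ∫ t in (1 : ℝ)..((N : ℝ) + 1) ^ (1 / α), prI ⌊t ^ α⌋₊ := by
  induction N with
  | zero =>
    have h0 : (Finset.range (0 + 1)).filter Nat.Prime = ∅ := by decide
    rw [h0]
    simp
  | succ N ih =>
    have hstep : ∫ t in (1 : ℝ)..(((N + 1 : ℕ) : ℝ) + 1) ^ (1 / α), prI ⌊t ^ α⌋₊ =
        (∫ t in (1 : ℝ)..((N : ℝ) + 1) ^ (1 / α), prI ⌊t ^ α⌋₊) +
        ∫ t in ((N : ℝ) + 1) ^ (1 / α)..((N : ℝ) + 1 + 1) ^ (1 / α), prI ⌊t ^ α⌋₊ := by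
      rw [intervalIntegral.integral_add_adjacent_intervals
        (prI_intervalIntegrable α _ _) (prI_intervalIntegrable α _ _)]
      push_cast
      rfl
    rw [hstep, piece α hα N, ← ih, Finset.range_add_one (n := N + 1), Finset.filter_insert]
    by_cases hp : (N + 1).Prime
    · rw [if_pos hp, Finset.sum_insert (by simp)]
      have : prI (N + 1) = 1 := by unfold prI; rw [if_pos hp]
      rw [this]
      push_cast
      ring
    · rw [if_neg hp]
      have : prI (N + 1) = 0 := by unfold prI; rw [if_neg hp]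
      rw [this]
      ring

/-- P16b: the expected number is an integral. Hint: `⌊t^α⌋ = n` exactly for
`n^{1/α} ≤ t < (n+1)^{1/α}`; e.g. induction on `⌊x⌋₊` with
`intervalIntegral.integral_add_adjacent_intervals` (the integrand is measurable and bounded). -/
theorem expA_eq (α x : ℝ) (hα : 1 ≤ α) (hx : 1 ≤ x) :
    expA α x = ∫ t in (1 : ℝ)..((⌊x⌋₊ : ℝ) + 1) ^ (1 / α), prI ⌊t ^ α⌋₊ := by
  unfold expA
  exact main α hα ⌊x⌋₊

end PS4
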