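import Pool.Agent.LibPS4.P16a
import Pool.Agent.LibPS4.P16b

open MeasureTheory Finset Filter
open scoped Topology

namespace PS4

private theorem prI_norm_le (n : ℕ) : ‖prI n‖ ≤ 1 := by
  unfold prI; split_ifs <;> simp

/-- P16c: the difference. Hint: with `K` of `piA_eq`, `|piA - expA| ≤ C' K^{1-c'} + 1` and
`K ≤ (x+1)^{1/α} ≤ (2x)^{1/α}`. -/
theorem piA_sub_expA (α : ℝ) (hα : 1 ≤ α) (c' C' : ℝ) (hc : 0 < c') (hc1 : c' < 1) (hC : 0 < C')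
    (h : ∀ K : ℕ, 1 ≤ K →
      |∑ k ∈ Icc 1 K, prI ⌊(k : ℝ) ^ α⌋₊ - ∫ x in (1 : ℝ)..(K : ℝ), prI ⌊x ^ α⌋₊| ≤
        C' * (K : ℝ) ^ (1 - c')) :
    (fun x : ℝ => piA α x - expA α x) =O[atTop] (fun x : ℝ => x ^ ((1 - c') / α)) := by
  have hα0 : 0 < α := by linarith
  have hc2 : 0 < 1 - c' := by linarith
  set M : ℝ := C' * (2 : ℝ) ^ ((1 - c') / α) + 1 with hM
  refine Asymptotics.IsBigO.of_bound M ?_
  filter_upwards [eventually_ge_atTop (1 : ℝ)] with x hx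
  obtain ⟨K, hK1, hK2, hK3, hK4⟩ := piA_eq α x hα hx
  have hK0 : (0 : ℝ) ≤ K := Nat.cast_nonneg K
  have hfl : (⌊x⌋₊ : ℝ) ≤ x := Nat.floor_le (by linarith)
  set y : ℝ := ((⌊x⌋₊ : ℝ) + 1) ^ (1 / α) with hy
  have hint : ∫ t in (1 : ℝ)..y, prI ⌊t ^ α⌋₊ =
      (∫ t in (1 : ℝ)..(K : ℝ), prI ⌊t ^ α⌋₊) + ∫ t in (K : ℝ)..y, prI ⌊t ^ α⌋₊ :=
    (intervalIntegral.integral_add_adjacent_intervals
      (prI_intervalIntegrable α _ _) (prI_intervalIntegrable α _ _)).symm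
  have htail : ‖∫ t in (K : ℝ)..y, prI ⌊t ^ α⌋₊‖ ≤ 1 := by
    have h1 := intervalIntegral.norm_integral_le_of_norm_le_const (a := (K : ℝ)) (b := y)
      (f := fun t : ℝ => prI ⌊t ^ α⌋₊) (C := 1) (fun t _ => prI_norm_le _)
    refine h1.trans ?_
    rw [abs_of_nonneg (by linarith)]
    linarith
  have hy2 : y ≤ (2 * x) ^ (1 / α) :=
    Real.rpow_le_rpow (by positivity) (by linarith) (by positivity)
  have hKx : (K : ℝ) ^ (1 - c') ≤ (2 : ℝ) ^ ((1 - c') / α) * x ^ ((1 - c') / α) := by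
    calc (K : ℝ) ^ (1 - c') ≤ ((2 * x) ^ (1 / α)) ^ (1 - c') :=
          Real.rpow_le_rpow hK0 (hK2.trans hy2) hc2.le
      _ = (2 * x) ^ ((1 - c') / α) := by
          rw [← Real.rpow_mul (by linarith)]; congr 1; ring
      _ = (2 : ℝ) ^ ((1 - c') / α) * x ^ ((1 - c') / α) :=
          Real.mul_rpow (by norm_num) (by linarith)
  have hx1 : (1 : ℝ) ≤ x ^ ((1 - c') / α) := Real.one_le_rpow hx (by positivity)
  rw [hK4, expA_eq α x hα hx, ← hy, hint]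
  rw [Real.norm_of_nonneg (Real.rpow_nonneg (by linarith) _)]
  have hmain := h K hK1
  calc ‖∑ k ∈ Icc 1 K, prI ⌊(k : ℝ) ^ α⌋₊ -
        ((∫ t in (1 : ℝ)..(K : ℝ), prI ⌊t ^ α⌋₊) + ∫ t in (K : ℝ)..y, prI ⌊t ^ α⌋₊)‖
      = ‖(∑ k ∈ Icc 1 K, prI ⌊(k : ℝ) ^ α⌋₊ - ∫ t in (1 : ℝ)..(K : ℝ), prI ⌊t ^ α⌋₊) -
        ∫ t in (K : ℝ)..y, prI ⌊t ^ α⌋₊‖ := by congr 1; ring
    _ ≤ ‖∑ k ∈ Icc 1 K, prI ⌊(k : ℝ) ^ α⌋₊ - ∫ t in (1 : ℝ)..(K : ℝ), prI ⌊t ^ α⌋₊‖ +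
        ‖∫ t in (K : ℝ)..y, prI ⌊t ^ α⌋₊‖ := norm_sub_le _ _
    _ ≤ C' * (K : ℝ) ^ (1 - c') + 1 := by
        rw [Real.norm_eq_abs]
        exact add_le_add hmain htail
    _ ≤ C' * ((2 : ℝ) ^ ((1 - c') / α) * x ^ ((1 - c') / α)) + x ^ ((1 - c') / α) :=
        add_le_add (mul_le_mul_of_nonneg_left hKx hC.le) hx1
    _ = M * x ^ ((1 - c') / α) := by rw [hM]; ring

end PS4
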