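import Mathlib

open MeasureTheory Finset Filter Asymptotics
open scoped Topology

namespace PS4

private theorem abel_id (d W : ℕ → ℝ) (N : ℕ) :
    ∑ n ∈ range (N + 1), d n * W n =
      (∑ n ∈ range (N + 1), d n) * W N +
        ∑ n ∈ range N, (∑ m ∈ range (n + 1), d m) * (W n - W (n + 1)) := by
  induction N with
  | zero => simp
  | succ N ih =>
    rw [sum_range_succ, ih, sum_range_succ (f := d) (n := N + 1),
      sum_range_succ (f := fun n => (∑ m ∈ range (n + 1), d m) * (W n - W (n + 1)))]
    ring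

/-- P17a: a comparison of weighted sums with monotone weights. Hint: Abel summation,
`∑_{n ≤ N} a n W n = A(N) W(N) + ∑_{n < N} A(n) (W n - W (n+1))`, all terms nonnegative, and
`|A(n) - B(n)| ≤ ε B(n)` for `n ≥ n₀`. -/
theorem abel_compare (a b W : ℕ → ℝ) (ha : ∀ n, 0 ≤ a n) (hb : ∀ n, 0 ≤ b n) (hW : ∀ n, 0 ≤ W n)
    (hanti : Antitone W)
    (hab : Tendsto (fun N : ℕ => (∑ n ∈ range (N + 1), a n) / ∑ n ∈ range (N + 1), b n)
      atTop (𝓝 1))
    (hdiv : Tendsto (fun N : ℕ => ∑ n ∈ range (N + 1), b n * W n) atTop atTop) :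
    Tendsto (fun N : ℕ => (∑ n ∈ range (N + 1), a n * W n) / ∑ n ∈ range (N + 1), b n * W n)
      atTop (𝓝 1) := by
  rw [Metric.tendsto_atTop] at hab ⊢
  intro ε hε
  -- the comparison of the partial sums
  obtain ⟨n₀, hn₀⟩ := hab (min (ε / 4) (1 / 2)) (by positivity)
  set A : ℕ → ℝ := fun n => ∑ m ∈ range (n + 1), a m with hA
  set B : ℕ → ℝ := fun n => ∑ m ∈ range (n + 1), b m with hB
  have hBnn : ∀ n, 0 ≤ B n := fun n => sum_nonneg fun m _ => hb m
  have hcomp : ∀ n, n₀ ≤ n → |A n - B n| ≤ ε / 4 * B n := by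
    intro n hn
    have h1 := hn₀ n hn
    rw [Real.dist_eq] at h1
    have hBpos : 0 < B n := by
      rcases (hBnn n).lt_or_eq with h | h
      · exact h
      · exfalso
        have h2 : |A n / B n - 1| < 1 / 2 := lt_of_lt_of_le h1 (min_le_right _ _)
        rw [← h] at h2
        simp only [div_zero, zero_sub, abs_neg, abs_one] at h2
        norm_num at h2
    have h3 : |A n / B n - 1| < ε / 4 := lt_of_lt_of_le h1 (min_le_left _ _)
    have h4 : A n / B n - 1 = (A n - B n) / B n := by field_simp
    rw [h4, abs_div, abs_of_pos hBpos, div_lt_iff₀ hBpos] at h3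
    exact h3.le
  -- the constant from the small indices
  set C : ℝ := ∑ n ∈ range n₀, |A n - B n| * (W n - W (n + 1)) with hCdef
  have hWd : ∀ n, 0 ≤ W n - W (n + 1) := fun n => sub_nonneg.mpr (hanti (Nat.le_succ n))
  have hC0 : 0 ≤ C := sum_nonneg fun n _ => mul_nonneg (abs_nonneg _) (hWd n)
  have hbound : ∀ N, n₀ ≤ N →
      |(∑ n ∈ range (N + 1), a n * W n) - ∑ n ∈ range (N + 1), b n * W n| ≤
        ε / 4 * (∑ n ∈ range (N + 1), b n * W n) + C := by
    intro N hN
    have hd : (∑ n ∈ range (N + 1), a n * W n) - ∑ n ∈ range (N + 1), b n * W n =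
        (A N - B N) * W N + ∑ n ∈ range N, (A n - B n) * (W n - W (n + 1)) := by
      rw [abel_id a W N, abel_id b W N]
      simp only [hA, hB, sub_mul, sum_sub_distrib]
      ring
    have hSB : (∑ n ∈ range (N + 1), b n * W n) =
        B N * W N + ∑ n ∈ range N, B n * (W n - W (n + 1)) := abel_id b W N
    rw [hd, hSB]
    have h1 : |(A N - B N) * W N| ≤ ε / 4 * (B N * W N) := by
      rw [abs_mul, abs_of_nonneg (hW N)]
      have := mul_le_mul_of_nonneg_right (hcomp N hN) (hW N)
      linarith
    have h2 : |∑ n ∈ range N, (A n - B n) * (W n - W (n + 1))| ≤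
        ε / 4 * (∑ n ∈ range N, B n * (W n - W (n + 1))) + C := by
      calc |∑ n ∈ range N, (A n - B n) * (W n - W (n + 1))|
          ≤ ∑ n ∈ range N, |(A n - B n) * (W n - W (n + 1))| := abs_sum_le_sum_abs _ _
        _ = ∑ n ∈ range N, |A n - B n| * (W n - W (n + 1)) := by
            refine sum_congr rfl fun n _ => ?_
            rw [abs_mul, abs_of_nonneg (hWd n)]
        _ ≤ ∑ n ∈ range N, (ε / 4 * (B n * (W n - W (n + 1))) +
              if n < n₀ then |A n - B n| * (W n - W (n + 1)) else 0) := by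
            refine sum_le_sum fun n _ => ?_
            by_cases hn : n < n₀
            · rw [if_pos hn]
              have : 0 ≤ ε / 4 * (B n * (W n - W (n + 1))) :=
                mul_nonneg (by positivity) (mul_nonneg (hBnn n) (hWd n))
              linarith
            · rw [if_neg hn, add_zero]
              have := mul_le_mul_of_nonneg_right (hcomp n (not_lt.mp hn)) (hWd n)
              linarith
        _ = ε / 4 * (∑ n ∈ range N, B n * (W n - W (n + 1))) +
              ∑ n ∈ (range N).filter (fun n => n < n₀), |A n - B n| * (W n - W (n + 1)) := by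
            rw [sum_add_distrib, mul_sum, sum_filter]
        _ ≤ ε / 4 * (∑ n ∈ range N, B n * (W n - W (n + 1))) + C := by
            refine add_le_add le_rfl ?_
            refine sum_le_sum_of_subset_of_nonneg ?_ fun n _ _ =>
              mul_nonneg (abs_nonneg _) (hWd n)
            intro n hn
            rw [mem_filter] at hn
            exact mem_range.mpr hn.2
    calc |(A N - B N) * W N + ∑ n ∈ range N, (A n - B n) * (W n - W (n + 1))|
        ≤ |(A N - B N) * W N| + |∑ n ∈ range N, (A n - B n) * (W n - W (n + 1))| :=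
          abs_add_le _ _
      _ ≤ ε / 4 * (B N * W N) +
            (ε / 4 * (∑ n ∈ range N, B n * (W n - W (n + 1))) + C) := add_le_add h1 h2
      _ = ε / 4 * (B N * W N + ∑ n ∈ range N, B n * (W n - W (n + 1))) + C := by ring
  -- conclusion
  obtain ⟨n₁, hn₁⟩ := (tendsto_atTop.mp hdiv (4 * C / ε + 1)).exists_forall_of_atTop
  refine ⟨max n₀ n₁, fun N hN => ?_⟩
  have hN0 : n₀ ≤ N := (le_max_left _ _).trans hN
  have hN1 : n₁ ≤ N := (le_max_right _ _).trans hN
  have hS := hn₁ N hN1
  set S : ℝ := ∑ n ∈ range (N + 1), b n * W n with hSdef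
  have hSpos : 0 < S := by
    have : 0 ≤ 4 * C / ε := by positivity
    linarith
  have hCS : C ≤ ε / 4 * S := by
    have h5 : 4 * C / ε ≤ S := by linarith
    rw [div_le_iff₀ hε] at h5
    linarith
  rw [Real.dist_eq]
  have h6 : (∑ n ∈ range (N + 1), a n * W n) / S - 1 =
      ((∑ n ∈ range (N + 1), a n * W n) - S) / S := by field_simp
  rw [h6, abs_div, abs_of_pos hSpos, div_lt_iff₀ hSpos]
  have h7 := hbound N hN0
  have h8 : 0 < ε * S := by positivity
  linarith

end PS4
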