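import Mathlib

open MeasureTheory Finset Filter Asymptotics
open scoped Topology

namespace PS4

private theorem p17b_tel (γ : ℝ) {a b : ℕ} (hab : a ≤ b) :
    ∑ n ∈ Ico a b, (((n : ℝ) + 1) ^ γ - (n : ℝ) ^ γ) = (b : ℝ) ^ γ - (a : ℝ) ^ γ := by
  have h := Finset.sum_Ico_eq_sub (fun n : ℕ => ((n : ℝ) + 1) ^ γ - (n : ℝ) ^ γ) hab
  have h2 : ∀ m : ℕ, ∑ n ∈ range m, (((n : ℝ) + 1) ^ γ - (n : ℝ) ^ γ) =
      (m : ℝ) ^ γ - ((0 : ℕ) : ℝ) ^ γ := by
    intro m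
    have h3 := Finset.sum_range_sub (fun n : ℕ => (n : ℝ) ^ γ) m
    rw [← h3]
    refine Finset.sum_congr rfl fun n _ => ?_
    push_cast
    ring
  rw [h, h2, h2]
  ring

private theorem p17b_nonneg (γ : ℝ) (h0 : 0 < γ) (n : ℕ) :
    0 ≤ ((n : ℝ) + 1) ^ γ - (n : ℝ) ^ γ := by
  have h1 : (n : ℝ) ^ γ ≤ ((n : ℝ) + 1) ^ γ :=
    Real.rpow_le_rpow (Nat.cast_nonneg n) (by linarith) h0.le
  linarith

private theorem p17b_split (γ : ℝ) {N : ℕ} (hN : 2 ≤ N) :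
    (∑ n ∈ range (N + 1), (if 2 ≤ n then (Real.log n)⁻¹ else 0) *
      (((n : ℝ) + 1) ^ γ - (n : ℝ) ^ γ)) =
    ∑ n ∈ Ico (2 : ℕ) (N + 1), (Real.log n)⁻¹ * (((n : ℝ) + 1) ^ γ - (n : ℝ) ^ γ) := by
  rw [Finset.range_eq_Ico, ← Finset.sum_Ico_consecutive _ (Nat.zero_le 2) (by omega : 2 ≤ N + 1)]
  have h1 : ∑ n ∈ Ico (0 : ℕ) 2, (if 2 ≤ n then (Real.log n)⁻¹ else 0) *
      (((n : ℝ) + 1) ^ γ - (n : ℝ) ^ γ) = 0 := by
    refine Finset.sum_eq_zero fun n hn => ?_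
    rw [if_neg (by rw [Finset.mem_Ico] at hn; omega), zero_mul]
  rw [h1, zero_add]
  refine Finset.sum_congr rfl fun n hn => ?_
  rw [if_pos (Finset.mem_Ico.1 hn).1]

private theorem p17b_lower (γ : ℝ) (h0 : 0 < γ) {N : ℕ} (hN : 2 ≤ N) :
    (Real.log N)⁻¹ * (((N : ℝ) + 1) ^ γ - 2 ^ γ) ≤
    ∑ n ∈ Ico (2 : ℕ) (N + 1), (Real.log n)⁻¹ * (((n : ℝ) + 1) ^ γ - (n : ℝ) ^ γ) := by
  have h1 := p17b_tel γ (show 2 ≤ N + 1 by omega)
  push_cast at h1
  rw [← h1, Finset.mul_sum]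
  refine Finset.sum_le_sum fun n hn => ?_
  rw [Finset.mem_Ico] at hn
  refine mul_le_mul_of_nonneg_right ?_ (p17b_nonneg γ h0 n)
  have hn2 : (2 : ℝ) ≤ n := by exact_mod_cast hn.1
  have hnN : (n : ℝ) ≤ N := by exact_mod_cast (show n ≤ N by omega)
  exact inv_anti₀ (Real.log_pos (by linarith)) (Real.log_le_log (by linarith) hnN)

private theorem p17b_block (γ : ℝ) (h0 : 0 < γ) {a b : ℕ} (_ha : 2 ≤ a) (hab : a ≤ b) {L : ℝ}
    (hL : 0 < L) (haL : ∀ n ∈ Ico a b, L ≤ Real.log n) :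
    ∑ n ∈ Ico a b, (Real.log n)⁻¹ * (((n : ℝ) + 1) ^ γ - (n : ℝ) ^ γ) ≤
      L⁻¹ * (b : ℝ) ^ γ := by
  have h1 : ∑ n ∈ Ico a b, (Real.log n)⁻¹ * (((n : ℝ) + 1) ^ γ - (n : ℝ) ^ γ) ≤
      ∑ n ∈ Ico a b, L⁻¹ * (((n : ℝ) + 1) ^ γ - (n : ℝ) ^ γ) :=
    Finset.sum_le_sum fun n hn =>
      mul_le_mul_of_nonneg_right (inv_anti₀ hL (haL n hn)) (p17b_nonneg γ h0 n)
  rw [← Finset.mul_sum, p17b_tel γ hab] at h1
  refine h1.trans (mul_le_mul_of_nonneg_left ?_ (inv_nonneg.2 hL.le))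
  have : 0 ≤ (a : ℝ) ^ γ := Real.rpow_nonneg (Nat.cast_nonneg a) γ
  linarith

private theorem p17b_upper (γ : ℝ) (h0 : 0 < γ) (h1 : γ ≤ 1) (δ : ℝ) (hδ : 0 < δ) (hδ1 : δ < 1)
    {N : ℕ} (hN : 2 ≤ N) :
    ∑ n ∈ Ico (2 : ℕ) (N + 1), (Real.log n)⁻¹ * (((n : ℝ) + 1) ^ γ - (n : ℝ) ^ γ) ≤
      (Real.log 2)⁻¹ * (2 * (N : ℝ) ^ ((1 - δ) * γ)) +
        ((1 - δ) * Real.log N)⁻¹ * ((N : ℝ) + 1) ^ γ := by
  have hN1 : (1 : ℝ) ≤ N := by exact_mod_cast (show 1 ≤ N by omega)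
  have hN2 : (2 : ℝ) ≤ N := by exact_mod_cast hN
  have hN0 : (0 : ℝ) < N := by linarith
  set m : ℕ := ⌊(N : ℝ) ^ (1 - δ)⌋₊ + 1 with hm
  have hpow1 : (1 : ℝ) ≤ (N : ℝ) ^ (1 - δ) := Real.one_le_rpow hN1 (by linarith)
  have hpowN : (N : ℝ) ^ (1 - δ) ≤ N := by
    have := Real.rpow_le_rpow_of_exponent_le hN1 (show 1 - δ ≤ 1 by linarith)
    rwa [Real.rpow_one] at this
  have hm2 : 2 ≤ m := by
    have : 1 ≤ ⌊(N : ℝ) ^ (1 - δ)⌋₊ := Nat.le_floor (by simpa using hpow1)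
    omega
  have hmN : m ≤ N + 1 := by
    have : ⌊(N : ℝ) ^ (1 - δ)⌋₊ ≤ N := Nat.floor_le_of_le hpowN
    omega
  have hmlt : (N : ℝ) ^ (1 - δ) < m := by
    have := Nat.lt_floor_add_one ((N : ℝ) ^ (1 - δ))
    rw [hm]
    push_cast
    exact this
  have hmle : (m : ℝ) ≤ 2 * (N : ℝ) ^ (1 - δ) := by
    have := Nat.floor_le (show 0 ≤ (N : ℝ) ^ (1 - δ) by linarith)
    rw [hm]
    push_cast
    linarith
  rw [← Finset.sum_Ico_consecutive _ hm2 hmN]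
  have hlog2 : 0 < Real.log 2 := Real.log_pos (by norm_num)
  have hlogN : 0 < Real.log N := Real.log_pos (by linarith)
  refine add_le_add ?_ ?_
  · refine (p17b_block γ h0 le_rfl hm2 hlog2 ?_).trans ?_
    · intro n hn
      rw [Finset.mem_Ico] at hn
      exact Real.log_le_log (by norm_num) (by exact_mod_cast hn.1)
    · refine mul_le_mul_of_nonneg_left ?_ (inv_nonneg.2 hlog2.le)
      calc (m : ℝ) ^ γ ≤ (2 * (N : ℝ) ^ (1 - δ)) ^ γ :=
            Real.rpow_le_rpow (Nat.cast_nonneg m) hmle h0.le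
        _ = 2 ^ γ * (N : ℝ) ^ ((1 - δ) * γ) := by
            rw [Real.mul_rpow (by norm_num) (by linarith), ← Real.rpow_mul hN0.le]
        _ ≤ 2 * (N : ℝ) ^ ((1 - δ) * γ) := by
            refine mul_le_mul_of_nonneg_right ?_ (Real.rpow_nonneg hN0.le _)
            have := Real.rpow_le_rpow_of_exponent_le (show (1 : ℝ) ≤ 2 by norm_num) h1
            rwa [Real.rpow_one] at this
  · have hL : 0 < (1 - δ) * Real.log N := mul_pos (by linarith) hlogN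
    have h2 := p17b_block γ h0 hm2 hmN hL ?_
    · push_cast at h2
      exact h2
    · intro n hn
      rw [Finset.mem_Ico] at hn
      rw [← Real.log_rpow hN0]
      refine Real.log_le_log (by linarith) ?_
      have : (m : ℝ) ≤ n := by exact_mod_cast hn.1
      linarith

/-- P17b: the model sum. Hint: lower bound by `((N+1)^γ - 2^γ) / log N`; upper bound: for
`δ ∈ (0,1)` split at `N^{1-δ}`: `≤ 2 (N^{1-δ}+1)^γ / log 2 + (N+1)^γ / ((1-δ) log N)`. (Or: the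
Stolz-Cesaro principle.) -/
theorem model_sum (γ : ℝ) (h0 : 0 < γ) (h1 : γ ≤ 1) :
    Tendsto (fun N : ℕ => (∑ n ∈ range (N + 1), (if 2 ≤ n then (Real.log n)⁻¹ else 0) *
      (((n : ℝ) + 1) ^ γ - (n : ℝ) ^ γ)) / ((N : ℝ) ^ γ / Real.log N)) atTop (𝓝 1) := by
  -- the ratio `((N+1)/N)^γ`
  have hr : Tendsto (fun N : ℕ => (((N : ℝ) + 1) / N) ^ γ) atTop (𝓝 1) := by
    have h2 : Tendsto (fun N : ℕ => ((N : ℝ) + 1) / N) atTop (𝓝 1) := by
      have h3 : Tendsto (fun N : ℕ => 1 + 1 / (N : ℝ)) atTop (𝓝 (1 + 0)) :=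
        tendsto_const_nhds.add tendsto_one_div_atTop_nhds_zero_nat
      rw [add_zero] at h3
      refine h3.congr' ?_
      filter_upwards [eventually_gt_atTop 0] with N hN
      have : (N : ℝ) ≠ 0 := by exact_mod_cast hN.ne'
      field_simp
    have h4 := h2.rpow_const (p := γ) (Or.inl one_ne_zero)
    rwa [Real.one_rpow] at h4
  have hNγ : Tendsto (fun N : ℕ => (N : ℝ) ^ γ) atTop atTop :=
    (tendsto_rpow_atTop h0).comp tendsto_natCast_atTop_atTop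
  rw [tendsto_order]
  constructor
  · intro l hl
    -- lower bound
    have h2 : Tendsto (fun N : ℕ => (((N : ℝ) + 1) / N) ^ γ - 2 ^ γ / (N : ℝ) ^ γ) atTop
        (𝓝 (1 - 0)) := hr.sub (tendsto_const_nhds.div_atTop hNγ)
    rw [sub_zero] at h2
    filter_upwards [h2.eventually_const_lt hl, eventually_ge_atTop 2] with N h3 hN
    refine h3.trans_le ?_
    rw [p17b_split γ hN]
    have hN2 : (2 : ℝ) ≤ N := by exact_mod_cast hN
    have hN0 : (0 : ℝ) < N := by linarith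
    have hlogN : 0 < Real.log N := Real.log_pos (by linarith)
    have hp : 0 < (N : ℝ) ^ γ := Real.rpow_pos_of_pos hN0 γ
    rw [le_div_iff₀ (div_pos hp hlogN)]
    refine le_trans (le_of_eq ?_) (p17b_lower γ h0 hN)
    rw [Real.div_rpow (by linarith) hN0.le]
    field_simp
  · intro u hu
    set δ : ℝ := (u - 1) / (2 * u) with hδ
    have hu0 : 0 < u := by linarith
    have hδ0 : 0 < δ := div_pos (by linarith) (by linarith)
    have hδ1 : δ < 1 := by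
      rw [hδ, div_lt_one (by linarith)]
      linarith
    have hδu : 1 / (1 - δ) < u := by
      rw [div_lt_iff₀ (by linarith)]
      have : u * (1 - δ) = (u + 1) / 2 := by
        rw [hδ]
        field_simp
        ring
      rw [this]
      linarith
    have hlog : Tendsto (fun N : ℕ => Real.log N / (N : ℝ) ^ (δ * γ)) atTop (𝓝 0) :=
      ((isLittleO_log_rpow_atTop (mul_pos hδ0 h0)).tendsto_div_nhds_zero).comp
        tendsto_natCast_atTop_atTop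
    have h2 : Tendsto (fun N : ℕ => 2 / Real.log 2 * (Real.log N / (N : ℝ) ^ (δ * γ)) +
        1 / (1 - δ) * (((N : ℝ) + 1) / N) ^ γ) atTop
        (𝓝 (2 / Real.log 2 * 0 + 1 / (1 - δ) * 1)) :=
      (hlog.const_mul _).add (hr.const_mul _)
    rw [mul_zero, zero_add, mul_one] at h2
    filter_upwards [h2.eventually_lt_const hδu, eventually_ge_atTop 2] with N h3 hN
    refine lt_of_le_of_lt ?_ h3
    rw [p17b_split γ hN]
    have hN2 : (2 : ℝ) ≤ N := by exact_mod_cast hN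
    have hN0 : (0 : ℝ) < N := by linarith
    have hlogN : 0 < Real.log N := Real.log_pos (by linarith)
    have hlog2 : 0 < Real.log 2 := Real.log_pos (by norm_num)
    have hp : 0 < (N : ℝ) ^ γ := Real.rpow_pos_of_pos hN0 γ
    rw [div_le_iff₀ (div_pos hp hlogN)]
    refine (p17b_upper γ h0 h1 δ hδ0 hδ1 hN).trans (le_of_eq ?_)
    rw [Real.div_rpow (by linarith) hN0.le]
    have e1 : (N : ℝ) ^ ((1 - δ) * γ) = (N : ℝ) ^ γ / (N : ℝ) ^ (δ * γ) := by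
      rw [← Real.rpow_sub hN0]
      congr 1
      ring
    rw [e1]
    have hp2 : 0 < (N : ℝ) ^ (δ * γ) := Real.rpow_pos_of_pos hN0 _
    have hδ' : (1 - δ) ≠ 0 := by linarith
    field_simp

end PS4
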