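import Pool.Agent.LibPS4.Defs
import Pool.Agent.LibPS4.P17a
import Pool.Agent.LibPS4.P17b
import Pool.Agent.LibPNT.PNT

open MeasureTheory Finset Filter Asymptotics
open scoped Topology

namespace PS4

theorem p17c_sum_prI (N : ℕ) : ∑ n ∈ range (N + 1), prI n = (Nat.primeCounting N : ℝ) := by
  rw [Nat.primeCounting, Nat.primeCounting', Nat.count_eq_card_filter_range, Finset.card_filter]
  push_cast
  rfl

theorem p17c_pc : Tendsto (fun N : ℕ => (∑ n ∈ range (N + 1), prI n) / ((N : ℝ) / Real.log N))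
    atTop (𝓝 1) := by
  have h := Pool.Agent.LibPNT.primeCounting_tendsto.comp (tendsto_natCast_atTop_atTop (R := ℝ))
  refine h.congr fun N => ?_
  simp only [Function.comp_apply, Nat.floor_natCast]
  rw [p17c_sum_prI, div_div_eq_mul_div]

theorem p17c_anti (γ : ℝ) (h0 : 0 < γ) (h1 : γ ≤ 1) :
    Antitone (fun n : ℕ => ((n : ℝ) + 1) ^ γ - (n : ℝ) ^ γ) := by
  refine antitone_nat_of_succ_le fun n => ?_
  have hx : (n : ℝ) ∈ Set.Ici (0 : ℝ) := Set.mem_Ici.2 (by positivity)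
  have hy : (n : ℝ) + 1 + 1 ∈ Set.Ici (0 : ℝ) := Set.mem_Ici.2 (by positivity)
  have hc := (Real.concaveOn_rpow h0.le h1).2 hx hy
    (show (0 : ℝ) ≤ 1 / 2 by norm_num) (show (0 : ℝ) ≤ 1 / 2 by norm_num) (by norm_num)
  simp only [smul_eq_mul] at hc
  have h2 : (1 / 2 : ℝ) * n + 1 / 2 * ((n : ℝ) + 1 + 1) = (n : ℝ) + 1 := by ring
  rw [h2] at hc
  push_cast
  linarith

theorem p17c_model_atTop (γ : ℝ) (h0 : 0 < γ) :
    Tendsto (fun N : ℕ => (N : ℝ) ^ γ / Real.log N) atTop atTop := by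
  have h1 := (isLittleO_log_rpow_atTop h0).tendsto_div_nhds_zero
  have h2 : Tendsto (fun x : ℝ => Real.log x / x ^ γ) atTop (𝓝[>] 0) := by
    refine tendsto_nhdsWithin_iff.2 ⟨h1, ?_⟩
    filter_upwards [eventually_gt_atTop 1] with x hx
    have := Real.log_pos hx
    exact div_pos this (Real.rpow_pos_of_pos (by linarith) _)
  have h3 := h2.inv_tendsto_nhdsGT_zero.comp (tendsto_natCast_atTop_atTop (R := ℝ))
  refine h3.congr fun N => ?_
  simp only [Function.comp_apply, Pi.inv_apply, inv_div]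

/-- for integers -/
theorem p17c_nat (γ : ℝ) (h0 : 0 < γ) (h1 : γ ≤ 1) :
    Tendsto (fun N : ℕ => (∑ n ∈ range (N + 1), prI n * (((n : ℝ) + 1) ^ γ - (n : ℝ) ^ γ)) /
      ((N : ℝ) ^ γ / Real.log N)) atTop (𝓝 1) := by
  set b : ℕ → ℝ := fun n => if 2 ≤ n then (Real.log n)⁻¹ else 0 with hb
  set W : ℕ → ℝ := fun n => ((n : ℝ) + 1) ^ γ - (n : ℝ) ^ γ with hW
  have hm1 := model_sum 1 one_pos le_rfl
  have hmg := model_sum γ h0 h1
  have hb0 : ∀ n, 0 ≤ b n := by
    intro n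
    simp only [hb]
    split_ifs with h
    · exact inv_nonneg.2 (Real.log_nonneg (by
        have : (2 : ℝ) ≤ n := by exact_mod_cast h
        linarith))
    · exact le_rfl
  have ha0 : ∀ n, 0 ≤ prI n := by
    intro n
    unfold prI
    split_ifs <;> norm_num
  have hW0 : ∀ n, 0 ≤ W n := by
    intro n
    simp only [hW]
    have := Real.rpow_le_rpow (Nat.cast_nonneg n) (show (n : ℝ) ≤ n + 1 by linarith) h0.le
    linarith
  have hmodel1 : Tendsto (fun N : ℕ => (∑ n ∈ range (N + 1), b n) / ((N : ℝ) / Real.log N))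
      atTop (𝓝 1) := by
    refine hm1.congr fun N => ?_
    simp only [Real.rpow_one, add_sub_cancel_left, mul_one, hb]
  have hne1 : ∀ᶠ N : ℕ in atTop, ((N : ℝ) / Real.log N) ≠ 0 := by
    have := (p17c_model_atTop 1 one_pos).eventually_gt_atTop 0
    filter_upwards [this] with N hN
    rw [Real.rpow_one] at hN
    exact hN.ne'
  have hneg : ∀ᶠ N : ℕ in atTop, ((N : ℝ) ^ γ / Real.log N) ≠ 0 := by
    filter_upwards [(p17c_model_atTop γ h0).eventually_gt_atTop 0] with N hN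
    exact hN.ne'
  have hab : Tendsto (fun N : ℕ => (∑ n ∈ range (N + 1), prI n) / ∑ n ∈ range (N + 1), b n)
      atTop (𝓝 1) := by
    have h2 := p17c_pc.div hmodel1 one_ne_zero
    rw [div_one] at h2
    refine h2.congr' ?_
    filter_upwards [hne1] with N hN
    simp only [Pi.div_apply]
    rw [div_div_div_cancel_right₀ hN]
  have hdiv : Tendsto (fun N : ℕ => ∑ n ∈ range (N + 1), b n * W n) atTop atTop := by
    have h2 := hmg.pos_mul_atTop one_pos (p17c_model_atTop γ h0)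
    refine h2.congr' ?_
    filter_upwards [hneg] with N hN
    rw [div_mul_cancel₀ _ hN]
  have hcmp := abel_compare prI b W ha0 hb0 hW0 (p17c_anti γ h0 h1) hab hdiv
  have h3 := hcmp.mul hmg
  rw [mul_one] at h3
  refine h3.congr' ?_
  filter_upwards [hdiv.eventually_gt_atTop 0] with N hN
  exact div_mul_div_cancel₀ hN.ne'

theorem p17c_floor_log :
    Tendsto (fun x : ℝ => Real.log (⌊x⌋₊ : ℝ) / Real.log x) atTop (𝓝 1) := by
  have h1 : Tendsto (fun x : ℝ => Real.log ((⌊x⌋₊ : ℝ) / x)) atTop (𝓝 0) := by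
    have := (Real.continuousAt_log one_ne_zero).tendsto.comp
      (tendsto_nat_floor_div_atTop (R := ℝ))
    rwa [Real.log_one] at this
  have h2 := (h1.div_atTop Real.tendsto_log_atTop).const_add 1
  rw [add_zero] at h2
  refine h2.congr' ?_
  filter_upwards [eventually_gt_atTop 1] with x hx
  have hf : 1 ≤ ⌊x⌋₊ := Nat.one_le_floor_iff x |>.2 hx.le
  have hf' : (1 : ℝ) ≤ (⌊x⌋₊ : ℝ) := by exact_mod_cast hf
  have hl := Real.log_pos hx
  rw [Real.log_div (by linarith) (by linarith)]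
  field_simp
  ring

theorem p17c_floor_model (γ : ℝ) :
    Tendsto (fun x : ℝ => ((⌊x⌋₊ : ℝ) ^ γ / Real.log (⌊x⌋₊ : ℝ)) / (x ^ γ / Real.log x))
      atTop (𝓝 1) := by
  have h1 : Tendsto (fun x : ℝ => ((⌊x⌋₊ : ℝ) / x) ^ γ) atTop (𝓝 1) := by
    have := (tendsto_nat_floor_div_atTop (R := ℝ)).rpow_const (p := γ) (Or.inl one_ne_zero)
    rwa [Real.one_rpow] at this
  have h2 := h1.div p17c_floor_log one_ne_zero
  rw [div_one] at h2
  refine h2.congr' ?_
  filter_upwards [eventually_gt_atTop 2] with x hx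
  have hf : 2 ≤ ⌊x⌋₊ := Nat.le_floor (by exact_mod_cast hx.le)
  have hf' : (2 : ℝ) ≤ (⌊x⌋₊ : ℝ) := by exact_mod_cast hf
  have hl : 0 < Real.log x := Real.log_pos (by linarith)
  have hl2 : 0 < Real.log (⌊x⌋₊ : ℝ) := Real.log_pos (by linarith)
  have hxg : 0 < x ^ γ := Real.rpow_pos_of_pos (by linarith) _
  simp only [Pi.div_apply]
  rw [Real.div_rpow (by linarith) (by linarith)]
  field_simp

/-- P17c: the prime number theorem for the expected number. Hint: `abel_compare` with `a = prI`,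
`b n = if 2 ≤ n then (log n)⁻¹ else 0`, `W n = (n+1)^γ - n^γ`, `γ = 1/α` (antitone by concavity);
`∑ a ~ ∑ b` from `Pool.Agent.LibPNT.primeCounting_tendsto` and `model_sum 1`; then `model_sum γ`.
From integers to reals: `expA α x = expA α ⌊x⌋₊` and `⌊x⌋₊ ~ x`. -/
theorem expA_equiv (α : ℝ) (hα : 1 ≤ α) :
    (fun x : ℝ => expA α x) ~[atTop] (fun x : ℝ => x ^ (1 / α) / Real.log x) := by
  have h0 : 0 < 1 / α := by positivity
  have h1 : 1 / α ≤ 1 := by
    rw [div_le_one (by linarith)]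
    exact hα
  refine isEquivalent_of_tendsto_one ?_
  have h2 := ((p17c_nat (1 / α) h0 h1).comp (tendsto_nat_floor_atTop (α := ℝ))).mul
    (p17c_floor_model (1 / α))
  rw [mul_one] at h2
  refine h2.congr' ?_
  filter_upwards [eventually_gt_atTop 2] with x hx
  have hf : 2 ≤ ⌊x⌋₊ := Nat.le_floor (by exact_mod_cast hx.le)
  have hf' : (2 : ℝ) ≤ (⌊x⌋₊ : ℝ) := by exact_mod_cast hf
  have hl2 : 0 < Real.log (⌊x⌋₊ : ℝ) := Real.log_pos (by linarith)
  have hxg : 0 < (⌊x⌋₊ : ℝ) ^ (1 / α) := Real.rpow_pos_of_pos (by linarith) _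
  have hsum : ∑ n ∈ range (⌊x⌋₊ + 1), prI n * (((n : ℝ) + 1) ^ (1 / α) - (n : ℝ) ^ (1 / α)) =
      expA α x := by
    rw [expA, Finset.sum_filter]
    refine Finset.sum_congr rfl fun n _ => ?_
    unfold prI
    split_ifs <;> simp
  simp only [Function.comp_apply, Pi.div_apply]
  rw [hsum, div_mul_div_cancel₀ (div_pos hxg hl2).ne']

end PS4
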