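import Pool.Agent.LibPS4.P14
import Pool.Agent.LibPS4.P15
import Pool.Agent.LibPS4.P16c
import Pool.Agent.LibPS4.P17c

open MeasureTheory Finset Filter Asymptotics
open scoped Topology

namespace PS4

/-- The exponent `α` is good: asymptotic formula and power saving. -/
def GoodA (α : ℝ) : Prop :=
  ((fun x : ℝ => piA α x) ~[atTop] (fun x : ℝ => x ^ (1 / α) / Real.log x)) ∧
  ∃ c : ℝ, 0 < c ∧
    (fun x : ℝ => piA α x - expA α x) =O[atTop] (fun x : ℝ => x ^ (1 / α - c))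

theorem prI_le (n : ℕ) : |prI n| ≤ 1 := by
  unfold prI
  split_ifs <;> simp

/-- A power saving is smaller than the main term. -/
theorem rpow_littleO (γ c : ℝ) (hc : 0 < c) :
    (fun x : ℝ => x ^ (γ - c)) =o[atTop] (fun x : ℝ => x ^ γ / Real.log x) := by
  have h1 : (fun x : ℝ => Real.log x) =o[atTop] (fun x : ℝ => x ^ c) := isLittleO_log_rpow_atTop hc
  have h2 := (isBigO_refl (fun x : ℝ => x ^ (γ - c) / Real.log x) atTop).mul_isLittleO h1
  refine (h2.congr' ?_ ?_)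
  · filter_upwards [eventually_gt_atTop 1] with x hx
    have : Real.log x ≠ 0 := (Real.log_pos hx).ne'
    field_simp
  · filter_upwards [eventually_gt_atTop 1] with x hx
    have hx0 : 0 < x := by linarith
    rw [div_mul_eq_mul_div, ← Real.rpow_add hx0]
    congr 2
    ring

theorem good_of_sparse (α : ℝ) (hα : 1 ≤ α) (m : ℕ) (hm : 1 ≤ m)
    (c C : ℝ) (hc : 0 < c) (hc1 : c ≤ 1 / 4) (hC : 0 < C)
    (h : ∀ᶠ j : ℕ in atTop,
      |Sd prI (j ^ m) α - Md prI (j ^ m) α| ≤ C * ((j ^ m : ℕ) : ℝ) ^ (1 - c)) : GoodA α := by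
  obtain ⟨c', C', hc', hc1', hC', h'⟩ := sparse_to_all prI prI_le α hα m hm c C hc hc1 hC h
  have h2 := piA_sub_expA α hα c' C' hc' hc1' hC' h'
  have hα0 : 0 < α := by linarith
  have e : (1 - c') / α = 1 / α - c' / α := by ring
  rw [e] at h2
  refine ⟨?_, c' / α, by positivity, h2⟩
  have h3 := expA_equiv α hα
  have h4 : (fun x : ℝ => piA α x - expA α x) =o[atTop] (fun x : ℝ => x ^ (1 / α) / Real.log x) :=
    h2.trans_isLittleO (rpow_littleO (1 / α) (c' / α) (by positivity))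
  have h5 : (fun x : ℝ => piA α x - x ^ (1 / α) / Real.log x) =o[atTop]
      (fun x : ℝ => x ^ (1 / α) / Real.log x) := by
    have := h4.add h3
    refine this.congr_left fun x => ?_
    simp only [Pi.sub_apply]
    ring
  exact h5

/-- The exceptional set has dimension less than one on every bounded interval. -/
theorem final (B : ℝ) : dimH {α : ℝ | 1 ≤ α ∧ α ≤ B ∧ ¬ GoodA α} < 1 := by
  obtain ⟨n, hn⟩ := exists_nat_gt B
  obtain ⟨c, C, s, m, hc, hc1, hC, hs, hs1, hm, h⟩ := sparse (n + 1) (by omega)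
  have h1 := h prI prI_le
  have hsub : {α : ℝ | 1 ≤ α ∧ α ≤ B ∧ ¬ GoodA α} ⊆ {α : ℝ | 1 ≤ α ∧ α < ((n + 1 : ℕ) : ℝ) ∧
      ∃ᶠ j : ℕ in atTop,
        C * ((j ^ m : ℕ) : ℝ) ^ (1 - c) < |Sd prI (j ^ m) α - Md prI (j ^ m) α|} := by
    rintro α ⟨ha1, ha2, ha3⟩
    refine ⟨ha1, by push_cast; linarith, ?_⟩
    by_contra hcon
    rw [not_frequently] at hcon
    apply ha3
    apply good_of_sparse α ha1 m hm c C hc hc1 hC
    filter_upwards [hcon] with j hj
    exact not_lt.1 hj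
  calc _ ≤ _ := dimH_mono hsub
    _ ≤ _ := h1
    _ < 1 := by
      rw [← ENNReal.ofReal_one]
      exact (ENNReal.ofReal_lt_ofReal_iff one_pos).2 hs1

theorem final_ae : ∀ᵐ α : ℝ, 1 ≤ α → GoodA α := by
  have h0 : ∀ n : ℕ, volume {α : ℝ | 1 ≤ α ∧ α ≤ (n : ℝ) ∧ ¬ GoodA α} = 0 := by
    intro n
    have h1 := final (n : ℝ)
    have h2 : dimH {α : ℝ | 1 ≤ α ∧ α ≤ (n : ℝ) ∧ ¬ GoodA α} < ((1 : NNReal) : ENNReal) := by
      simpa using h1
    have h3 := hausdorffMeasure_of_dimH_lt h2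
    rw [NNReal.coe_one, hausdorffMeasure_real] at h3
    exact h3
  have h1 : ∀ n : ℕ, ∀ᵐ α : ℝ, ¬ (1 ≤ α ∧ α ≤ (n : ℝ) ∧ ¬ GoodA α) := by
    intro n
    rw [ae_iff]
    simpa using h0 n
  filter_upwards [ae_all_iff.2 h1] with α hα h2
  obtain ⟨n, hn⟩ := exists_nat_ge α
  by_contra hcon
  exact hα n ⟨h2, hn, hcon⟩

end PS4
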