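import Mathlib

open MeasureTheory Finset

namespace PS4

/-- `e(x) = exp(2πix)`. -/
noncomputable def e1 (x : ℝ) : ℂ := Complex.exp ((2 * Real.pi * x : ℝ) * Complex.I)

/-- `f` is `k` times differentiable on `s`, the `k`-th derivative is between `lo` and `hi`. -/
def Dk : ℕ → ℝ → ℝ → (ℝ → ℝ) → Set ℝ → Prop
  | 0, lo, hi, f, s => ∀ x ∈ s, lo ≤ f x ∧ f x ≤ hi
  | k + 1, lo, hi, f, s => ∃ f' : ℝ → ℝ, (∀ x ∈ s, HasDerivWithinAt f (f' x) s x) ∧
      Dk k lo hi f' s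

theorem v01_norm_e1 (x : ℝ) : ‖e1 x‖ = 1 := by
  rw [e1, Complex.norm_exp_ofReal_mul_I]

theorem v01_e1_add (x y : ℝ) : e1 (x + y) = e1 x * e1 y := by
  rw [e1, e1, e1, ← Complex.exp_add]
  congr 1
  push_cast
  ring

theorem v01_e1_int (k : ℤ) : e1 k = 1 := by
  rw [e1]
  have h : (((2 * Real.pi * (k : ℝ) : ℝ) : ℂ)) * Complex.I = (k : ℂ) * (2 * Real.pi * Complex.I) := by
    push_cast
    ring
  rw [h, Complex.exp_int_mul_two_pi_mul_I]

/-- the cotangent -/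
noncomputable def v01_T (x : ℝ) : ℝ := Real.cos (Real.pi * x) / Real.sin (Real.pi * x)

/-- `1 / (1 - e(x))` -/
noncomputable def v01_c (x : ℝ) : ℂ := 1 / 2 + (v01_T x / 2 : ℝ) * Complex.I

theorem v01_c_mul {x : ℝ} (hx : Real.sin (Real.pi * x) ≠ 0) : (1 - e1 x) * v01_c x = 1 := by
  have h1 : e1 x = ((1 - 2 * Real.sin (Real.pi * x) ^ 2 : ℝ) : ℂ) +
      ((2 * Real.sin (Real.pi * x) * Real.cos (Real.pi * x) : ℝ) : ℂ) * Complex.I := by
    rw [e1, Complex.exp_mul_I, ← Complex.ofReal_cos, ← Complex.ofReal_sin]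
    have h2 : 2 * Real.pi * x = 2 * (Real.pi * x) := by ring
    rw [h2, Real.cos_two_mul, Real.sin_two_mul]
    have h3 : 2 * Real.cos (Real.pi * x) ^ 2 - 1 = 1 - 2 * Real.sin (Real.pi * x) ^ 2 := by
      have := Real.sin_sq_add_cos_sq (Real.pi * x)
      linarith
    rw [h3]
  rw [h1, v01_c, v01_T]
  have hs : ((Real.sin (Real.pi * x) : ℝ) : ℂ) ≠ 0 := by exact_mod_cast hx
  have h4 : ((Real.sin (Real.pi * x) : ℝ) : ℂ) ^ 2 + ((Real.cos (Real.pi * x) : ℝ) : ℂ) ^ 2 = 1 := by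
    have := Real.sin_sq_add_cos_sq (Real.pi * x)
    exact_mod_cast this
  push_cast
  push_cast at hs h4
  field_simp
  linear_combination (2 * Complex.sin (Real.pi * x)) * h4 -
    (2 * Complex.sin (Real.pi * x) * Complex.cos (Real.pi * x) ^ 2) * Complex.I_sq

theorem v01_sin {lam x : ℝ} (hl : 0 < lam) (hx : lam ≤ x ∧ x ≤ 1 - lam) :
    2 * lam ≤ Real.sin (Real.pi * x) := by
  have hpi := Real.pi_pos
  rcases le_total x (1 / 2) with h | h
  · have h1 := Real.mul_le_sin (x := Real.pi * x) (by nlinarith [hx.1]) (by nlinarith)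
    have h2 : 2 / Real.pi * (Real.pi * x) = 2 * x := by field_simp
    rw [h2] at h1
    linarith [hx.1]
  · have h1 := Real.mul_le_sin (x := Real.pi * (1 - x)) (by nlinarith [hx.2]) (by nlinarith)
    have h2 : 2 / Real.pi * (Real.pi * (1 - x)) = 2 * (1 - x) := by field_simp
    rw [h2] at h1
    have h3 : Real.sin (Real.pi * (1 - x)) = Real.sin (Real.pi * x) := by
      rw [mul_sub, mul_one, Real.sin_pi_sub]
    rw [h3] at h1
    linarith [hx.2]

theorem v01_T_abs {lam x : ℝ} (hl : 0 < lam) (hx : lam ≤ x ∧ x ≤ 1 - lam) :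
    |v01_T x| ≤ 1 / (2 * lam) := by
  have h1 := v01_sin hl hx
  have h2 : 0 < Real.sin (Real.pi * x) := by linarith
  rw [v01_T, abs_div, abs_of_pos h2]
  exact div_le_div₀ zero_le_one (Real.abs_cos_le_one _) (by linarith) h1

theorem v01_T_anti {lam x y : ℝ} (hl : 0 < lam) (hx : lam ≤ x) (hxy : x ≤ y)
    (hy : y ≤ 1 - lam) : v01_T y ≤ v01_T x := by
  have h1 := v01_sin hl ⟨hx, hxy.trans hy⟩
  have h2 := v01_sin hl ⟨hx.trans hxy, hy⟩
  have h3 : 0 < Real.sin (Real.pi * x) := by linarith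
  have h4 : 0 < Real.sin (Real.pi * y) := by linarith
  have h5 : 0 ≤ Real.sin (Real.pi * y - Real.pi * x) := by
    apply Real.sin_nonneg_of_nonneg_of_le_pi
    · nlinarith [Real.pi_pos]
    · nlinarith [Real.pi_pos]
  rw [Real.sin_sub] at h5
  rw [v01_T, v01_T, div_le_div_iff₀ h4 h3]
  linarith

theorem v01_c_norm {lam x : ℝ} (hl : 0 < lam) (hl2 : lam ≤ 1 / 2)
    (hx : lam ≤ x ∧ x ≤ 1 - lam) : ‖v01_c x‖ ≤ 1 / (2 * lam) := by
  have h1 := v01_T_abs hl hx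
  have h2 : ‖v01_c x‖ ≤ ‖(1 / 2 : ℂ)‖ + ‖((v01_T x / 2 : ℝ) : ℂ) * Complex.I‖ := norm_add_le _ _
  have h3 : ‖(1 / 2 : ℂ)‖ = 1 / 2 := by norm_num
  have h4 : ‖((v01_T x / 2 : ℝ) : ℂ) * Complex.I‖ = |v01_T x| / 2 := by
    rw [norm_mul, Complex.norm_I, mul_one, Complex.norm_real, Real.norm_eq_abs, abs_div]
    norm_num
  have h5 : (1 : ℝ) ≤ 1 / (2 * lam) := by
    rw [le_div_iff₀ (by linarith)]
    linarith
  rw [h3, h4] at h2
  linarith

theorem v01_c_sub {lam x y : ℝ} (hl : 0 < lam) (hx : lam ≤ x) (hxy : x ≤ y)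
    (hy : y ≤ 1 - lam) : ‖v01_c y - v01_c x‖ = (v01_T x - v01_T y) / 2 := by
  have h1 := v01_T_anti hl hx hxy hy
  have h2 : v01_c y - v01_c x = (((v01_T y - v01_T x) / 2 : ℝ) : ℂ) * Complex.I := by
    rw [v01_c, v01_c]
    push_cast
    ring
  rw [h2, norm_mul, Complex.norm_I, mul_one, Complex.norm_real, Real.norm_eq_abs,
    abs_of_nonpos (by linarith)]
  ring

/-- the discrete form -/
theorem v01_discrete {lam : ℝ} (hl : 0 < lam) (hl2 : lam ≤ 1 / 2) (u : ℕ → ℂ) (θ : ℕ → ℝ)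
    (hu : ∀ j, ‖u j‖ ≤ 1) (m : ℕ) (hstep : ∀ j, j ≤ m → u (j + 1) = u j * e1 (θ j))
    (hθ : ∀ j, j ≤ m → lam ≤ θ j ∧ θ j ≤ 1 - lam) (hmono : ∀ j, j < m → θ j ≤ θ (j + 1)) :
    ‖∑ j ∈ range (m + 1), u j + v01_c (θ m) * u (m + 1)‖ ≤
      1 / (2 * lam) + (v01_T (θ 0) - v01_T (θ m)) / 2 := by
  have hkey : ∀ j, j ≤ m → u j = v01_c (θ j) * u j - v01_c (θ j) * u (j + 1) := by
    intro j hj
    have h1 := v01_sin hl (hθ j hj)
    have h2 : Real.sin (Real.pi * θ j) ≠ 0 := by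
      intro h
      rw [h] at h1
      linarith
    have h3 := v01_c_mul h2
    rw [hstep j hj]
    linear_combination (-(u j)) * h3
  induction m with
  | zero =>
    have h1 := hkey 0 le_rfl
    rw [Finset.sum_range_one, sub_self, zero_div, add_zero]
    have h2 : u 0 + v01_c (θ 0) * u (0 + 1) = v01_c (θ 0) * u 0 := by
      linear_combination h1
    rw [h2, norm_mul]
    calc ‖v01_c (θ 0)‖ * ‖u 0‖ ≤ ‖v01_c (θ 0)‖ * 1 :=
          mul_le_mul_of_nonneg_left (hu 0) (norm_nonneg _)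
      _ ≤ 1 / (2 * lam) := by
          rw [mul_one]
          exact v01_c_norm hl hl2 (hθ 0 le_rfl)
  | succ m ih =>
    have h0 := ih (fun j hj => hstep j (by omega)) (fun j hj => hθ j (by omega))
      (fun j hj => hmono j (by omega)) (fun j hj => hkey j (by omega))
    have h1 := hkey (m + 1) le_rfl
    have h2 : ∑ j ∈ range (m + 1 + 1), u j + v01_c (θ (m + 1)) * u (m + 1 + 1) =
        (∑ j ∈ range (m + 1), u j + v01_c (θ m) * u (m + 1)) +
          (v01_c (θ (m + 1)) - v01_c (θ m)) * u (m + 1) := by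
      rw [Finset.sum_range_succ]
      linear_combination h1
    rw [h2]
    have h3 := v01_c_sub hl (hθ m (by omega)).1 (hmono m (by omega)) (hθ (m + 1) le_rfl).2
    calc ‖(∑ j ∈ range (m + 1), u j + v01_c (θ m) * u (m + 1)) +
          (v01_c (θ (m + 1)) - v01_c (θ m)) * u (m + 1)‖ ≤
        ‖∑ j ∈ range (m + 1), u j + v01_c (θ m) * u (m + 1)‖ +
          ‖v01_c (θ (m + 1)) - v01_c (θ m)‖ * ‖u (m + 1)‖ := by
          refine (norm_add_le _ _).trans ?_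
          rw [norm_mul]
      _ ≤ (1 / (2 * lam) + (v01_T (θ 0) - v01_T (θ m)) / 2) +
          (v01_T (θ m) - v01_T (θ (m + 1))) / 2 * 1 := by
          rw [h3]
          apply add_le_add h0
          apply mul_le_mul_of_nonneg_left (hu _)
          rw [← h3]
          exact norm_nonneg _
      _ = _ := by ring

theorem v01_sum {lam : ℝ} (hl : 0 < lam) (hl2 : lam ≤ 1 / 2) (u : ℕ → ℂ) (θ : ℕ → ℝ)
    (hu : ∀ j, ‖u j‖ ≤ 1) (M : ℕ) (hstep : ∀ j, j + 1 < M → u (j + 1) = u j * e1 (θ j))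
    (hθ : ∀ j, j + 1 < M → lam ≤ θ j ∧ θ j ≤ 1 - lam)
    (hmono : ∀ j, j + 2 < M → θ j ≤ θ (j + 1)) :
    ‖∑ j ∈ range M, u j‖ ≤ 2 / lam := by
  have hinv : 2 ≤ 1 / lam := by
    rw [le_div_iff₀ hl]
    linarith
  have h2l : 1 / (2 * lam) = 1 / lam / 2 := by
    field_simp
  have h2l' : 2 / lam = 2 * (1 / lam) := by ring
  rcases Nat.lt_or_ge M 2 with hM | hM
  · have h1 : ‖∑ j ∈ range M, u j‖ ≤ ∑ j ∈ range M, (1 : ℝ) :=
      norm_sum_le_of_le _ fun j _ => hu j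
    rw [Finset.sum_const, Finset.card_range, nsmul_eq_mul, mul_one] at h1
    have h2 : (M : ℝ) ≤ 1 := by exact_mod_cast (by omega : M ≤ 1)
    rw [h2l']
    linarith
  · obtain ⟨m, rfl⟩ : ∃ m, M = m + 2 := ⟨M - 2, by omega⟩
    have h1 := v01_discrete hl hl2 u θ hu m (fun j hj => hstep j (by omega))
      (fun j hj => hθ j (by omega)) (fun j hj => hmono j (by omega))
    have h2 : ∑ j ∈ range (m + 2), u j =
        (∑ j ∈ range (m + 1), u j + v01_c (θ m) * u (m + 1)) +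
          (1 - v01_c (θ m)) * u (m + 1) := by
      rw [Finset.sum_range_succ]
      ring
    rw [h2]
    have h3 := v01_c_norm hl hl2 (hθ m (by omega))
    have h4 : ‖(1 - v01_c (θ m)) * u (m + 1)‖ ≤ 1 + 1 / (2 * lam) := by
      rw [norm_mul]
      calc ‖1 - v01_c (θ m)‖ * ‖u (m + 1)‖ ≤ ‖1 - v01_c (θ m)‖ * 1 :=
            mul_le_mul_of_nonneg_left (hu _) (norm_nonneg _)
        _ ≤ ‖(1 : ℂ)‖ + ‖v01_c (θ m)‖ := by
            rw [mul_one]
            exact norm_sub_le _ _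
        _ ≤ 1 + 1 / (2 * lam) := by
            rw [norm_one]
            linarith
    have h5 := abs_le.1 (v01_T_abs hl (hθ 0 (by omega)))
    have h6 := abs_le.1 (v01_T_abs hl (hθ m (by omega)))
    refine (norm_add_le _ _).trans ?_
    rw [h2l] at *
    rw [h2l']
    linarith [h5.2, h6.1]

/-- V01: the Kusmin-Landau inequality (any absolute constant). -/
theorem kusmin_landau : ∃ C : ℝ, 0 < C ∧ ∀ (a b : ℕ) (f f' : ℝ → ℝ) (k : ℤ) (lam : ℝ), a ≤ b →
    0 < lam → lam ≤ 1 / 2 →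
    (∀ x ∈ Set.Icc (a : ℝ) b, HasDerivWithinAt f (f' x) (Set.Icc (a : ℝ) b) x) →
    MonotoneOn f' (Set.Icc (a : ℝ) b) →
    (∀ x ∈ Set.Icc (a : ℝ) b, (k : ℝ) + lam ≤ f' x ∧ f' x ≤ (k : ℝ) + 1 - lam) →
    ‖∑ n ∈ Ioc a b, e1 (f n)‖ ≤ C / lam := by
  refine ⟨2, by norm_num, ?_⟩
  intro a b f f' k lam hab hl hl2 hder hmono hbd
  have hmvt : ∀ j : ℕ, j + 1 < b - a → ∃ ξ : ℝ, (a + 1 + j : ℝ) < ξ ∧ ξ < (a + 2 + j : ℝ) ∧
      f' ξ = f (a + 2 + j) - f (a + 1 + j) := by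
    intro j hj
    have hjb : (a : ℝ) + 2 + j ≤ b := by
      have : a + 2 + j ≤ b := by omega
      exact_mod_cast this
    have ha0 : (0 : ℝ) ≤ j := Nat.cast_nonneg _
    have hsub : Set.Icc ((a : ℝ) + 1 + j) (a + 2 + j) ⊆ Set.Icc (a : ℝ) b := by
      intro x hx
      exact ⟨by linarith [hx.1], by linarith [hx.2]⟩
    obtain ⟨ξ, hξ, he⟩ := exists_hasDerivAt_eq_slope f f'
      (a := (a : ℝ) + 1 + j) (b := (a : ℝ) + 2 + j) (by linarith)
      (fun x hx => ((hder x (hsub hx)).continuousWithinAt).mono hsub)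
      (fun x hx => (hder x (hsub (Set.Ioo_subset_Icc_self hx))).hasDerivAt
        (Icc_mem_nhds (by linarith [hx.1]) (by linarith [hx.2])))
    refine ⟨ξ, hξ.1, hξ.2, ?_⟩
    rw [he]
    have h1 : (a : ℝ) + 2 + j - (a + 1 + j) = 1 := by ring
    rw [h1, div_one]
  choose! ξ hξ1 hξ2 hξ3 using hmvt
  have hmem : ∀ j : ℕ, j + 1 < b - a → ξ j ∈ Set.Icc (a : ℝ) b := by
    intro j hj
    have hjb : (a : ℝ) + 2 + j ≤ b := by
      have : a + 2 + j ≤ b := by omega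
      exact_mod_cast this
    have ha0 : (0 : ℝ) ≤ j := Nat.cast_nonneg _
    exact ⟨by linarith [hξ1 j hj], by linarith [hξ2 j hj]⟩
  have hsum : ∑ n ∈ Ioc a b, e1 (f n) = ∑ j ∈ range (b - a), e1 (f (a + 1 + j)) := by
    have h1 : Ioc a b = Ico (a + 1) (b + 1) := by
      ext n
      simp only [Finset.mem_Ioc, Finset.mem_Ico]
      omega
    rw [h1, Finset.sum_Ico_eq_sum_range]
    have h2 : b + 1 - (a + 1) = b - a := by omega
    rw [h2]
    apply Finset.sum_congr rfl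
    intro j _
    push_cast
    rfl
  rw [hsum]
  apply v01_sum hl hl2 (fun j => e1 (f (a + 1 + j))) (fun j => f' (ξ j) - k)
  · intro j
    exact (v01_norm_e1 _).le
  · intro j hj
    have h1 : f ((a : ℝ) + 1 + ((j + 1 : ℕ) : ℝ)) = f (a + 1 + j) + ((f' (ξ j) - k) + k) := by
      rw [hξ3 j hj]
      push_cast
      have h2 : (a : ℝ) + 1 + (j + 1) = a + 2 + j := by ring
      rw [h2]
      ring
    rw [h1, v01_e1_add, v01_e1_add, v01_e1_int, mul_one]
  · intro j hj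
    have := hbd (ξ j) (hmem j hj)
    exact ⟨by linarith [this.1], by linarith [this.2]⟩
  · intro j hj
    have h1 := hmem j (by omega)
    have h2 := hmem (j + 1) (by omega)
    have h3 := hξ2 j (by omega)
    have h4 := hξ1 (j + 1) (by omega)
    push_cast at h4
    have h5 := hmono h1 h2 (by linarith)
    linarith

end PS4
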