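import Pool.Agent.LibPS4.V01

open MeasureTheory Finset

namespace PS4

theorem v02_mvt {g g' : ℝ → ℝ} {a b lo hi : ℝ}
    (hd : ∀ x ∈ Set.Icc a b, HasDerivWithinAt g (g' x) (Set.Icc a b) x)
    (hb : ∀ x ∈ Set.Icc a b, lo ≤ g' x ∧ g' x ≤ hi) {x y : ℝ} (hx : x ∈ Set.Icc a b)
    (hy : y ∈ Set.Icc a b) (hxy : x ≤ y) :
    lo * (y - x) ≤ g y - g x ∧ g y - g x ≤ hi * (y - x) := by
  rcases hxy.eq_or_lt with h | h
  · subst h
    simp
  · have hsub : Set.Icc x y ⊆ Set.Icc a b := Set.Icc_subset_Icc hx.1 hy.2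
    obtain ⟨c, hc, he⟩ := exists_hasDerivAt_eq_slope g g' h
      (fun t ht => ((hd t (hsub ht)).continuousWithinAt).mono hsub)
      (fun t ht => (hd t (hsub (Set.Ioo_subset_Icc_self ht))).hasDerivAt
        (Icc_mem_nhds (by linarith [ht.1, hx.1]) (by linarith [ht.2, hy.2])))
    have h1 := hb c (hsub (Set.Ioo_subset_Icc_self hc))
    have h2 : 0 < y - x := by linarith
    have h3 : g y - g x = g' c * (y - x) := by
      rw [he, div_mul_cancel₀ _ h2.ne']
    rw [h3]
    exact ⟨mul_le_mul_of_nonneg_right h1.1 h2.le, mul_le_mul_of_nonneg_right h1.2 h2.le⟩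

/-- a finite set of small diameter -/
theorem v02_card (S : Finset ℕ) {R : ℝ} (hR : 0 ≤ R) (h : ∀ x ∈ S, ∀ y ∈ S, (y : ℝ) - x ≤ R) :
    (S.card : ℝ) ≤ R + 1 := by
  rcases S.eq_empty_or_nonempty with hS | hS
  · subst hS
    simp only [Finset.card_empty, Nat.cast_zero]
    linarith
  · have h1 : S ⊆ Icc (S.min' hS) (S.min' hS + ⌊R⌋₊) := by
      intro y hy
      rw [Finset.mem_Icc]
      refine ⟨S.min'_le y hy, ?_⟩
      have h2 := h _ (S.min'_mem hS) y hy
      have h3 : S.min' hS ≤ y := S.min'_le y hy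
      have h4 : y - S.min' hS ≤ ⌊R⌋₊ := by
        apply Nat.le_floor
        rw [Nat.cast_sub h3]
        exact h2
      omega
    have h2 := Finset.card_le_card h1
    rw [Nat.card_Icc] at h2
    have h3 : S.card ≤ ⌊R⌋₊ + 1 := by omega
    calc (S.card : ℝ) ≤ ((⌊R⌋₊ + 1 : ℕ) : ℝ) := by exact_mod_cast h3
      _ = (⌊R⌋₊ : ℝ) + 1 := by push_cast; ring
      _ ≤ R + 1 := by linarith [Nat.floor_le hR]

theorem v02_trivial (S : Finset ℕ) (f : ℝ → ℝ) : ‖∑ n ∈ S, e1 (f n)‖ ≤ S.card := by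
  refine (norm_sum_le_of_le S fun n _ => (v01_norm_e1 _).le).trans ?_
  rw [Finset.sum_const, nsmul_eq_mul, mul_one]

/-- V02: second derivative test. -/
theorem vdc_second : ∃ C : ℝ, 0 < C ∧ ∀ (a b : ℕ) (f : ℝ → ℝ) (lam A : ℝ), a ≤ b → 0 < lam →
    1 ≤ A → Dk 2 lam (A * lam) f (Set.Icc (a : ℝ) b) →
    ‖∑ n ∈ Ioc a b, e1 (f n)‖ ≤ C * A * (((b : ℝ) - a) * Real.sqrt lam + 1 / Real.sqrt lam) := by
  obtain ⟨C, hC, hKL⟩ := kusmin_landau
  refine ⟨2 * (C + 4), by linarith, ?_⟩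
  intro a b f lam A hab hl hA hD
  obtain ⟨f', hf', f'', hf'', hbd⟩ := hD
  set r := Real.sqrt lam with hr
  have hr0 : 0 < r := Real.sqrt_pos.2 hl
  have hrr : r * r = lam := Real.mul_self_sqrt hl.le
  have hba : (0 : ℝ) ≤ (b : ℝ) - a := by
    have : (a : ℝ) ≤ b := by exact_mod_cast hab
    linarith
  have hmv : ∀ x ∈ Set.Icc (a : ℝ) b, ∀ y ∈ Set.Icc (a : ℝ) b, x ≤ y →
      lam * (y - x) ≤ f' y - f' x ∧ f' y - f' x ≤ A * lam * (y - x) :=
    fun x hx y hy hxy => v02_mvt hf'' hbd hx hy hxy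
  have hmono : MonotoneOn f' (Set.Icc (a : ℝ) b) := by
    intro x hx y hy hxy
    have h1 := (hmv x hx y hy hxy).1
    have h2 : 0 ≤ lam * (y - x) := mul_nonneg hl.le (by linarith)
    linarith
  rcases lt_or_ge (1 / 2) r with hr2 | hr2
  · -- trivial bound
    have h1 := v02_trivial (Ioc a b) f
    rw [Nat.card_Ioc, Nat.cast_sub hab] at h1
    refine h1.trans ?_
    have h2 : (b : ℝ) - a ≤ 2 * (((b : ℝ) - a) * r) := by nlinarith
    have h3 : 0 ≤ 1 / r := by positivity
    have h4 : 0 ≤ ((b : ℝ) - a) * r := mul_nonneg hba hr0.le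
    have h5 : 1 * (((b : ℝ) - a) * r + 1 / r) ≤ A * (((b : ℝ) - a) * r + 1 / r) :=
      mul_le_mul_of_nonneg_right hA (by linarith)
    have h6 : 2 * (C + 4) * A * (((b : ℝ) - a) * r + 1 / r) =
        2 * (C + 4) * (A * (((b : ℝ) - a) * r + 1 / r)) := by ring
    rw [h6]
    have h7 : 2 * (A * (((b : ℝ) - a) * r + 1 / r)) ≤
        2 * (C + 4) * (A * (((b : ℝ) - a) * r + 1 / r)) := by
      apply mul_le_mul_of_nonneg_right (by linarith)
      linarith
    linarith
  · -- the main case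
    have hmemI : ∀ n ∈ Ioc a b, (n : ℝ) ∈ Set.Icc (a : ℝ) b := by
      intro n hn
      rw [Finset.mem_Ioc] at hn
      exact ⟨by exact_mod_cast hn.1.le, by exact_mod_cast hn.2⟩
    have haI : (a : ℝ) ∈ Set.Icc (a : ℝ) b := ⟨le_rfl, by linarith⟩
    have hbI : (b : ℝ) ∈ Set.Icc (a : ℝ) b := ⟨by linarith, le_rfl⟩
    have hmaps : ∀ n ∈ Ioc a b, ⌊f' (n : ℝ)⌋ ∈ Icc ⌊f' (a : ℝ)⌋ ⌊f' (b : ℝ)⌋ := by
      intro n hn
      have h1 := hmemI n hn
      rw [Finset.mem_Icc]
      exact ⟨Int.floor_le_floor (hmono haI h1 h1.1), Int.floor_le_floor (hmono h1 hbI h1.2)⟩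
    have hsmall : ∀ T : Finset ℕ, T ⊆ Ioc a b →
        (∀ x ∈ T, ∀ y ∈ T, f' (y : ℝ) - f' (x : ℝ) ≤ r) → (T.card : ℝ) ≤ 1 / r + 1 := by
      intro T hT hTr
      apply v02_card T (by positivity)
      intro x hx y hy
      rcases le_total (x : ℝ) y with h | h
      · have h1 := (hmv x (hmemI x (hT hx)) y (hmemI y (hT hy)) h).1
        have h2 := hTr x hx y hy
        rw [le_div_iff₀ hr0]
        have h3 : lam * ((y : ℝ) - x) ≤ r := h1.trans h2
        rw [← hrr] at h3
        by_contra hcon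
        push Not at hcon
        nlinarith
      · have h2 : 0 ≤ 1 / r := by positivity
        linarith
    have hk : ∀ k ∈ Icc ⌊f' (a : ℝ)⌋ ⌊f' (b : ℝ)⌋,
        ‖∑ n ∈ (Ioc a b).filter (fun n : ℕ => ⌊f' (n : ℝ)⌋ = k), e1 (f n)‖ ≤ (C + 4) / r := by
      intro k _
      set F := (Ioc a b).filter (fun n : ℕ => ⌊f' (n : ℝ)⌋ = k) with hF
      set F1 := F.filter (fun n : ℕ => f' (n : ℝ) < k + r) with hF1
      set F2 := (F.filter (fun n : ℕ => ¬ f' (n : ℝ) < k + r)).filter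
        (fun n : ℕ => k + 1 - r < f' (n : ℝ)) with hF2
      set F3 := (F.filter (fun n : ℕ => ¬ f' (n : ℝ) < k + r)).filter
        (fun n : ℕ => ¬ k + 1 - r < f' (n : ℝ)) with hF3
      have hsplit : ∑ n ∈ F, e1 (f n) = ∑ n ∈ F1, e1 (f n) +
          (∑ n ∈ F2, e1 (f n) + ∑ n ∈ F3, e1 (f n)) := by
        rw [hF2, hF3, Finset.sum_filter_add_sum_filter_not, hF1,
          Finset.sum_filter_add_sum_filter_not]
      have hfl : ∀ n ∈ F, (k : ℝ) ≤ f' (n : ℝ) ∧ f' (n : ℝ) < k + 1 := by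
        intro n hn
        rw [hF, Finset.mem_filter] at hn
        exact Int.floor_eq_iff.1 hn.2
      have hFsub : F ⊆ Ioc a b := Finset.filter_subset _ _
      have h1 : ‖∑ n ∈ F1, e1 (f n)‖ ≤ 1 / r + 1 := by
        refine (v02_trivial F1 f).trans (hsmall F1 ((Finset.filter_subset _ _).trans hFsub) ?_)
        intro x hx y hy
        rw [hF1, Finset.mem_filter] at hx hy
        linarith [(hfl x hx.1).1, hy.2]
      have h2 : ‖∑ n ∈ F2, e1 (f n)‖ ≤ 1 / r + 1 := by
        refine (v02_trivial F2 f).trans (hsmall F2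
          (((Finset.filter_subset _ _).trans (Finset.filter_subset _ _)).trans hFsub) ?_)
        intro x hx y hy
        rw [hF2, Finset.mem_filter, Finset.mem_filter] at hx hy
        linarith [(hfl y hy.1.1).2, hx.2]
      have h3 : ‖∑ n ∈ F3, e1 (f n)‖ ≤ 1 + C / r := by
        rcases F3.eq_empty_or_nonempty with hne | hne
        · rw [hne, Finset.sum_empty, norm_zero]
          positivity
        · set c := F3.min' hne with hc
          set d := F3.max' hne with hd
          have hmem : ∀ n, n ∈ F3 ↔ n ∈ Ioc a b ∧ (k : ℝ) + r ≤ f' (n : ℝ) ∧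
              f' (n : ℝ) ≤ k + 1 - r := by
            intro n
            rw [hF3, Finset.mem_filter, Finset.mem_filter, hF, Finset.mem_filter,
              Int.floor_eq_iff]
            constructor
            · rintro ⟨⟨⟨h4, h5⟩, h6⟩, h7⟩
              exact ⟨h4, not_lt.1 h6, not_lt.1 h7⟩
            · rintro ⟨h4, h5, h6⟩
              exact ⟨⟨⟨h4, by linarith, by linarith⟩, not_lt.2 h5⟩, not_lt.2 h6⟩
          have hcm := (hmem c).1 (F3.min'_mem hne)
          have hdm := (hmem d).1 (F3.max'_mem hne)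
          have hcd : c ≤ d := F3.min'_le _ (F3.max'_mem hne)
          have hcR : (a : ℝ) ≤ c := (hmemI c hcm.1).1
          have hdR : (d : ℝ) ≤ b := (hmemI d hdm.1).2
          have hcdR : (c : ℝ) ≤ d := by exact_mod_cast hcd
          have hF3eq : F3 = insert c (Ioc c d) := by
            ext n
            rw [Finset.mem_insert, Finset.mem_Ioc]
            constructor
            · intro hn
              have h4 : c ≤ n := F3.min'_le n hn
              have h5 : n ≤ d := F3.le_max' n hn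
              omega
            · intro hn
              have h4 : c ≤ n ∧ n ≤ d := by omega
              have h4' : (c : ℝ) ≤ n ∧ (n : ℝ) ≤ d := ⟨by exact_mod_cast h4.1, by exact_mod_cast h4.2⟩
              have h5 : n ∈ Ioc a b := by
                have h6 := Finset.mem_Ioc.1 hcm.1
                have h7 := Finset.mem_Ioc.1 hdm.1
                rw [Finset.mem_Ioc]
                omega
              rw [hmem]
              refine ⟨h5, ?_, ?_⟩
              · exact hcm.2.1.trans (hmono (hmemI c hcm.1) (hmemI n h5) h4'.1)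
              · exact (hmono (hmemI n h5) (hmemI d hdm.1) h4'.2).trans hdm.2.2
          have hsub : Set.Icc (c : ℝ) d ⊆ Set.Icc (a : ℝ) b := Set.Icc_subset_Icc hcR hdR
          have h4 := hKL c d f f' k r hcd hr0 hr2
            (fun x hx => (hf' x (hsub hx)).mono hsub) (hmono.mono hsub) (by
              intro x hx
              have h5 := hmono (hsub ⟨le_rfl, hcdR⟩) (hsub hx) hx.1
              have h6 := hmono (hsub hx) (hsub ⟨hcdR, le_rfl⟩) hx.2
              exact ⟨by linarith [hcm.2.1], by linarith [hdm.2.2]⟩)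
          rw [hF3eq, Finset.sum_insert (by simp)]
          refine (norm_add_le _ _).trans ?_
          rw [v01_norm_e1]
          linarith
      have hr1 : 1 ≤ 1 / 2 / r := by
        rw [le_div_iff₀ hr0]
        linarith
      rw [hsplit]
      refine (norm_add_le _ _).trans ?_
      have h4 := norm_add_le (∑ n ∈ F2, e1 (f n)) (∑ n ∈ F3, e1 (f n))
      have h5 : (C + 4) / r = C / r + 2 * (1 / r) + 4 * (1 / 2 / r) := by
        field_simp
        ring
      rw [h5]
      linarith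
    have hcount : ((Icc ⌊f' (a : ℝ)⌋ ⌊f' (b : ℝ)⌋).card : ℝ) ≤ A * lam * ((b : ℝ) - a) + 2 := by
      have h1 : ⌊f' (a : ℝ)⌋ ≤ ⌊f' (b : ℝ)⌋ := Int.floor_le_floor (hmono haI hbI haI.2)
      rw [Int.card_Icc]
      have h2 : (((⌊f' (b : ℝ)⌋ + 1 - ⌊f' (a : ℝ)⌋).toNat : ℤ) : ℝ) =
          ((⌊f' (b : ℝ)⌋ + 1 - ⌊f' (a : ℝ)⌋ : ℤ) : ℝ) := by
        rw [Int.toNat_of_nonneg (by omega)]
      have h3 : ((⌊f' (b : ℝ)⌋ + 1 - ⌊f' (a : ℝ)⌋).toNat : ℝ) =
          (((⌊f' (b : ℝ)⌋ + 1 - ⌊f' (a : ℝ)⌋).toNat : ℤ) : ℝ) := by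
        norm_cast
      rw [h3, h2]
      push_cast
      have h4 := (hmv a haI b hbI haI.2).2
      linarith [Int.floor_le (f' (b : ℝ)), Int.lt_floor_add_one (f' (a : ℝ))]
    rw [← Finset.sum_fiberwise_of_maps_to hmaps]
    refine (norm_sum_le_of_le _ hk).trans ?_
    rw [Finset.sum_const, nsmul_eq_mul]
    have h0 : 0 < (C + 4) / r := by positivity
    refine (mul_le_mul_of_nonneg_right hcount h0.le).trans ?_
    have h1 : (A * lam * ((b : ℝ) - a) + 2) * ((C + 4) / r) =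
        (C + 4) * (A * (((b : ℝ) - a) * r) + 2 * (1 / r)) := by
      rw [← hrr]
      field_simp
    have h2 : 2 * (C + 4) * A * (((b : ℝ) - a) * r + 1 / r) =
        (C + 4) * (2 * (A * (((b : ℝ) - a) * r)) + A * (2 * (1 / r))) := by ring
    rw [h1, h2]
    apply mul_le_mul_of_nonneg_left _ (by linarith)
    have h3 : 0 ≤ A * (((b : ℝ) - a) * r) := mul_nonneg (by linarith) (mul_nonneg hba hr0.le)
    have h4 : 1 * (2 * (1 / r)) ≤ A * (2 * (1 / r)) :=
      mul_le_mul_of_nonneg_right hA (by positivity)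
    linarith

end PS4
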