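import Pool.Agent.LibPS4.V01

open MeasureTheory Finset

namespace PS4

/-- the correlation -/
noncomputable def v03a_V (z : ℕ → ℂ) (a b h : ℕ) : ℂ :=
  ∑ n ∈ Ioc a (b - h), z (n + h) * (starRingEnd ℂ) (z n)

/-- the shifted sequence -/
noncomputable def v03a_W (z : ℕ → ℂ) (a b m j : ℕ) : ℂ :=
  if a + j < m ∧ m ≤ b + j then z (m - j) else 0

theorem v03a_sum (z : ℕ → ℂ) {a b H j : ℕ} (hj : j < H) :
    ∑ m ∈ Ioc a (b + H), v03a_W z a b m j = ∑ n ∈ Ioc a b, z n := by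
  unfold v03a_W
  rw [← Finset.sum_filter]
  apply Finset.sum_nbij' (fun m => m - j) (fun n => n + j)
  · intro m hm
    simp only [Finset.mem_filter, Finset.mem_Ioc] at hm ⊢
    omega
  · intro n hn
    simp only [Finset.mem_filter, Finset.mem_Ioc] at hn ⊢
    omega
  · intro m hm
    simp only [Finset.mem_filter, Finset.mem_Ioc] at hm
    omega
  · intro n hn
    omega
  · intro m hm
    rfl

theorem v03a_corr (z : ℕ → ℂ) {a b H j j' : ℕ} (hj : j ≤ j') (hj' : j' < H) (hb : a + H ≤ b) :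
    ∑ m ∈ Ioc a (b + H), v03a_W z a b m j * (starRingEnd ℂ) (v03a_W z a b m j') =
      v03a_V z a b (j' - j) := by
  have h1 : ∀ m, v03a_W z a b m j * (starRingEnd ℂ) (v03a_W z a b m j') =
      if a + j' < m ∧ m ≤ b + j then z (m - j) * (starRingEnd ℂ) (z (m - j')) else 0 := by
    intro m
    unfold v03a_W
    by_cases h2 : a + j < m ∧ m ≤ b + j
    · by_cases h3 : a + j' < m ∧ m ≤ b + j'
      · rw [if_pos h2, if_pos h3, if_pos ⟨h3.1, h2.2⟩]
      · rw [if_pos h2, if_neg h3, if_neg (by omega)]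
        simp
    · rw [if_neg h2, zero_mul, if_neg (by omega)]
  rw [Finset.sum_congr rfl fun m _ => h1 m, ← Finset.sum_filter, v03a_V]
  apply Finset.sum_nbij' (fun m => m - j') (fun n => n + j')
  · intro m hm
    simp only [Finset.mem_filter, Finset.mem_Ioc] at hm ⊢
    omega
  · intro n hn
    simp only [Finset.mem_filter, Finset.mem_Ioc] at hn ⊢
    omega
  · intro m hm
    simp only [Finset.mem_filter, Finset.mem_Ioc] at hm
    omega
  · intro n hn
    omega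
  · intro m hm
    simp only [Finset.mem_filter, Finset.mem_Ioc] at hm
    have h2 : m - j' + (j' - j) = m - j := by omega
    rw [h2]

theorem v03a_norm (z : ℕ → ℂ) {a b H j j' : ℕ} (hj : j < H) (hj' : j' < H) (hb : a + H ≤ b) :
    ‖∑ m ∈ Ioc a (b + H), v03a_W z a b m j * (starRingEnd ℂ) (v03a_W z a b m j')‖ =
      ‖v03a_V z a b (Nat.dist j j')‖ := by
  rcases le_total j j' with h | h
  · rw [v03a_corr z h hj' hb, Nat.dist_eq_sub_of_le h]
  · rw [Nat.dist_eq_sub_of_le_right h, ← v03a_corr z h hj hb, ← Complex.norm_conj, map_sum]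
    congr 1
    apply Finset.sum_congr rfl
    intro m _
    rw [map_mul, Complex.conj_conj, mul_comm]

theorem v03a_count (H j : ℕ) (g : ℕ → ℝ) (hg : ∀ h, 0 ≤ g h) (hj : j < H) :
    ∑ j' ∈ range H, g (Nat.dist j j') ≤ 2 * ∑ h ∈ range H, g h := by
  have hmaps : ∀ j' ∈ range H, Nat.dist j j' ∈ range H := by
    intro j' hj'
    rw [Finset.mem_range] at hj' ⊢
    unfold Nat.dist
    omega
  rw [← Finset.sum_fiberwise_of_maps_to hmaps, Finset.mul_sum]
  apply Finset.sum_le_sum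
  intro h _
  have h1 : ∑ j' ∈ range H with Nat.dist j j' = h, g (Nat.dist j j') =
      ∑ j' ∈ range H with Nat.dist j j' = h, g h := by
    apply Finset.sum_congr rfl
    intro j' hj'
    rw [(Finset.mem_filter.1 hj').2]
  rw [h1, Finset.sum_const, nsmul_eq_mul]
  apply mul_le_mul_of_nonneg_right _ (hg h)
  have h2 : ((range H).filter fun j' => Nat.dist j j' = h) ⊆ {j - h, j + h} := by
    intro j' hj'
    rw [Finset.mem_filter] at hj'
    rw [Finset.mem_insert, Finset.mem_singleton]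
    have h3 := hj'.2
    unfold Nat.dist at h3
    omega
  have h3 : ((range H).filter fun j' => Nat.dist j j' = h).card ≤ 2 :=
    (Finset.card_le_card h2).trans Finset.card_le_two
  exact_mod_cast h3

/-- V03a: van der Corput's inequality (differencing). -/
theorem vdc_ineq (a b H : ℕ) (z : ℕ → ℂ) (hz : ∀ n, ‖z n‖ ≤ 1) (hH : 1 ≤ H) (hb : a + H ≤ b) :
    ‖∑ n ∈ Ioc a b, z n‖ ^ 2 ≤ (4 * ((b : ℝ) - a) / H) *
      (((b : ℝ) - a) + ∑ h ∈ Ico 1 H, ‖∑ n ∈ Ioc a (b - h), z (n + h) * (starRingEnd ℂ) (z n)‖) := by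
  set S := ∑ n ∈ Ioc a b, z n with hS
  set L := Ioc a (b + H) with hL
  set E : ℝ := ∑ h ∈ Ico 1 H, ‖∑ n ∈ Ioc a (b - h), z (n + h) * (starRingEnd ℂ) (z n)‖ with hE
  have hHpos : (0 : ℝ) < H := by exact_mod_cast hH
  have hba : (H : ℝ) ≤ (b : ℝ) - a := by
    have : ((a + H : ℕ) : ℝ) ≤ b := by exact_mod_cast hb
    push_cast at this
    linarith
  have hE0 : 0 ≤ E := Finset.sum_nonneg fun _ _ => norm_nonneg _
  have h1 : (H : ℂ) * S = ∑ m ∈ L, ∑ j ∈ range H, v03a_W z a b m j := by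
    rw [Finset.sum_comm]
    have h2 : ∀ j ∈ range H, ∑ m ∈ L, v03a_W z a b m j = S := fun j hj =>
      v03a_sum z (Finset.mem_range.1 hj)
    rw [Finset.sum_congr rfl h2, Finset.sum_const, Finset.card_range, nsmul_eq_mul]
  have h2 : ((H : ℝ) * ‖S‖) ^ 2 ≤ (L.card : ℝ) * ∑ m ∈ L, ‖∑ j ∈ range H, v03a_W z a b m j‖ ^ 2 := by
    have h3 : (H : ℝ) * ‖S‖ = ‖(H : ℂ) * S‖ := by
      rw [norm_mul, Complex.norm_natCast]
    rw [h3, h1]
    calc ‖∑ m ∈ L, ∑ j ∈ range H, v03a_W z a b m j‖ ^ 2 ≤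
        (∑ m ∈ L, ‖∑ j ∈ range H, v03a_W z a b m j‖) ^ 2 := by
          apply pow_le_pow_left₀ (norm_nonneg _) (norm_sum_le _ _)
      _ ≤ _ := sq_sum_le_card_mul_sum_sq
  have h3 : ((∑ m ∈ L, ‖∑ j ∈ range H, v03a_W z a b m j‖ ^ 2 : ℝ) : ℂ) =
      ∑ j ∈ range H, ∑ j' ∈ range H,
        ∑ m ∈ L, v03a_W z a b m j * (starRingEnd ℂ) (v03a_W z a b m j') := by
    push_cast
    have h4 : ∀ m ∈ L, ((‖∑ j ∈ range H, v03a_W z a b m j‖ : ℝ) : ℂ) ^ 2 =
        ∑ j ∈ range H, ∑ j' ∈ range H,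
          v03a_W z a b m j * (starRingEnd ℂ) (v03a_W z a b m j') := by
      intro m _
      rw [← Complex.mul_conj', map_sum, Finset.sum_mul_sum]
    rw [Finset.sum_congr rfl h4, Finset.sum_comm]
    apply Finset.sum_congr rfl
    intro j _
    rw [Finset.sum_comm]
  have hV0 : ‖v03a_V z a b 0‖ ≤ (b : ℝ) - a := by
    unfold v03a_V
    have h4 : ‖∑ n ∈ Ioc a (b - 0), z (n + 0) * (starRingEnd ℂ) (z n)‖ ≤
        ∑ n ∈ Ioc a (b - 0), (1 : ℝ) := by
      apply norm_sum_le_of_le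
      intro n _
      rw [norm_mul, Complex.norm_conj]
      exact mul_le_one₀ (hz _) (norm_nonneg _) (hz _)
    rw [Finset.sum_const, Nat.card_Ioc, nsmul_eq_mul, mul_one] at h4
    refine h4.trans ?_
    rw [Nat.sub_zero, Nat.cast_sub (by omega)]
  have h5 : ∑ m ∈ L, ‖∑ j ∈ range H, v03a_W z a b m j‖ ^ 2 ≤
      (H : ℝ) * (2 * (((b : ℝ) - a) + E)) := by
    have h6 : ∑ m ∈ L, ‖∑ j ∈ range H, v03a_W z a b m j‖ ^ 2 ≤
        ‖((∑ m ∈ L, ‖∑ j ∈ range H, v03a_W z a b m j‖ ^ 2 : ℝ) : ℂ)‖ := by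
      rw [Complex.norm_real]
      exact Real.le_norm_self _
    refine h6.trans ?_
    rw [h3]
    refine (norm_sum_le _ _).trans ?_
    have h7 : ∀ j ∈ range H, ‖∑ j' ∈ range H,
        ∑ m ∈ L, v03a_W z a b m j * (starRingEnd ℂ) (v03a_W z a b m j')‖ ≤
        2 * (((b : ℝ) - a) + E) := by
      intro j hj
      refine (norm_sum_le _ _).trans ?_
      have h8 : ∀ j' ∈ range H, ‖∑ m ∈ L, v03a_W z a b m j *
          (starRingEnd ℂ) (v03a_W z a b m j')‖ = ‖v03a_V z a b (Nat.dist j j')‖ := fun j' hj' =>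
        v03a_norm z (Finset.mem_range.1 hj) (Finset.mem_range.1 hj') hb
      rw [Finset.sum_congr rfl h8]
      refine (v03a_count H j (fun h => ‖v03a_V z a b h‖) (fun _ => norm_nonneg _)
        (Finset.mem_range.1 hj)).trans ?_
      have h9 : ∑ h ∈ range H, ‖v03a_V z a b h‖ = ‖v03a_V z a b 0‖ + E := by
        rw [Finset.range_eq_Ico, Finset.sum_eq_sum_Ico_succ_bot (by omega)]
        rfl
      rw [h9]
      linarith
    refine (Finset.sum_le_sum h7).trans ?_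
    rw [Finset.sum_const, Finset.card_range, nsmul_eq_mul]
  have hcard : (L.card : ℝ) ≤ 2 * ((b : ℝ) - a) := by
    rw [hL, Nat.card_Ioc, Nat.cast_sub (by omega)]
    push_cast
    linarith
  have h10 : ((H : ℝ) * ‖S‖) ^ 2 ≤
      (2 * ((b : ℝ) - a)) * ((H : ℝ) * (2 * (((b : ℝ) - a) + E))) := by
    refine h2.trans ?_
    apply mul_le_mul hcard h5
    · exact Finset.sum_nonneg fun _ _ => by positivity
    · linarith
  have h11 : (4 * ((b : ℝ) - a) / H) * (((b : ℝ) - a) + E) =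
      (2 * ((b : ℝ) - a)) * ((H : ℝ) * (2 * (((b : ℝ) - a) + E))) / (H : ℝ) ^ 2 := by
    field_simp
    ring
  rw [h11, le_div_iff₀ (by positivity)]
  calc ‖S‖ ^ 2 * (H : ℝ) ^ 2 = ((H : ℝ) * ‖S‖) ^ 2 := by ring
    _ ≤ _ := h10

end PS4
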