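import Pool.Agent.LibPS4.V01

open MeasureTheory Finset

namespace PS4

theorem v03b_mvt {lo hi : ℝ} {f : ℝ → ℝ} {a b h : ℝ} (hh : 0 < h) (f' : ℝ → ℝ)
    (hf : ∀ x ∈ Set.Icc a b, HasDerivWithinAt f (f' x) (Set.Icc a b) x)
    (hb : ∀ x ∈ Set.Icc a b, lo ≤ f' x ∧ f' x ≤ hi) (x : ℝ) (hx : x ∈ Set.Icc a (b - h)) :
    h * lo ≤ f (x + h) - f x ∧ f (x + h) - f x ≤ h * hi := by
  have hx1 : a ≤ x := hx.1
  have hx2 : x + h ≤ b := by linarith [hx.2]
  have hsub : Set.Icc x (x + h) ⊆ Set.Icc a b := Set.Icc_subset_Icc hx1 hx2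
  have hcont : ContinuousOn f (Set.Icc x (x + h)) := fun y hy =>
    ((hf y (hsub hy)).continuousWithinAt).mono hsub
  have hder : ∀ y ∈ Set.Ioo x (x + h), HasDerivAt f (f' y) y := by
    intro y hy
    apply (hf y (hsub (Set.Ioo_subset_Icc_self hy))).hasDerivAt
    exact Icc_mem_nhds (by linarith [hy.1]) (by linarith [hy.2])
  obtain ⟨c, hc, hceq⟩ := exists_hasDerivAt_eq_slope f f' (by linarith) hcont hder
  have h1 : f (x + h) - f x = h * f' c := by
    rw [hceq]
    have : x + h - x = h := by ring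
    rw [this]
    field_simp
  have h2 := hb c (hsub (Set.Ioo_subset_Icc_self hc))
  rw [h1]
  exact ⟨mul_le_mul_of_nonneg_left h2.1 hh.le, mul_le_mul_of_nonneg_left h2.2 hh.le⟩

/-- V03b: differencing lowers the order of the derivative. -/
theorem Dk_diff (k : ℕ) {lo hi : ℝ} {f : ℝ → ℝ} {a b h : ℝ} (hh : 0 < h) (hab : a ≤ b - h)
    (hf : Dk (k + 1) lo hi f (Set.Icc a b)) :
    Dk k (h * lo) (h * hi) (fun x => f (x + h) - f x) (Set.Icc a (b - h)) := by
  induction k generalizing f with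
  | zero =>
    obtain ⟨f', hf', hb⟩ := hf
    intro x hx
    exact v03b_mvt hh f' hf' hb x hx
  | succ k ih =>
    obtain ⟨f', hf', hD⟩ := hf
    refine ⟨fun x => f' (x + h) - f' x, ?_, ih hD⟩
    intro x hx
    have hx1 : x ∈ Set.Icc a b := ⟨hx.1, by linarith [hx.2]⟩
    have hx2 : x + h ∈ Set.Icc a b := ⟨by linarith [hx.1], by linarith [hx.2]⟩
    have hsub : Set.Icc a (b - h) ⊆ Set.Icc a b := Set.Icc_subset_Icc le_rfl (by linarith)
    have h1 : HasDerivWithinAt (fun y : ℝ => y + h) 1 (Set.Icc a (b - h)) x :=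
      (hasDerivWithinAt_id x _).add_const h
    have h2 : HasDerivWithinAt (fun y => f (y + h)) (f' (x + h) * 1) (Set.Icc a (b - h)) x := by
      apply HasDerivWithinAt.comp x (hf' (x + h) hx2) h1
      intro y hy
      exact ⟨by linarith [hy.1], by linarith [hy.2]⟩
    rw [mul_one] at h2
    exact h2.sub ((hf' x hx1).mono hsub)

end PS4
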