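import Pool.Agent.LibPS4.V02
import Pool.Agent.LibPS4.V03a
import Pool.Agent.LibPS4.V03b

open MeasureTheory Finset

namespace PS4

private theorem v04_e1_norm (x : ℝ) : ‖e1 x‖ = 1 := by
  unfold e1
  exact Complex.norm_exp_ofReal_mul_I _

private theorem v04_e1_mul (x y : ℝ) : e1 x * (starRingEnd ℂ) (e1 y) = e1 (x - y) := by
  unfold e1
  rw [← Complex.exp_conj, ← Complex.exp_add]
  congr 1
  rw [map_mul, Complex.conj_ofReal, Complex.conj_I]
  push_cast
  ring

private theorem v04_sqrt_rpow {N : ℝ} (hN : 0 < N) (x : ℝ) :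
    Real.sqrt (N ^ x) = N ^ (x / 2) := by
  rw [Real.sqrt_eq_rpow, ← Real.rpow_mul hN.le]
  congr 1
  ring

/-- V04: the `k`-th derivative test, with an unspecified power saving. -/
theorem vdc_k (k : ℕ) (hk : 2 ≤ k) (δ A : ℝ) (hδ : 0 < δ) (hδ1 : δ < 1) (hA : 1 ≤ A) :
    ∃ c C : ℝ, 0 < c ∧ 0 < C ∧ ∀ (N a b : ℕ) (f : ℝ → ℝ) (lam : ℝ), 1 ≤ N → a ≤ b → b ≤ a + N →
      (N : ℝ) ^ (-2 + δ) ≤ lam → lam ≤ (N : ℝ) ^ (-δ) →
      Dk k lam (A * lam) f (Set.Icc (a : ℝ) b) →
      ‖∑ n ∈ Ioc a b, e1 (f n)‖ ≤ C * (N : ℝ) ^ (1 - c) := by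
  induction k, hk using Nat.le_induction generalizing δ with
  | base =>
    obtain ⟨C, hC, h⟩ := vdc_second
    refine ⟨δ / 2, 2 * C * A, by positivity, by positivity, ?_⟩
    intro N a b f lam hN hab hbN hl1 hl2 hD
    have hN0 : (0 : ℝ) < N := by exact_mod_cast hN
    have hlam : 0 < lam := lt_of_lt_of_le (Real.rpow_pos_of_pos hN0 _) hl1
    have h1 := h a b f lam A hab hlam hA hD
    have h2 : ((b : ℝ) - a) ≤ N := by
      have : (b : ℝ) ≤ a + N := by exact_mod_cast hbN
      linarith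
    have h20 : 0 ≤ ((b : ℝ) - a) := by
      have : (a : ℝ) ≤ b := by exact_mod_cast hab
      linarith
    have h3 : Real.sqrt lam ≤ (N : ℝ) ^ (-δ / 2) := by
      rw [← v04_sqrt_rpow hN0]
      exact Real.sqrt_le_sqrt hl2
    have h4 : 1 / Real.sqrt lam ≤ (N : ℝ) ^ (1 - δ / 2) := by
      have h5 : (N : ℝ) ^ ((-2 + δ) / 2) ≤ Real.sqrt lam := by
        rw [← v04_sqrt_rpow hN0]
        exact Real.sqrt_le_sqrt hl1
      have h6 : (N : ℝ) ^ (1 - δ / 2) = 1 / (N : ℝ) ^ ((-2 + δ) / 2) := by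
        rw [one_div, ← Real.rpow_neg hN0.le]
        congr 1
        ring
      rw [h6]
      exact one_div_le_one_div_of_le (Real.rpow_pos_of_pos hN0 _) h5
    have h7 : ((b : ℝ) - a) * Real.sqrt lam ≤ (N : ℝ) ^ (1 - δ / 2) := by
      calc ((b : ℝ) - a) * Real.sqrt lam ≤ N * (N : ℝ) ^ (-δ / 2) :=
            mul_le_mul h2 h3 (Real.sqrt_nonneg _) hN0.le
        _ = (N : ℝ) ^ (1 : ℝ) * (N : ℝ) ^ (-δ / 2) := by rw [Real.rpow_one]
        _ = (N : ℝ) ^ (1 - δ / 2) := by
            rw [← Real.rpow_add hN0]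
            congr 1
            ring
    calc ‖∑ n ∈ Ioc a b, e1 (f n)‖
        ≤ C * A * (((b : ℝ) - a) * Real.sqrt lam + 1 / Real.sqrt lam) := h1
      _ ≤ C * A * ((N : ℝ) ^ (1 - δ / 2) + (N : ℝ) ^ (1 - δ / 2)) := by
          apply mul_le_mul_of_nonneg_left _ (by positivity)
          exact add_le_add h7 h4
      _ = 2 * C * A * (N : ℝ) ^ (1 - δ / 2) := by ring
  | succ k hk ih =>
    obtain ⟨c', C', hc', hC', h⟩ := ih (δ / 2) (by linarith) (by linarith)
    refine ⟨min (δ / 2) c' / 2, 8 + 4 * C', by positivity, by positivity, ?_⟩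
    intro N a b f lam hN hab hbN hl1 hl2 hD
    have hN0 : (0 : ℝ) < N := by exact_mod_cast hN
    have hN1 : (1 : ℝ) ≤ N := by exact_mod_cast hN
    have hlam : 0 < lam := lt_of_lt_of_le (Real.rpow_pos_of_pos hN0 _) hl1
    have h2 : ((b : ℝ) - a) ≤ N := by
      have : (b : ℝ) ≤ a + N := by exact_mod_cast hbN
      linarith
    have h20 : 0 ≤ ((b : ℝ) - a) := by
      have : (a : ℝ) ≤ b := by exact_mod_cast hab
      linarith
    set m : ℝ := min (δ / 2) c' with hm
    have hm0 : 0 < m := by positivity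
    have hm1 : m ≤ δ / 2 := min_le_left _ _
    have hm2 : m ≤ c' := min_le_right _ _
    set H : ℕ := ⌊(N : ℝ) ^ (δ / 2)⌋₊ with hH
    have hP1 : (1 : ℝ) ≤ (N : ℝ) ^ (δ / 2) := Real.one_le_rpow hN1 (by linarith)
    have hH1 : 1 ≤ H := by
      rw [hH]
      exact Nat.le_floor (by exact_mod_cast hP1)
    have hH2 : (H : ℝ) ≤ (N : ℝ) ^ (δ / 2) := Nat.floor_le (by linarith)
    have hH3 : (N : ℝ) ^ (δ / 2) / 2 ≤ H := by
      have h3 := Nat.lt_floor_add_one ((N : ℝ) ^ (δ / 2))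
      rw [← hH] at h3
      have h4 : (1 : ℝ) ≤ H := by exact_mod_cast hH1
      linarith
    have hH0 : (0 : ℝ) < H := by
      have h4 : (1 : ℝ) ≤ H := by exact_mod_cast hH1
      linarith
    by_cases hb : b < a + H
    · -- trivial bound
      have h3 : ‖∑ n ∈ Ioc a b, e1 (f n)‖ ≤ (b : ℝ) - a := by
        refine (norm_sum_le _ _).trans ?_
        simp only [v04_e1_norm, Finset.sum_const, Nat.card_Ioc, nsmul_eq_mul, mul_one]
        rw [Nat.cast_sub hab]
      have h4 : (b : ℝ) - a ≤ (N : ℝ) ^ (δ / 2) := by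
        have : (b : ℝ) ≤ a + H := by exact_mod_cast hb.le
        linarith
      have h5 : (N : ℝ) ^ (δ / 2) ≤ (N : ℝ) ^ (1 - m / 2) :=
        Real.rpow_le_rpow_of_exponent_le hN1 (by linarith)
      have h6 : (0 : ℝ) < (N : ℝ) ^ (1 - m / 2) := Real.rpow_pos_of_pos hN0 _
      nlinarith
    · push Not at hb
      have h3 := vdc_ineq a b H (fun n => e1 (f n)) (fun n => (v04_e1_norm _).le) hH1 hb
      have h4 : ∀ j ∈ Ico 1 H, ‖∑ n ∈ Ioc a (b - j), (fun n : ℕ => e1 (f n)) (n + j) *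
          (starRingEnd ℂ) ((fun n : ℕ => e1 (f n)) n)‖ ≤ C' * (N : ℝ) ^ (1 - c') := by
        intro j hj
        obtain ⟨hj1, hj2⟩ := Finset.mem_Ico.mp hj
        have hj0 : (0 : ℝ) < j := by exact_mod_cast hj1
        have hj1' : (1 : ℝ) ≤ j := by exact_mod_cast hj1
        have hjb : j ≤ b := by omega
        have e1' : ∀ n ∈ Ioc a (b - j), (fun n : ℕ => e1 (f n)) (n + j) *
            (starRingEnd ℂ) ((fun n : ℕ => e1 (f n)) n)
            = e1 ((fun x : ℝ => f (x + j) - f x) n) := by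
          intro n _
          show e1 (f ((n + j : ℕ) : ℝ)) * (starRingEnd ℂ) (e1 (f (n : ℝ))) = _
          rw [v04_e1_mul]
          push_cast
          rfl
        rw [Finset.sum_congr rfl e1']
        have hcast : ((b - j : ℕ) : ℝ) = (b : ℝ) - j := by rw [Nat.cast_sub hjb]
        have hab' : (a : ℝ) ≤ (b : ℝ) - j := by
          have : ((a + j : ℕ) : ℝ) ≤ b := by exact_mod_cast (by omega : a + j ≤ b)
          push_cast at this
          linarith
        apply h N a (b - j) (fun x : ℝ => f (x + j) - f x) ((j : ℝ) * lam) hN (by omega)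
          (by omega)
        · calc (N : ℝ) ^ (-2 + δ / 2) ≤ (N : ℝ) ^ (-2 + δ) :=
                Real.rpow_le_rpow_of_exponent_le hN1 (by linarith)
            _ ≤ lam := hl1
            _ = 1 * lam := (one_mul _).symm
            _ ≤ j * lam := mul_le_mul_of_nonneg_right hj1' hlam.le
        · calc (j : ℝ) * lam ≤ H * lam := by
                apply mul_le_mul_of_nonneg_right _ hlam.le
                exact_mod_cast hj2.le
            _ ≤ (N : ℝ) ^ (δ / 2) * (N : ℝ) ^ (-δ) :=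
                mul_le_mul hH2 hl2 hlam.le (by linarith)
            _ = (N : ℝ) ^ (-(δ / 2)) := by
                rw [← Real.rpow_add hN0]
                congr 1
                ring
        · rw [hcast]
          have h5 := Dk_diff k hj0 hab' hD
          have e2 : A * ((j : ℝ) * lam) = (j : ℝ) * (A * lam) := by ring
          rw [e2]
          exact h5
      have h5 : ∑ j ∈ Ico 1 H, ‖∑ n ∈ Ioc a (b - j), (fun n : ℕ => e1 (f n)) (n + j) *
          (starRingEnd ℂ) ((fun n : ℕ => e1 (f n)) n)‖ ≤ H * (C' * (N : ℝ) ^ (1 - c')) := by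
        refine (Finset.sum_le_sum h4).trans ?_
        rw [Finset.sum_const, Nat.card_Ico, nsmul_eq_mul]
        apply mul_le_mul_of_nonneg_right _ (by positivity)
        exact_mod_cast Nat.sub_le H 1
      have h6 : ‖∑ n ∈ Ioc a b, e1 (f n)‖ ^ 2 ≤ (4 * N / H) *
          (N + H * (C' * (N : ℝ) ^ (1 - c'))) := by
        refine h3.trans ?_
        apply mul_le_mul
        · apply div_le_div_of_nonneg_right _ hH0.le
          linarith
        · exact add_le_add h2 h5
        · apply add_nonneg h20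
          exact Finset.sum_nonneg fun _ _ => norm_nonneg _
        · positivity
      have h7 : (4 * N / H) * (N + H * (C' * (N : ℝ) ^ (1 - c')))
          = 4 * (N : ℝ) ^ 2 / H + 4 * C' * (N * (N : ℝ) ^ (1 - c')) := by
        field_simp
      have h8 : (N : ℝ) ^ 2 / H ≤ 2 * (N : ℝ) ^ (2 - m) := by
        rw [div_le_iff₀ hH0]
        have e3 : (N : ℝ) ^ 2 = (N : ℝ) ^ (2 - δ / 2) * (N : ℝ) ^ (δ / 2) := by
          rw [← Real.rpow_add hN0, ← Real.rpow_natCast]
          congr 1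
          push_cast
          ring
        have e4 : (N : ℝ) ^ (2 - δ / 2) ≤ (N : ℝ) ^ (2 - m) :=
          Real.rpow_le_rpow_of_exponent_le hN1 (by linarith)
        rw [e3]
        calc (N : ℝ) ^ (2 - δ / 2) * (N : ℝ) ^ (δ / 2)
            ≤ (N : ℝ) ^ (2 - m) * (2 * H) := by
              apply mul_le_mul e4 (by linarith) (by positivity) (by positivity)
          _ = 2 * (N : ℝ) ^ (2 - m) * H := by ring
      have h9 : N * (N : ℝ) ^ (1 - c') ≤ (N : ℝ) ^ (2 - m) := by
        calc N * (N : ℝ) ^ (1 - c') = (N : ℝ) ^ (1 : ℝ) * (N : ℝ) ^ (1 - c') := by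
              rw [Real.rpow_one]
          _ = (N : ℝ) ^ (2 - c') := by
              rw [← Real.rpow_add hN0]
              congr 1
              ring
          _ ≤ (N : ℝ) ^ (2 - m) := Real.rpow_le_rpow_of_exponent_le hN1 (by linarith)
      have h10 : ‖∑ n ∈ Ioc a b, e1 (f n)‖ ^ 2 ≤ (8 + 4 * C') * (N : ℝ) ^ (2 - m) := by
        rw [h7] at h6
        calc ‖∑ n ∈ Ioc a b, e1 (f n)‖ ^ 2
            ≤ 4 * (N : ℝ) ^ 2 / H + 4 * C' * (N * (N : ℝ) ^ (1 - c')) := h6
          _ = 4 * ((N : ℝ) ^ 2 / H) + 4 * C' * (N * (N : ℝ) ^ (1 - c')) := by ring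
          _ ≤ 4 * (2 * (N : ℝ) ^ (2 - m)) + 4 * C' * (N : ℝ) ^ (2 - m) := by
              apply add_le_add
              · linarith
              · exact mul_le_mul_of_nonneg_left h9 (by positivity)
          _ = (8 + 4 * C') * (N : ℝ) ^ (2 - m) := by ring
      have h11 : (8 + 4 * C') * (N : ℝ) ^ (2 - m) ≤ ((8 + 4 * C') * (N : ℝ) ^ (1 - m / 2)) ^ 2 := by
        have e5 : ((8 + 4 * C') * (N : ℝ) ^ (1 - m / 2)) ^ 2
            = (8 + 4 * C') ^ 2 * (N : ℝ) ^ (2 - m) := by
          rw [mul_pow]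
          congr 1
          rw [← Real.rpow_natCast, ← Real.rpow_mul hN0.le]
          congr 1
          push_cast
          ring
        rw [e5]
        apply mul_le_mul_of_nonneg_right _ (by positivity)
        nlinarith
      exact abs_le_of_sq_le_sq' (h10.trans h11) (by positivity) |>.2

end PS4
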